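import Mathlib

/-!
Real-linear maps of `ℂ` in Wirtinger form.
-/

open Set Complex
open scoped ComplexConjugate

noncomputable section

namespace Pool.Agent.Lib.MP_e277cf_an

/-- The real-linear map `v ↦ f v + m conj v`. -/
def lin (f m : ℂ) : ℂ →L[ℝ] ℂ :=
  f • ContinuousLinearMap.id ℝ ℂ + m • (conjCLE : ℂ →L[ℝ] ℂ)

@[simp] theorem lin_apply (f m v : ℂ) : lin f m v = f * v + m * conj v := by
  simp [lin]

/-- Wirtinger coefficient. -/
def dz (A : ℂ →L[ℝ] ℂ) : ℂ := (A 1 - I * A I) / 2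

/-- Conjugate Wirtinger coefficient. -/
def dzb (A : ℂ →L[ℝ] ℂ) : ℂ := (A 1 + I * A I) / 2

theorem clm_apply_eq (A : ℂ →L[ℝ] ℂ) (v : ℂ) : A v = v.re * A 1 + v.im * A I := by
  have : v = v.re • (1 : ℂ) + v.im • I := by
    apply Complex.ext <;> simp
  conv_lhs => rw [this]
  rw [map_add, map_smul, map_smul, real_smul, real_smul]

theorem lin_dz_dzb (A : ℂ →L[ℝ] ℂ) : lin (dz A) (dzb A) = A := by
  ext v
  rw [clm_apply_eq A v, lin_apply, dz, dzb]
  have hv : v = v.re + v.im * I := (re_add_im v).symm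
  have hv' : conj v = v.re - v.im * I := by
    apply Complex.ext <;> simp
  rw [hv']
  conv_lhs => rw [hv]
  simp only [add_re, ofReal_re, mul_re, I_re, mul_zero, ofReal_im, I_im, mul_one, sub_self,
    add_zero, add_im, mul_im, zero_add]
  ring_nf
  simp only [I_sq]
  ring

theorem dz_lin (f m : ℂ) : dz (lin f m) = f := by
  simp only [dz, lin_apply, map_one, conj_I]
  ring_nf
  simp only [I_sq]
  ring

theorem dzb_lin (f m : ℂ) : dzb (lin f m) = m := by
  simp only [dzb, lin_apply, map_one, conj_I]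
  ring_nf
  simp only [I_sq]
  ring

theorem hs_lin (f m : ℂ) :
    ‖lin f m 1‖ ^ 2 + ‖lin f m I‖ ^ 2 = 2 * (‖f‖ ^ 2 + ‖m‖ ^ 2) := by
  simp only [lin_apply, map_one, conj_I, Complex.sq_norm, normSq_apply]
  simp
  ring

theorem hs_eq (A : ℂ →L[ℝ] ℂ) :
    ‖A 1‖ ^ 2 + ‖A I‖ ^ 2 = 2 * (‖dz A‖ ^ 2 + ‖dzb A‖ ^ 2) := by
  rw [← hs_lin, lin_dz_dzb]

theorem det_lin (f m : ℂ) : (lin f m).det = ‖f‖ ^ 2 - ‖m‖ ^ 2 := by
  rw [ContinuousLinearMap.det, ← LinearMap.det_toMatrix basisOneI, Matrix.det_fin_two]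
  simp [LinearMap.toMatrix_apply, Complex.sq_norm, normSq_apply]
  ring

theorem norm_lin_le (f m : ℂ) : ‖lin f m‖ ≤ ‖f‖ + ‖m‖ := by
  refine ContinuousLinearMap.opNorm_le_bound _ (by positivity) fun v => ?_
  rw [lin_apply]
  calc ‖f * v + m * conj v‖ ≤ ‖f * v‖ + ‖m * conj v‖ := norm_add_le _ _
    _ = (‖f‖ + ‖m‖) * ‖v‖ := by simp [add_mul]

theorem lin_comp (f m a b : ℂ) :
    (lin f m).comp (lin a b) = lin (f * a + m * conj b) (f * b + m * conj a) := by
  ext v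
  simp only [ContinuousLinearMap.comp_apply, lin_apply, map_add, map_mul, conj_conj]
  ring

theorem continuous_lin : Continuous (fun p : ℂ × ℂ => lin p.1 p.2) := by
  unfold lin
  fun_prop

theorem continuous_dz : Continuous dz := by
  unfold dz
  fun_prop

theorem continuous_dzb : Continuous dzb := by
  unfold dzb
  fun_prop

/-- If `lin f m` is injective then `|f| ≠ |m|`. -/
theorem norm_ne_of_injective {f m : ℂ} (h : Function.Injective (lin f m)) : ‖f‖ ≠ ‖m‖ := by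
  intro hfm
  have hdet : (lin f m).det = 0 := by rw [det_lin, hfm]; ring
  have : LinearMap.ker ((lin f m : ℂ →L[ℝ] ℂ) : ℂ →ₗ[ℝ] ℂ) = ⊥ :=
    LinearMap.ker_eq_bot.mpr h
  have h2 := LinearMap.bot_lt_ker_of_det_eq_zero (f := ((lin f m : ℂ →L[ℝ] ℂ) : ℂ →ₗ[ℝ] ℂ)) hdet
  exact h2.ne' this

/-- A function whose real derivative is complex linear is complex differentiable. -/
theorem hasDerivAt_of_lin_zero {F : ℂ → ℂ} {f z : ℂ} (h : HasFDerivAt F (lin f 0) z) :
    HasDerivAt F f z := by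
  rw [hasDerivAt_iff_hasFDerivAt]
  refine hasFDerivAt_of_restrictScalars ℝ h ?_
  ext v
  simp [mul_comm]

theorem hasFDerivAt_lin_of_hasDerivAt {F : ℂ → ℂ} {f z : ℂ} (h : HasDerivAt F f z) :
    HasFDerivAt F (lin f 0) z := by
  refine (h.hasFDerivAt.restrictScalars ℝ).congr_fderiv ?_
  ext v
  simp [mul_comm]

theorem hasFDerivAt_conj_lin {F : ℂ → ℂ} {f m z : ℂ} (h : HasFDerivAt F (lin f m) z) :
    HasFDerivAt (fun w => conj (F w)) (lin (conj m) (conj f)) z := by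
  refine ((conjCLE : ℂ →L[ℝ] ℂ).hasFDerivAt.comp z h).congr_fderiv ?_
  ext v
  simp [add_comm]

theorem lin_add (f m f' m' : ℂ) : lin f m + lin f' m' = lin (f + f') (m + m') := by
  ext v
  simp only [add_apply, lin_apply]
  ring

theorem lin_sub (f m f' m' : ℂ) : lin f m - lin f' m' = lin (f - f') (m - m') := by
  ext v
  simp only [sub_apply, lin_apply]
  ring

theorem lin_zero : lin 0 0 = 0 := by
  ext v
  simp

end Pool.Agent.Lib.MP_e277cf_an
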