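import Pool.Agent.Lib.MP_e277cf_an.Defs
import Pool.Agent.Lib.MP_e277cf_an.Lin

/-!
`C^1` homeomorphisms of finite energy are admissible competitors.
-/

open MeasureTheory Set Metric Complex Filter Topology
open scoped ENNReal ContDiff NNReal

noncomputable section

namespace Pool.Agent.Lib.MP_e277cf_an

/-- Energy density. -/
def dens (h : ℂ → ℂ) (z : ℂ) : ℝ := ‖fderiv ℝ h z 1‖ ^ 2 + ‖fderiv ℝ h z I‖ ^ 2

theorem dens_nonneg (h : ℂ → ℂ) (z : ℂ) : 0 ≤ dens h z := by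
  unfold dens; positivity

theorem continuousOn_fderiv_of {Ω : Set ℂ} (hΩ : IsOpen Ω) {h : ℂ → ℂ}
    (hh : ContDiffOn ℝ 1 h Ω) : ContinuousOn (fderiv ℝ h) Ω :=
  hh.continuousOn_fderiv_of_isOpen hΩ le_rfl

theorem differentiableAt_of {Ω : Set ℂ} (hΩ : IsOpen Ω) {h : ℂ → ℂ}
    (hh : ContDiffOn ℝ 1 h Ω) {z : ℂ} (hz : z ∈ Ω) : DifferentiableAt ℝ h z :=
  (hh.contDiffAt (hΩ.mem_nhds hz)).differentiableAt one_ne_zero

theorem continuousOn_dens {Ω : Set ℂ} (hΩ : IsOpen Ω) {h : ℂ → ℂ}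
    (hh : ContDiffOn ℝ 1 h Ω) : ContinuousOn (dens h) Ω := by
  have := continuousOn_fderiv_of hΩ hh
  unfold dens
  fun_prop

theorem isHomeoOnto_of {Ω Ω' : Set ℂ} {h k : ℂ → ℂ} (hh : ContinuousOn h Ω)
    (hk : ContinuousOn k Ω') (mh : MapsTo h Ω Ω') (mk : MapsTo k Ω' Ω)
    (hinv : InvOn k h Ω Ω') : IsHomeoOnto Ω Ω' h := by
  refine ⟨{ toFun := mh.restrict h Ω Ω'
            invFun := mk.restrict k Ω' Ω
            left_inv := fun z => Subtype.ext (hinv.1 z.2)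
            right_inv := fun z => Subtype.ext (hinv.2 z.2)
            continuous_toFun := hh.mapsToRestrict mh
            continuous_invFun := hk.mapsToRestrict mk }, fun z => rfl⟩

/-- A function supported in a compact subset of `Ω` times a function continuous on `Ω` is
integrable. -/
theorem integrable_smul_of_tsupport {Ω : Set ℂ} {φ : ℂ → ℝ} {g : ℂ → ℂ} (hφ : Continuous φ)
    (hc : HasCompactSupport φ) (hs : tsupport φ ⊆ Ω) (hg : ContinuousOn g Ω) :
    Integrable (fun z => φ z • g z) := by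
  have h1 : IntegrableOn (fun z => φ z • g z) (tsupport φ) :=
    ContinuousOn.integrableOn_compact hc (hφ.continuousOn.smul (hg.mono hs))
  refine (integrableOn_iff_integrable_of_support_subset ?_).1 h1
  intro z hz
  by_contra hz'
  exact hz (by simp [image_eq_zero_of_notMem_tsupport hz'])

theorem setIntegral_smul_eq_of_tsupport {Ω : Set ℂ} {φ : ℂ → ℝ} {g : ℂ → ℂ}
    (hs : tsupport φ ⊆ Ω) : ∫ z in Ω, φ z • g z = ∫ z, φ z • g z := by
  refine setIntegral_eq_integral_of_forall_compl_eq_zero fun z hz => ?_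
  simp [image_eq_zero_of_notMem_tsupport (fun h => hz (hs h))]

theorem tsupport_fderiv_apply_subset' (φ : ℂ → ℝ) (v : ℂ) :
    tsupport (fun z => fderiv ℝ φ z v) ⊆ tsupport φ := by
  refine closure_minimal ?_ (isClosed_tsupport φ)
  intro z hz
  by_contra hz'
  have : fderiv ℝ φ z = 0 := by
    by_contra h
    exact hz' (support_fderiv_subset ℝ (f := φ) h)
  exact hz (by simp [this])

theorem hasCompactSupport_fderiv_apply {φ : ℂ → ℝ} (hc : HasCompactSupport φ) (v : ℂ) :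
    HasCompactSupport (fun z => fderiv ℝ φ z v) :=
  IsCompact.of_isClosed_subset hc (isClosed_tsupport _) (tsupport_fderiv_apply_subset' φ v)

/-- Integration by parts against a test function. -/
theorem integral_by_parts {Ω : Set ℂ} (hΩ : IsOpen Ω) {h : ℂ → ℂ} (hh : ContDiffOn ℝ 1 h Ω)
    {φ : ℂ → ℝ} (hφ : ContDiff ℝ 1 φ) (hc : HasCompactSupport φ) (hs : tsupport φ ⊆ Ω) (v : ℂ) :
    ∫ z, (fderiv ℝ φ z v) • h z = -∫ z, φ z • fderiv ℝ h z v := by
  classical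
  have hφ' : Continuous (fun z => fderiv ℝ φ z v) :=
    (hφ.continuous_fderiv one_ne_zero).clm_apply continuous_const
  have hd := continuousOn_fderiv_of hΩ hh
  have hdv : ContinuousOn (fun z => fderiv ℝ h z v) Ω := hd.clm_apply continuousOn_const
  have key := integral_smul_fderiv_eq_neg_fderiv_smul_of_integrable (μ := volume) (𝕜 := ℝ)
    (f := φ) (g := h) (v := v)
    (integrable_smul_of_tsupport hφ' (hasCompactSupport_fderiv_apply hc v)
      ((tsupport_fderiv_apply_subset' φ v).trans hs) hh.continuousOn)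
    (integrable_smul_of_tsupport hφ.continuous hc hs hdv)
    (integrable_smul_of_tsupport hφ.continuous hc hs hh.continuousOn)
    (fun x _ => hφ.differentiable one_ne_zero x)
    (fun x hx => differentiableAt_of hΩ hh (hs hx))
  rw [key, neg_neg]

theorem isWeakDirDeriv_of {Ω : Set ℂ} (hΩ : IsOpen Ω) {h : ℂ → ℂ} (hh : ContDiffOn ℝ 1 h Ω)
    (v : ℂ) : IsWeakDirDeriv Ω h (fun z => fderiv ℝ h z v) v := by
  intro φ hφ hc hs
  rw [setIntegral_smul_eq_of_tsupport ((tsupport_fderiv_apply_subset' φ v).trans hs),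
    setIntegral_smul_eq_of_tsupport hs]
  exact integral_by_parts hΩ hh (hφ.of_le (by simp)) hc hs v

theorem isW12_of {Ω : Set ℂ} (hΩ : IsOpen Ω) (hb : Bornology.IsBounded Ω) {h : ℂ → ℂ}
    (hh : ContDiffOn ℝ 1 h Ω) {C : ℝ} (hC : ∀ z ∈ Ω, ‖h z‖ ≤ C)
    (hi : IntegrableOn (dens h) Ω) :
    IsW12 Ω h (fun z => fderiv ℝ h z 1) (fun z => fderiv ℝ h z I) := by
  have hfin : IsFiniteMeasure (volume.restrict Ω) :=
    isFiniteMeasure_restrict.2 hb.measure_lt_top.ne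
  have hd := continuousOn_fderiv_of hΩ hh
  have hm : ∀ v : ℂ, AEStronglyMeasurable (fun z => fderiv ℝ h z v) (volume.restrict Ω) :=
    fun v => (hd.clm_apply continuousOn_const).aestronglyMeasurable hΩ.measurableSet
  have hL : ∀ v : ℂ, (∀ z, ‖fderiv ℝ h z v‖ ^ 2 ≤ dens h z) →
      MemLp (fun z => fderiv ℝ h z v) 2 (volume.restrict Ω) := by
    intro v hv
    rw [memLp_two_iff_integrable_sq_norm (hm v)]
    refine Integrable.mono' hi ((hm v).norm.pow 2) (Eventually.of_forall fun z => ?_)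
    rw [Real.norm_of_nonneg (by positivity)]
    exact hv z
  refine ⟨?_, hL 1 fun z => ?_, hL I fun z => ?_, isWeakDirDeriv_of hΩ hh 1,
    isWeakDirDeriv_of hΩ hh I⟩
  · refine MemLp.of_bound (hh.continuousOn.aestronglyMeasurable hΩ.measurableSet) C ?_
    exact (ae_restrict_iff' hΩ.measurableSet).2 (Eventually.of_forall hC)
  · unfold dens; nlinarith [sq_nonneg ‖fderiv ℝ h z I‖]
  · unfold dens; nlinarith [sq_nonneg ‖fderiv ℝ h z 1‖]

theorem energy_eq {Ω : Set ℂ} {h : ℂ → ℂ} (hi : IntegrableOn (dens h) Ω) :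
    energy Ω (fun z => fderiv ℝ h z 1) (fun z => fderiv ℝ h z I) =
      ENNReal.ofReal (∫ z in Ω, dens h z) := by
  rw [ofReal_integral_eq_lintegral_ofReal hi (Eventually.of_forall (dens_nonneg h))]
  rfl

theorem minEnergy_le_class (Ω Ω' : Set ℂ) (g : ℂ → ℂ) : minEnergy Ω Ω' ≤ classEnergy Ω Ω' g :=
  iInf_mono fun _ => iInf_mono fun _ => iInf_mono fun _ => iInf_mono fun _ => iInf_mono fun _ =>
    le_iInf fun _ => le_rfl

theorem classEnergy_le {Ω Ω' : Set ℂ} (hΩ : IsOpen Ω) (hb : Bornology.IsBounded Ω)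
    (hb' : Bornology.IsBounded Ω') {g h : ℂ → ℂ} (hho : IsHomeoOnto Ω Ω' h)
    (hh : ContDiffOn ℝ 1 h Ω) (hi : IntegrableOn (dens h) Ω) (hg : IsHomotopicIn Ω Ω' g h) :
    classEnergy Ω Ω' g ≤ ENNReal.ofReal (∫ z in Ω, dens h z) := by
  obtain ⟨C, hC⟩ := hb'.exists_norm_le
  have hC' : ∀ z ∈ Ω, ‖h z‖ ≤ C := by
    intro z hz
    obtain ⟨e, he⟩ := hho
    have := he ⟨z, hz⟩
    rw [← this]
    exact hC _ (e ⟨z, hz⟩).2
  rw [← energy_eq hi]
  unfold classEnergy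
  exact iInf_le_of_le h (iInf_le_of_le _ (iInf_le_of_le _ (iInf_le_of_le hho
    (iInf_le_of_le (isW12_of hΩ hb hh hC' hi) (iInf_le_of_le hg le_rfl)))))

/-- Real-valued form of minimality among `C^1` homeomorphisms homotopic to the map. -/
structure IsMinimal (Ω Ω' : Set ℂ) (h k : ℂ → ℂ) : Prop where
  maps : MapsTo h Ω Ω'
  maps' : MapsTo k Ω' Ω
  inv : InvOn k h Ω Ω'
  cd : ContDiffOn ℝ 1 h Ω
  cd' : ContDiffOn ℝ 1 k Ω'
  int : IntegrableOn (dens h) Ω
  le : ∀ h' : ℂ → ℂ, IsHomeoOnto Ω Ω' h' → ContDiffOn ℝ 1 h' Ω → IntegrableOn (dens h') Ω →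
    IsHomotopicIn Ω Ω' h h' → ∫ z in Ω, dens h z ≤ ∫ z in Ω, dens h' z

theorem isMinimal_of {Ω Ω' : Set ℂ} (hΩ : IsOpen Ω) (hb : Bornology.IsBounded Ω)
    (hb' : Bornology.IsBounded Ω') {h : ℂ → ℂ} (H : IsDiffeoOnto Ω Ω' h)
    (hE : energy Ω (fun z => fderiv ℝ h z 1) (fun z => fderiv ℝ h z I) ≤ classEnergy Ω Ω' h)
    (hfin : energy Ω (fun z => fderiv ℝ h z 1) (fun z => fderiv ℝ h z I) < ⊤) :
    ∃ k, IsMinimal Ω Ω' h k := by
  obtain ⟨hbij, hcd, k, hinv, hk⟩ := H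
  have hint : IntegrableOn (dens h) Ω := by
    refine ⟨(continuousOn_dens hΩ hcd).aestronglyMeasurable hΩ.measurableSet, ?_⟩
    rw [hasFiniteIntegral_iff_ofReal (Eventually.of_forall (dens_nonneg h))]
    exact hfin
  refine ⟨k, hbij.mapsTo, ?_, hinv, hcd, hk, hint, fun h' h1 h2 h3 h4 => ?_⟩
  · intro w hw
    obtain ⟨z, hz, rfl⟩ := hbij.surjOn hw
    rw [hinv.1 hz]; exact hz
  · have := hE.trans (classEnergy_le hΩ hb hb' h1 h2 h3 h4)
    rw [energy_eq hint] at this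
    exact (ENNReal.ofReal_le_ofReal_iff (integral_nonneg (dens_nonneg h'))).1 this

/-- A Lipschitz-small perturbation of the identity is a homeomorphism. -/
theorem exists_homeo_of_lipschitz {ψ : ℂ → ℂ} {c : ℝ≥0} (hc : c < 1) (hψ : LipschitzWith c ψ) :
    ∃ T : ℂ ≃ₜ ℂ, ∀ z, T z = z + ψ z := by
  have h1 : ApproximatesLinearOn (fun z => z + ψ z)
      ((ContinuousLinearEquiv.refl ℝ ℂ : ℂ ≃L[ℝ] ℂ) : ℂ →L[ℝ] ℂ) univ c := by
    intro x _ y _
    have := hψ.dist_le_mul x y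
    rw [dist_eq_norm, dist_eq_norm] at this
    have e : x + ψ x - (y + ψ y) -
        ((ContinuousLinearEquiv.refl ℝ ℂ : ℂ ≃L[ℝ] ℂ) : ℂ →L[ℝ] ℂ) (x - y) = ψ x - ψ y := by
      simp
      ring
    rw [e]
    exact this
  refine ⟨h1.toHomeomorph _ (Or.inr ?_), fun z => rfl⟩
  simpa using hc

/-- A `C^1` function with compact support is Lipschitz with the bound of its derivative. -/
theorem exists_fderiv_bound {ψ : ℂ → ℂ} (hψ : ContDiff ℝ 1 ψ) (hc : HasCompactSupport ψ) :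
    ∃ M : ℝ, 0 < M ∧ ∀ z, ‖fderiv ℝ ψ z‖ ≤ M := by
  obtain ⟨M, hM⟩ := (hψ.continuous_fderiv one_ne_zero).bounded_above_of_compact_support
    (hc.fderiv ℝ)
  exact ⟨max M 1, by positivity, fun z => (hM z).trans (le_max_left _ _)⟩

theorem lipschitz_of_fderiv_bound {ψ : ℂ → ℂ} (hψ : Differentiable ℝ ψ) {c : ℝ≥0}
    (hc : ∀ z, ‖fderiv ℝ ψ z‖ ≤ c) : LipschitzWith c ψ :=
  lipschitzWith_of_nnnorm_fderiv_le hψ fun z => by exact_mod_cast hc z

/-- If `0 ≤ a t + b t^2` for all small `t`, then `a = 0`. -/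
theorem eq_zero_of_quadratic {a b δ : ℝ} (hδ : 0 < δ)
    (h : ∀ t : ℝ, |t| < δ → 0 ≤ a * t + b * t ^ 2) : a = 0 := by
  by_contra ha
  set B := |b| + 1 with hB
  have hBpos : 0 < B := by positivity
  set s := min (δ / 2) (|a| / (2 * B)) with hs
  have hapos : 0 < |a| := abs_pos.2 ha
  have hspos : 0 < s := by positivity
  have hs1 : s < δ := lt_of_le_of_lt (min_le_left _ _) (by linarith)
  have hs2 : s * (2 * B) ≤ |a| := by
    have := min_le_right (δ / 2) (|a| / (2 * B))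
    rw [← hs, le_div_iff₀ (by positivity)] at this
    exact this
  have hb : b ≤ B := by have := le_abs_self b; linarith
  have h1 := h s (by rwa [abs_of_pos hspos])
  have h2 := h (-s) (by rwa [abs_neg, abs_of_pos hspos])
  have h3 : |a| * s ≤ b * s ^ 2 := by
    rcases abs_cases a with ⟨h, _⟩ | ⟨h, _⟩ <;> rw [h] <;> nlinarith
  have h4 : b * s ^ 2 ≤ B * s ^ 2 := by gcongr
  nlinarith

end Pool.Agent.Lib.MP_e277cf_an
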