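import Mathlib

/-!
Definitions for the problem on energy-minimal diffeomorphisms between multiply connected domains.
-/

open MeasureTheory Set Metric Complex
open scoped ENNReal ContDiff

noncomputable section

namespace Pool.Agent.Lib.MP_e277cf_an

/-- `Ω` is a `k`-connected domain: an open connected subset of `ℂ` whose complement in the
Riemann sphere `OnePoint ℂ` has exactly `k` connected components. -/
def IsKConnectedDomain (k : ℕ) (Ω : Set ℂ) : Prop :=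
  IsOpen Ω ∧ IsConnected Ω ∧
    Nat.card (ConnectedComponents ↥(((fun z : ℂ => (z : OnePoint ℂ)) '' Ω)ᶜ)) = k

/-- The inclusion map `Ω → Ω'` is a homotopy equivalence. -/
def InclusionIsHomotopyEquiv (Ω Ω' : Set ℂ) : Prop :=
  ∃ e : ContinuousMap.HomotopyEquiv Ω Ω', ∀ z : Ω, (e.toFun z : ℂ) = z

/-- `g` is the weak (distributional) derivative of `h` in the direction `v` on `Ω`. -/
def IsWeakDirDeriv (Ω : Set ℂ) (h g : ℂ → ℂ) (v : ℂ) : Prop :=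
  ∀ φ : ℂ → ℝ, ContDiff ℝ ∞ φ → HasCompactSupport φ → tsupport φ ⊆ Ω →
    ∫ z in Ω, (fderiv ℝ φ z v) • h z = -∫ z in Ω, φ z • g z

/-- `h` lies in the Sobolev class `W^{1,2}(Ω)`, with weak derivatives `hx` in the real direction
and `hy` in the imaginary direction. -/
def IsW12 (Ω : Set ℂ) (h hx hy : ℂ → ℂ) : Prop :=
  MemLp h 2 (volume.restrict Ω) ∧ MemLp hx 2 (volume.restrict Ω) ∧
    MemLp hy 2 (volume.restrict Ω) ∧ IsWeakDirDeriv Ω h hx 1 ∧ IsWeakDirDeriv Ω h hy I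

/-- The Dirichlet energy, the integral over `Ω` of the squared Hilbert-Schmidt norm
`|hx|^2 + |hy|^2` of the differential. -/
def energy (Ω : Set ℂ) (hx hy : ℂ → ℂ) : ℝ≥0∞ :=
  ∫⁻ z in Ω, ENNReal.ofReal (‖hx z‖ ^ 2 + ‖hy z‖ ^ 2)

/-- `h` restricts to a homeomorphism of `Ω` onto `Ω'`. -/
def IsHomeoOnto (Ω Ω' : Set ℂ) (h : ℂ → ℂ) : Prop :=
  ∃ e : Ω ≃ₜ Ω', ∀ z : Ω, (e z : ℂ) = h z

/-- The infimum of the Dirichlet energy over all `W^{1,2}` homeomorphisms of `Ω` onto `Ω'`. -/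
def minEnergy (Ω Ω' : Set ℂ) : ℝ≥0∞ :=
  ⨅ (h : ℂ → ℂ) (hx : ℂ → ℂ) (hy : ℂ → ℂ) (_ : IsHomeoOnto Ω Ω' h) (_ : IsW12 Ω h hx hy),
    energy Ω hx hy

/-- `g` and `h` are homotopic as maps of `Ω` into `Ω'`. -/
def IsHomotopicIn (Ω Ω' : Set ℂ) (g h : ℂ → ℂ) : Prop :=
  ∃ F : ℝ × ℂ → ℂ, ContinuousOn F (Icc 0 1 ×ˢ Ω) ∧ MapsTo F (Icc 0 1 ×ˢ Ω) Ω' ∧
    (∀ z ∈ Ω, F (0, z) = g z) ∧ ∀ z ∈ Ω, F (1, z) = h z

/-- The infimum of the Dirichlet energy over the `W^{1,2}` homeomorphisms of `Ω` onto `Ω'` that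
are homotopic to `g`. -/
def classEnergy (Ω Ω' : Set ℂ) (g : ℂ → ℂ) : ℝ≥0∞ :=
  ⨅ (h : ℂ → ℂ) (hx : ℂ → ℂ) (hy : ℂ → ℂ) (_ : IsHomeoOnto Ω Ω' h) (_ : IsW12 Ω h hx hy)
    (_ : IsHomotopicIn Ω Ω' g h), energy Ω hx hy

/-- `h` restricts to a `C^1` diffeomorphism of `Ω` onto `Ω'`: a bijection of class `C^1` whose
inverse is of class `C^1`. -/
def IsDiffeoOnto (Ω Ω' : Set ℂ) (h : ℂ → ℂ) : Prop :=
  BijOn h Ω Ω' ∧ ContDiffOn ℝ 1 h Ω ∧ ∃ k : ℂ → ℂ, InvOn k h Ω Ω' ∧ ContDiffOn ℝ 1 k Ω'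

/-- `h` is an energy-minimal diffeomorphism of `Ω` onto `Ω'`. -/
def IsEnergyMinimalDiffeo (Ω Ω' : Set ℂ) (h : ℂ → ℂ) : Prop :=
  IsDiffeoOnto Ω Ω' h ∧
    energy Ω (fun z => fderiv ℝ h z 1) (fun z => fderiv ℝ h z I) = minEnergy Ω Ω' ∧
    minEnergy Ω Ω' < ⊤

/-- The disc of radius `R` about `0` with the closed discs of radius `ε` about `0` and `1/4`
removed. -/
def circleDomain (R ε : ℝ) : Set ℂ :=
  ball 0 R \ (closedBall 0 ε ∪ closedBall (1 / 4) ε)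

end Pool.Agent.Lib.MP_e277cf_an
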