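import Pool.Agent.Lib.MP_e277cf_an.Topo
import Pool.Agent.Lib.MP_e277cf_an.Compet

/-!
The circle domains are `3`-connected; the radial stretch of the outer part.
-/

open MeasureTheory Set Metric Complex Filter Topology
open scoped ComplexConjugate OnePoint

noncomputable section

namespace Pool.Agent.Lib.MP_e277cf_an

theorem isConnected_circleDomain {R ε : ℝ} (hR : 1 ≤ R) (hε0 : 0 ≤ ε) (hε : ε ≤ 1 / 32) :
    IsConnected (circleDomain R ε) := by
  set A : Set ℂ := {z | 1 / 2 < ‖z - 0‖ ∧ ‖z - 0‖ < R} with hA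
  have hAc : IsPreconnected A := isPreconnected_annulus 0 (by norm_num)
  have hAs : A ⊆ circleDomain R ε := by
    intro z hz
    simp only [hA, mem_ofPred_eq, sub_zero] at hz
    have := tri2 z
    exact mem_circleDomain.2 ⟨hz.2, by linarith [hz.1], by linarith [hz.1]⟩
  have h34 : ((3 / 4 : ℝ) : ℂ) ∈ A := by
    simp only [hA, mem_ofPred_eq, sub_zero, norm_real]
    norm_num
    linarith
  refine ⟨⟨_, hAs h34⟩, isPreconnected_of_forall ((3 / 4 : ℝ) : ℂ) fun z hz => ?_⟩
  by_cases h1 : 1 / 2 < ‖z‖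
  · exact ⟨A, hAs, h34, by simpa [hA] using ⟨by simpa using h1, (mem_circleDomain.1 hz).1⟩, hAc⟩
  push Not at h1
  obtain ⟨σ, hσ1, hσ2⟩ : ∃ σ : ℝ, σ ^ 2 = 1 ∧ 0 ≤ σ * z.im := by
    rcases le_total 0 z.im with h | h
    · exact ⟨1, by norm_num, by linarith⟩
    · exact ⟨-1, by norm_num, by linarith⟩
  obtain ⟨_, hz2, hz3⟩ := mem_circleDomain.1 hz
  set γ : ℝ → ℂ := fun t => z + ((σ * t : ℝ) : ℂ) * I with hγ
  have hsq : ∀ (t : ℝ) (c : ℝ), ‖γ t - c‖ ^ 2 = ‖z - c‖ ^ 2 + 2 * t * (σ * z.im) + t ^ 2 := by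
    intro t c
    simp only [hγ, Complex.sq_norm, normSq_apply]
    simp
    linear_combination t ^ 2 * hσ1
  have hge : ∀ t, 0 ≤ t → ∀ c : ℝ, ‖z - c‖ ≤ ‖γ t - c‖ := by
    intro t ht c
    refine (sq_le_sq₀ (norm_nonneg _) (norm_nonneg _)).1 ?_
    rw [hsq]
    nlinarith [mul_nonneg ht hσ2]
  have him : σ * z.im ≤ 1 / 2 := by
    have a1 : |z.im| ≤ 1 / 2 := (abs_im_le_norm z).trans h1
    have a2 : (σ * z.im) ^ 2 = z.im ^ 2 := by rw [mul_pow, hσ1, one_mul]
    have a3 : z.im ^ 2 ≤ (1 / 2) ^ 2 := by rw [← sq_abs]; gcongr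
    nlinarith
  have hre : ‖z‖ ^ 2 = z.re ^ 2 + (σ * z.im) ^ 2 := by
    rw [mul_pow, hσ1, Complex.sq_norm, normSq_apply]; ring
  have hre2 : z.re ^ 2 ≤ 1 / 4 := by nlinarith [norm_nonneg z, sq_nonneg (σ * z.im)]
  set T := 3 / 5 - σ * z.im with hT
  have hT0 : 0 ≤ T := by linarith
  have hn : ∀ t, ‖γ t‖ ^ 2 = z.re ^ 2 + (σ * z.im + t) ^ 2 := by
    intro t
    have := hsq t 0
    simp only [ofReal_zero, sub_zero] at this
    rw [this, hre]; ring
  have hγs : γ '' Icc 0 T ⊆ circleDomain R ε := by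
    rintro _ ⟨t, ht, rfl⟩
    have b1 := hge t ht.1 0
    have b2 := hge t ht.1 (1 / 4)
    simp only [ofReal_zero, sub_zero] at b1
    push_cast at b2
    refine mem_circleDomain.2 ⟨?_, by linarith, by linarith⟩
    refine lt_of_lt_of_le ?_ hR
    refine lt_of_pow_lt_pow_left₀ 2 zero_le_one ?_
    rw [hn]
    have c1 : 0 ≤ σ * z.im + t := by linarith [ht.1]
    have c2 : σ * z.im + t ≤ 3 / 5 := by linarith [ht.2]
    nlinarith
  have hγT : γ T ∈ A := by
    simp only [hA, mem_ofPred_eq, sub_zero]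
    refine ⟨?_, (mem_circleDomain.1 (hγs ⟨T, ⟨hT0, le_rfl⟩, rfl⟩)).1⟩
    refine lt_of_pow_lt_pow_left₀ 2 (norm_nonneg _) ?_
    rw [hn, hT]
    nlinarith [sq_nonneg z.re]
  refine ⟨A ∪ γ '' Icc 0 T, union_subset hAs hγs, Or.inl h34,
    Or.inr ⟨0, ⟨le_rfl, hT0⟩, by simp [hγ]⟩, ?_⟩
  refine hAc.union (γ T) hγT ⟨T, ⟨hT0, le_rfl⟩, rfl⟩ (isPreconnected_Icc.image _ ?_)
  rw [hγ]; fun_prop

theorem isPreconnected_exterior {R : ℝ} (hR : 0 ≤ R) : IsPreconnected {z : ℂ | R ≤ ‖z‖} := by
  have : {z : ℂ | R ≤ ‖z‖} = (fun p : ℝ × ℝ => circleMap 0 p.1 p.2) '' (Ici R ×ˢ univ) := by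
    ext z
    constructor
    · intro hz
      refine ⟨(‖z‖, arg z), ⟨hz, mem_univ _⟩, ?_⟩
      simp only [circleMap]
      rw [norm_mul_exp_arg_mul_I]; ring
    · rintro ⟨p, ⟨hp, _⟩, rfl⟩
      have h0 : 0 ≤ p.1 := hR.trans hp
      simp only [mem_ofPred_eq, norm_circleMap_zero, abs_of_nonneg h0]
      exact hp
  rw [this]
  exact (isPreconnected_Ici.prod isPreconnected_univ).image _ (by fun_prop)

theorem card_components {Y : Type} [TopologicalSpace Y] {X : Set Y} (A : Fin 3 → Set Y)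
    (hc : ∀ i, IsClosed (A i)) (hcon : ∀ i, IsConnected (A i))
    (hd : Pairwise (Function.onFun Disjoint A)) (hu : ⋃ i, A i = X) :
    Nat.card (ConnectedComponents X) = 3 := by
  set U : Fin 3 → Set X := fun i => Subtype.val ⁻¹' A i with hU
  have hsub : ∀ i, A i ⊆ X := fun i => hu ▸ subset_iUnion A i
  have hUc : ∀ i, IsClosed (U i) := fun i => (hc i).preimage continuous_subtype_val
  have hUd : Pairwise (Function.onFun Disjoint U) := fun i j hij => (hd hij).preimage _
  have hUu : ⋃ i, U i = univ := by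
    rw [hU, ← preimage_iUnion, hu]
    ext x; simp
  have hclopen : ∀ i, IsClopen (U i) := by
    intro i
    refine ⟨hUc i, ?_⟩
    have : U i = (⋃ j ∈ {j | j ≠ i}, U j)ᶜ := by
      ext x
      simp only [mem_compl_iff, mem_iUnion, mem_ofPred_eq, not_exists]
      constructor
      · intro hx j hj hx'
        exact Set.disjoint_left.1 (hUd hj) hx' hx
      · intro hx
        obtain ⟨j, hj⟩ := mem_iUnion.1 (hUu ▸ mem_univ x : x ∈ ⋃ i, U i)
        by_cases e : j = i
        · rwa [← e]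
        · exact absurd hj (hx j e)
    rw [this]
    exact ((Set.toFinite _).isClosed_biUnion fun j _ => hUc j).isOpen_compl
  have hUcon : ∀ i, IsConnected (U i) := by
    intro i
    have e : Subtype.val '' U i = A i := by
      rw [hU, image_preimage_eq_inter_range, Subtype.range_coe, inter_eq_left.2 (hsub i)]
    refine ⟨?_, ?_⟩
    · obtain ⟨y, hy⟩ := (hcon i).nonempty
      exact ⟨⟨y, hsub i hy⟩, hy⟩
    · rw [← Topology.IsInducing.subtypeVal.isPreconnected_image, e]
      exact (hcon i).isPreconnected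
  rw [Nat.card_congr (ConnectedComponents.equivOfIsClopenOfIsConnected hclopen hUd hUu hUcon)]
  simp

theorem isKConnected_circleDomain {R ε : ℝ} (hR : 1 ≤ R) (hε0 : 0 ≤ ε) (hε : ε ≤ 1 / 32) :
    IsKConnectedDomain 3 (circleDomain R ε) := by
  refine ⟨isOpen_circleDomain R ε, isConnected_circleDomain hR hε0 hε, ?_⟩
  set c : ℂ → OnePoint ℂ := fun z => (z : OnePoint ℂ) with hc
  have hcc : Continuous c := OnePoint.continuous_coe
  have hci : Function.Injective c := OnePoint.coe_injective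
  set E : Set ℂ := {z | R ≤ ‖z‖} with hE
  have hball : ∀ p : ℂ, IsClosed (c '' closedBall p ε) ∧ IsConnected (c '' closedBall p ε) :=
    fun p => ⟨((isCompact_closedBall p ε).image hcc).isClosed,
      ((convex_closedBall p ε).isConnected (nonempty_closedBall.2 hε0)).image _ hcc.continuousOn⟩
  have hEc : IsClosed (insert ∞ (c '' E)) := by
    rw [OnePoint.isClosed_iff_of_mem (mem_insert _ _)]
    have : ((↑) : ℂ → OnePoint ℂ) ⁻¹' (insert ∞ (c '' E)) = E := by
      ext z
      simp [hc]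
    rw [this]
    exact isClosed_le continuous_const continuous_norm
  have hEcon : IsConnected (insert ∞ (c '' E)) := by
    refine ⟨insert_nonempty _ _, ?_⟩
    refine ((isPreconnected_exterior (by linarith : (0 : ℝ) ≤ R)).image c
      hcc.continuousOn).subset_closure (subset_insert _ _) (insert_subset ?_ subset_closure)
    have h1 : Tendsto (fun x : ℝ => c x) atTop (𝓝 ∞) := by
      refine OnePoint.tendsto_coe_infty.comp ?_
      rw [coclosedCompact_eq_cocompact, ← cobounded_eq_cocompact,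
        ← tendsto_norm_atTop_iff_cobounded]
      simpa using tendsto_abs_atTop_atTop
    refine mem_closure_of_tendsto h1 ?_
    filter_upwards [eventually_ge_atTop R] with x hx
    refine ⟨x, ?_, rfl⟩
    simp only [mem_ofPred_eq, norm_real, Real.norm_eq_abs]
    exact hx.trans (le_abs_self x)
  have d01 : Disjoint (c '' closedBall 0 ε) (c '' closedBall (1 / 4) ε) := by
    rw [Set.disjoint_image_iff hci, Set.disjoint_left]
    intro z h1 h2
    rw [mem_closedBall, dist_eq_norm] at h1 h2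
    rw [sub_zero] at h1
    linarith [tri1 z]
  have d2 : ∀ p : ℂ, ‖p‖ ≤ 1 / 4 → Disjoint (c '' closedBall p ε) (insert ∞ (c '' E)) := by
    intro p hp
    rw [Set.disjoint_insert_right, Set.disjoint_image_iff hci, Set.disjoint_left]
    refine ⟨OnePoint.infty_notMem_image_coe, fun z h1 h2 => ?_⟩
    rw [mem_closedBall, dist_eq_norm] at h1
    have := norm_add_le (z - p) p
    rw [sub_add_cancel] at this
    have h3 : R ≤ ‖z‖ := h2
    linarith
  refine card_components ![c '' closedBall 0 ε, c '' closedBall (1 / 4) ε, insert ∞ (c '' E)]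
    (fun i => ?_) (fun i => ?_) (fun i j hij => ?_) ?_
  · fin_cases i
    exacts [(hball _).1, (hball _).1, hEc]
  · fin_cases i
    exacts [(hball _).2, (hball _).2, hEcon]
  · fin_cases i <;> fin_cases j
    · exact absurd rfl hij
    · exact d01
    · exact d2 0 (by simp)
    · exact d01.symm
    · exact absurd rfl hij
    · exact d2 _ norm_quarter.le
    · exact (d2 0 (by simp)).symm
    · exact (d2 _ norm_quarter.le).symm
    · exact absurd rfl hij
  · ext x
    simp only [mem_iUnion, Fin.exists_fin_succ, Matrix.cons_val_zero, Matrix.cons_val_succ,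
      IsEmpty.exists_iff, or_false]
    induction x using OnePoint.rec with
    | infty => simp [hc]
    | coe z =>
      have e : ∀ s : Set ℂ, (z : OnePoint ℂ) ∈ c '' s ↔ z ∈ s := fun s => hci.mem_set_image
      rw [mem_compl_iff, mem_insert_iff, e, e, e, e, mem_circleDomain]
      simp only [mem_closedBall, dist_eq_norm, sub_zero, OnePoint.coe_ne_infty, false_or, hE,
        mem_ofPred_eq, not_and_or, not_lt]
      tauto

theorem mem_of_half {R ε : ℝ} (hε : ε ≤ 1 / 32) {w : ℂ} (h1 : 1 / 2 < ‖w‖) (h2 : ‖w‖ < R) :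
    w ∈ circleDomain R ε := by
  have := tri2 w
  exact mem_circleDomain.2 ⟨h2, by linarith, by linarith⟩

/-- The radial stretch factor. -/
def stretchFac (s : ℝ) : ℝ := 1 + Real.smoothTransition ((s - 1 / 4) * (4 / 3))

theorem one_le_stretchFac (s : ℝ) : 1 ≤ stretchFac s := by
  have := Real.smoothTransition.nonneg ((s - 1 / 4) * (4 / 3))
  unfold stretchFac; linarith

theorem stretchFac_le (s : ℝ) : stretchFac s ≤ 2 := by
  have := Real.smoothTransition.le_one ((s - 1 / 4) * (4 / 3))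
  unfold stretchFac; linarith

theorem stretchFac_mono : Monotone stretchFac := fun a b hab => by
  unfold stretchFac
  have := Real.smoothTransition.monotone (show (a - 1 / 4) * (4 / 3) ≤ (b - 1 / 4) * (4 / 3) by
    linarith)
  linarith

theorem stretchFac_of_le {s : ℝ} (hs : s ≤ 1 / 4) : stretchFac s = 1 := by
  rw [stretchFac, Real.smoothTransition.zero_of_nonpos (by linarith), add_zero]

theorem stretchFac_one : stretchFac 1 = 2 := by
  rw [stretchFac, Real.smoothTransition.one_of_one_le (by norm_num)]; norm_num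

theorem contDiff_stretchFac : ContDiff ℝ 1 stretchFac := by
  unfold stretchFac
  exact contDiff_const.add ((Real.smoothTransition.contDiff (n := 1)).comp (by fun_prop))

/-- The radial stretch. -/
def stretch (z : ℂ) : ℂ := (stretchFac (‖z‖ ^ 2) : ℂ) * z

theorem contDiff_stretch : ContDiff ℝ 1 stretch := by
  unfold stretch
  exact (ofRealCLM.contDiff.comp (contDiff_stretchFac.comp (contDiff_norm_sq ℝ))).mul contDiff_id

theorem norm_stretch (z : ℂ) : ‖stretch z‖ = stretchFac (‖z‖ ^ 2) * ‖z‖ := by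
  rw [stretch, norm_mul, norm_real, Real.norm_of_nonneg (by linarith [one_le_stretchFac (‖z‖ ^ 2)])]

theorem stretch_strictMono {a b : ℝ} (ha : 0 ≤ a) (hab : a < b) :
    stretchFac (a ^ 2) * a < stretchFac (b ^ 2) * b := by
  have h1 : stretchFac (a ^ 2) ≤ stretchFac (b ^ 2) := stretchFac_mono (by gcongr)
  have h2 := one_le_stretchFac (b ^ 2)
  nlinarith

theorem stretch_injective : Function.Injective stretch := by
  intro z w h
  have h1 : ‖z‖ = ‖w‖ := by
    have := congrArg norm h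
    rw [norm_stretch, norm_stretch] at this
    rcases lt_trichotomy ‖z‖ ‖w‖ with h2 | h2 | h2
    · exact absurd this (stretch_strictMono (norm_nonneg _) h2).ne
    · exact h2
    · exact absurd this (stretch_strictMono (norm_nonneg _) h2).ne'
  rw [stretch, stretch, h1] at h
  refine mul_left_cancel₀ ?_ h
  exact_mod_cast (by linarith [one_le_stretchFac (‖w‖ ^ 2)] : stretchFac (‖w‖ ^ 2) ≠ 0)

theorem stretch_of_le {z : ℂ} (hz : ‖z‖ ≤ 1 / 2) : stretch z = z := by
  rw [stretch, stretchFac_of_le (by nlinarith [norm_nonneg z])]; simp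

theorem stretch_mem_iff {ε : ℝ} (hε : ε ≤ 1 / 32) {z : ℂ} :
    stretch z ∈ circleDomain 2 ε ↔ z ∈ circleDomain 1 ε := by
  rcases le_or_gt ‖z‖ (1 / 2) with h | h
  · rw [stretch_of_le h, mem_circleDomain, mem_circleDomain]
    exact ⟨fun H => ⟨by linarith, H.2⟩, fun H => ⟨by linarith, H.2⟩⟩
  · have h1 := one_le_stretchFac (‖z‖ ^ 2)
    have h2 := stretchFac_le (‖z‖ ^ 2)
    constructor
    · intro H
      refine mem_of_half hε h ?_
      have := (mem_circleDomain.1 H).1
      rw [norm_stretch] at this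
      by_contra h3
      push Not at h3
      have h4 : stretchFac 1 ≤ stretchFac (‖z‖ ^ 2) := stretchFac_mono (by nlinarith)
      rw [stretchFac_one] at h4
      nlinarith
    · intro H
      have := (mem_circleDomain.1 H).1
      refine mem_of_half hε ?_ ?_ <;> rw [norm_stretch] <;> nlinarith

theorem stretch_surj {w : ℂ} (hw : ‖w‖ < 2) : ∃ z, ‖z‖ ≤ 1 ∧ stretch z = w := by
  by_cases h0 : w = 0
  · exact ⟨0, by simp, by simp [stretch, h0]⟩
  have hw0 : 0 < ‖w‖ := norm_pos_iff.2 h0
  have hc : ContinuousOn (fun r : ℝ => stretchFac (r ^ 2) * r) (Icc 0 1) :=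
    ((contDiff_stretchFac.continuous.comp (continuous_pow 2)).mul continuous_id).continuousOn
  obtain ⟨r, hr, e⟩ := intermediate_value_Icc zero_le_one hc
    (show ‖w‖ ∈ Icc _ _ from ⟨by simp, by simp [stretchFac_one, hw.le]⟩)
  have hn : ‖((r / ‖w‖ : ℝ) : ℂ) * w‖ = r := by
    rw [norm_mul, norm_real, Real.norm_of_nonneg (div_nonneg hr.1 hw0.le)]
    field_simp
  refine ⟨((r / ‖w‖ : ℝ) : ℂ) * w, hn.symm ▸ hr.2, ?_⟩
  rw [stretch, hn, ← mul_assoc, ← ofReal_mul, ← mul_div_assoc]
  simp only at e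
  rw [e, div_self hw0.ne']
  simp

end Pool.Agent.Lib.MP_e277cf_an
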