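import Pool.Agent.Lib.MP_e277cf_an.Topo

/-!
Consequences of the correspondence of ends when small circles have small images.
-/

open Set Metric Complex Filter Topology
open scoped ComplexConjugate

noncomputable section

namespace Pool.Agent.Lib.MP_e277cf_an

/-- The two centres in some order. -/
def Pair (p p' : ℂ) : Prop := (p = 0 ∧ p' = 1 / 4) ∨ (p = 1 / 4 ∧ p' = 0)

theorem Pair.symm {p p' : ℂ} (h : Pair p p') : Pair p' p := by
  unfold Pair at *; tauto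

theorem Pair.mem_iff {p p' : ℂ} (h : Pair p p') {R ε : ℝ} {z : ℂ} :
    z ∈ circleDomain R ε ↔ ‖z‖ < R ∧ ε < ‖z - p‖ ∧ ε < ‖z - p'‖ := by
  rw [mem_circleDomain]
  rcases h with ⟨rfl, rfl⟩ | ⟨rfl, rfl⟩
  · simp only [sub_zero]
  · simp only [sub_zero]; tauto

theorem Pair.norm_sub {p p' : ℂ} (h : Pair p p') : ‖p - p'‖ = 1 / 4 := by
  rcases h with ⟨rfl, rfl⟩ | ⟨rfl, rfl⟩ <;> simp

theorem Pair.norm_le {p p' : ℂ} (h : Pair p p') : ‖p‖ ≤ 1 / 4 := by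
  rcases h with ⟨rfl, rfl⟩ | ⟨rfl, rfl⟩ <;> simp

theorem Pair.tri {p p' : ℂ} (h : Pair p p') (z : ℂ) : 1 / 4 ≤ ‖z - p‖ + ‖z - p'‖ := by
  have := norm_sub_le (z - p') (z - p)
  rw [sub_sub_sub_cancel_left, h.norm_sub] at this
  linarith

theorem Pair.tri' {p p' : ℂ} (h : Pair p p') (z : ℂ) : ‖z‖ ≤ ‖z - p‖ + 1 / 4 := by
  have := norm_add_le (z - p) p
  rw [sub_add_cancel] at this
  linarith [h.norm_le]

/-- The hole at `p` goes to the hole at `q`. -/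
def HH (ε : ℝ) (h : ℂ → ℂ) (p q : ℂ) : Prop :=
  ∀ η > 0, ∃ s > 0, ∀ z ∈ circleDomain 1 ε, ‖z - p‖ < ε + s → ‖h z - q‖ < ε + η

/-- The outer end goes to the hole at `q`. -/
def OH (ε : ℝ) (h : ℂ → ℂ) (q : ℂ) : Prop :=
  ∀ η > 0, ∃ s > 0, ∀ z ∈ circleDomain 1 ε, 1 - s < ‖z‖ → ‖h z - q‖ < ε + η

/-- The outer end goes to the outer end. -/
def OO (ε : ℝ) (h : ℂ → ℂ) : Prop :=
  ∀ η > 0, ∃ s > 0, ∀ z ∈ circleDomain 1 ε, 1 - s < ‖z‖ → 2 - η < ‖h z‖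

theorem cont_ns (p : ℂ) : Continuous (fun z : ℂ => ‖z - p‖) := by fun_prop

/-- A compact region. -/
def reg (p p' : ℂ) (r ρ R : ℝ) : Set ℂ := {z | ‖z‖ ≤ R ∧ r ≤ ‖z - p‖ ∧ ρ ≤ ‖z - p'‖}

theorem isCompact_reg (p p' : ℂ) (r ρ R : ℝ) : IsCompact (reg p p' r ρ R) := by
  refine isCompact_of_isClosed_isBounded ?_ ?_
  · exact (isClosed_le continuous_norm continuous_const).inter
      ((isClosed_le continuous_const (cont_ns p)).inter
        (isClosed_le continuous_const (cont_ns p')))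
  · exact (isBounded_closedBall (x := (0 : ℂ)) (r := R)).subset fun w hw =>
      mem_closedBall_zero_iff.2 hw.1

theorem reg_mem_nhds {p p' : ℂ} {r ρ R : ℝ} {z : ℂ} (h1 : ‖z‖ < R) (h2 : r < ‖z - p‖)
    (h3 : ρ < ‖z - p'‖) : reg p p' r ρ R ∈ 𝓝 z := by
  have : {z : ℂ | ‖z‖ < R ∧ r < ‖z - p‖ ∧ ρ < ‖z - p'‖} ∈ 𝓝 z :=
    ((isOpen_lt continuous_norm continuous_const).inter
      ((isOpen_lt continuous_const (cont_ns p)).inter
        (isOpen_lt continuous_const (cont_ns p')))).mem_nhds ⟨h1, h2, h3⟩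
  exact mem_of_superset this fun z hz => ⟨hz.1.le, hz.2.1.le, hz.2.2.le⟩

theorem reg_subset {p p' : ℂ} (hp : Pair p p') {ε r ρ R : ℝ} (h1 : R < 1) (h2 : ε < r)
    (h3 : ε < ρ) : reg p p' r ρ R ⊆ circleDomain 1 ε := fun _ hz =>
  hp.mem_iff.2 ⟨hz.1.trans_lt h1, h2.trans_le hz.2.1, h3.trans_le hz.2.2⟩

theorem re_sub_abs_le (a b : ℂ) : |a.re - b.re| ≤ ‖a - b‖ := by
  rw [← sub_re]; exact abs_re_le_norm _

theorem segment_ofReal {a b : ℝ} (hab : a ≤ b) {z : ℂ} (hz : z ∈ segment ℝ (a : ℂ) (b : ℂ)) :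
    ∃ x : ℝ, a ≤ x ∧ x ≤ b ∧ z = x := by
  obtain ⟨s, t, hs, ht, hst, rfl⟩ := hz
  refine ⟨s * a + t * b, ?_, ?_, by simp⟩
  · have : a = s * a + t * a := by rw [← add_mul, hst, one_mul]
    nlinarith
  · have : b = s * b + t * b := by rw [← add_mul, hst, one_mul]
    nlinarith

theorem not_hole_outer {ε ε' r : ℝ} {h k : ℂ → ℂ} (H : Hom 1 2 ε ε' h k) (hε0 : 0 ≤ ε)
    (hε : ε ≤ 1 / 32)
    {p p' q q' y : ℂ} (hp : Pair p p') (hq : Pair q q') (h1 : HH ε h p' q) (h2 : OH ε h q')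
    (hr1 : ε < r) (hr2 : r ≤ 1 / 16) (hc : ∀ z, ‖z - p‖ = r → ‖h z - y‖ < 1 / 24) : False := by
  obtain ⟨s₁, hs₁, H₁⟩ := h1 (1 / 32) (by norm_num)
  obtain ⟨s₂, hs₂, H₂⟩ := h2 (1 / 32) (by norm_num)
  set s := min (min s₁ s₂) (1 / 16) / 2 with hs
  have hs0 : 0 < s := by positivity
  have hm := min_le_left (min s₁ s₂) (1 / 16)
  have hm' := min_le_right (min s₁ s₂) (1 / 16)
  have hss₁ : s < s₁ := by have := min_le_left s₁ s₂; linarith
  have hss₂ : s < s₂ := by have := min_le_right s₁ s₂; linarith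
  have hs32 : s ≤ 1 / 32 := by linarith
  set S := reg p p' r (ε + s) (1 - s) with hS
  have hSΩ : S ⊆ circleDomain 1 ε := reg_subset hp (by linarith) hr1 (by linarith)
  obtain ⟨t, ht1, ht2, ht3⟩ : ∃ t : ℝ, 1 / 12 ≤ t ∧ t ≤ 1 / 6 ∧ 1 / 24 ≤ |t - y.re| := by
    rcases le_total y.re (1 / 8) with h | h
    · exact ⟨1 / 6, by norm_num, le_rfl, le_abs.2 (Or.inl (by linarith))⟩
    · exact ⟨1 / 12, le_rfl, by norm_num, le_abs.2 (Or.inr (by linarith))⟩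
  have hA : ∀ z ∈ S, ‖z - p'‖ = ε + s → |(h z).re - q.re| < 1 / 16 := fun z hz e =>
    (re_sub_abs_le _ _).trans_lt ((H₁ z (hSΩ hz) (by linarith)).trans_le (by linarith))
  have hB : ∀ z ∈ S, ‖z‖ = 1 - s → |(h z).re - q'.re| < 1 / 16 := fun z hz e =>
    (re_sub_abs_le _ _).trans_lt ((H₂ z (hSΩ hz) (by linarith)).trans_le (by linarith))
  have hqre : (q.re = 0 ∧ q'.re = 1 / 4) ∨ (q.re = 1 / 4 ∧ q'.re = 0) := by
    rcases hq with ⟨rfl, rfl⟩ | ⟨rfl, rfl⟩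
    · left; norm_num
    · right; norm_num
  have hb : ∀ z ∈ S, (conj 1 * h z).re = t → S ∈ 𝓝 z := by
    intro z hz e
    rw [map_one, one_mul] at e
    refine reg_mem_nhds (lt_of_le_of_ne hz.1 fun e' => ?_) (lt_of_le_of_ne hz.2.1 fun e' => ?_)
      (lt_of_le_of_ne hz.2.2 fun e' => ?_)
    · have := abs_lt.1 (hB z hz e')
      rcases hqre with ⟨_, e2⟩ | ⟨_, e2⟩ <;> linarith [this.1, this.2]
    · have := (re_sub_abs_le _ _).trans_lt (hc z e'.symm)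
      rw [e] at this
      linarith
    · have := abs_lt.1 (hA z hz e'.symm)
      rcases hqre with ⟨e2, _⟩ | ⟨e2, _⟩ <;> linarith [this.1, this.2]
  obtain ⟨z₁, z₂, hseg, e1, e2⟩ : ∃ z₁ z₂ : ℂ, segment ℝ z₁ z₂ ⊆ S ∧ ‖z₁ - p'‖ = ε + s ∧
      ‖z₂‖ = 1 - s := by
    rcases hp with ⟨rfl, rfl⟩ | ⟨rfl, rfl⟩
    · refine ⟨((1 / 4 + ε + s : ℝ) : ℂ), ((1 - s : ℝ) : ℂ), fun z hz => ?_, ?_, ?_⟩
      · obtain ⟨x, hx1, hx2, rfl⟩ := segment_ofReal (by linarith) hz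
        have e : (x : ℂ) - 1 / 4 = ((x - 1 / 4 : ℝ) : ℂ) := by push_cast; ring
        simp only [hS, reg, mem_ofPred_eq, sub_zero, e, norm_real, Real.norm_eq_abs]
        rw [abs_of_pos (by linarith), abs_of_pos (by linarith)]
        exact ⟨hx2, by linarith, by linarith⟩
      · have e : ((1 / 4 + ε + s : ℝ) : ℂ) - 1 / 4 = ((ε + s : ℝ) : ℂ) := by push_cast; ring
        rw [e, norm_real, Real.norm_eq_abs, abs_of_pos (by linarith)]
      · rw [norm_real, Real.norm_eq_abs, abs_of_pos (by linarith)]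
    · refine ⟨((-(ε + s) : ℝ) : ℂ), ((-(1 - s) : ℝ) : ℂ), fun z hz => ?_, ?_, ?_⟩
      · rw [segment_symm] at hz
        obtain ⟨x, hx1, hx2, rfl⟩ := segment_ofReal (by linarith) hz
        have e : (x : ℂ) - 1 / 4 = ((x - 1 / 4 : ℝ) : ℂ) := by push_cast; ring
        simp only [hS, reg, mem_ofPred_eq, sub_zero, e, norm_real, Real.norm_eq_abs]
        rw [abs_of_neg (by linarith), abs_of_neg (by linarith)]
        exact ⟨by linarith, by linarith, by linarith⟩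
      · rw [sub_zero, norm_real, Real.norm_eq_abs, abs_of_neg (by linarith), neg_neg]
      · rw [norm_real, Real.norm_eq_abs, abs_of_neg (by linarith), neg_neg]
  have a1 := abs_lt.1 (hA z₁ (hseg (left_mem_segment ℝ _ _)) e1)
  have a2 := abs_lt.1 (hB z₂ (hseg (right_mem_segment ℝ _ _)) e2)
  have ho : ∀ z ∈ S, S ∈ 𝓝 z → h '' S ∈ 𝓝 (h z) := fun z hz hn => H.image_mem_nhds (hSΩ hz) hn
  rcases hqre with ⟨e3, e4⟩ | ⟨e3, e4⟩
  · refine no_cross (isCompact_reg _ _ _ _ _) (H.cont.mono hSΩ) ho one_ne_zero hb hseg ?_ ?_ <;>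
      rw [map_one, one_mul] <;> linarith [a1.1, a1.2, a2.1, a2.2]
  · refine no_cross (isCompact_reg _ _ _ _ _) (H.cont.mono hSΩ) ho one_ne_zero hb
      (segment_symm ℝ z₁ z₂ ▸ hseg) ?_ ?_ <;>
      rw [map_one, one_mul] <;> linarith [a1.1, a1.2, a2.1, a2.2]

theorem hole_center {ε ε' r : ℝ} {h k : ℂ → ℂ} (H : Hom 1 2 ε ε' h k) (hε0 : 0 ≤ ε)
    {p p' q y : ℂ} (hp : Pair p p') (h1 : HH ε h p q)
    (hr1 : ε < r) (hr2 : r ≤ 1 / 16) (hd : ε < ‖y - q‖ / 2)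
    (hc : ∀ z, ‖z - p‖ = r → ‖h z - y‖ < ‖y - q‖ / 2) : False := by
  set d := ‖y - q‖ with hdd
  have hd0 : 0 < d := by linarith
  obtain ⟨s₁, hs₁, H₁⟩ := h1 (d / 2 - ε) (by linarith)
  set s := min s₁ (r - ε) / 2 with hs
  have hs0 : 0 < s := by have : 0 < r - ε := by linarith
                         positivity
  have hss₁ : s < s₁ := by have := min_le_left s₁ (r - ε); linarith
  have hsr : ε + s < r := by have := min_le_right s₁ (r - ε); linarith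
  set S : Set ℂ := closedBall p r \ ball p (ε + s) with hS
  have hSm : ∀ z, z ∈ S ↔ ε + s ≤ ‖z - p‖ ∧ ‖z - p‖ ≤ r := by
    intro z
    simp only [hS, Set.mem_sdiff, mem_closedBall, mem_ball, dist_eq_norm, not_lt]
    tauto
  have hSΩ : S ⊆ circleDomain 1 ε := by
    intro z hz
    obtain ⟨a1, a2⟩ := (hSm z).1 hz
    have := hp.tri z
    have := hp.tri' z
    exact hp.mem_iff.2 ⟨by linarith, by linarith, by linarith⟩
  set ω := y - q with hω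
  have hω0 : ω ≠ 0 := norm_pos_iff.1 hd0
  have hre : ∀ w : ℂ, |(conj ω * w).re| ≤ d * ‖w‖ := fun w => by
    refine (abs_re_le_norm _).trans ?_
    rw [norm_mul, Complex.norm_conj]
  have hωω : (conj ω * ω).re = d ^ 2 := by
    rw [← normSq_eq_conj_mul_self, ofReal_re, Complex.normSq_eq_norm_sq]
  set t := (conj ω * q).re + d ^ 2 / 2 with ht
  have hA : ∀ z ∈ S, ‖z - p‖ = ε + s → (conj ω * h z).re < t := by
    intro z hz e
    have a1 := H₁ z (hSΩ hz) (by linarith)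
    have a2 := (abs_le.1 (hre (h z - q))).2
    rw [mul_sub, sub_re] at a2
    have a3 : d * ‖h z - q‖ < d * (d / 2) := by gcongr; linarith
    nlinarith
  have hB : ∀ z, ‖z - p‖ = r → t < (conj ω * h z).re := by
    intro z e
    have a1 := hc z e
    have a2 := (abs_le.1 (hre (h z - y))).1
    have a4 : conj ω * (h z - y) = conj ω * h z - conj ω * q - conj ω * ω := by rw [hω]; ring
    rw [a4, sub_re, sub_re, hωω] at a2
    have a3 : d * ‖h z - y‖ < d * (d / 2) := by gcongr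
    nlinarith
  refine no_cross (S := S) ((isCompact_closedBall _ _).diff isOpen_ball) (H.cont.mono hSΩ)
    (fun z hz hn => H.image_mem_nhds (hSΩ hz) hn) hω0 (t := t) (fun z hz e => ?_)
    (z₁ := p + ((ε + s : ℝ) : ℂ)) (z₂ := p + (r : ℝ)) (fun z hz => ?_) ?_ ?_
  · obtain ⟨a1, a2⟩ := (hSm z).1 hz
    have b1 : ε + s < ‖z - p‖ := lt_of_le_of_ne a1 fun e' => (hA z hz e'.symm).ne e
    have b2 : ‖z - p‖ < r := lt_of_le_of_ne a2 fun e' => (hB z e').ne' e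
    have : {z : ℂ | ε + s < ‖z - p‖ ∧ ‖z - p‖ < r} ∈ 𝓝 z :=
      ((isOpen_lt continuous_const (cont_ns p)).inter
        (isOpen_lt (cont_ns p) continuous_const)).mem_nhds ⟨b1, b2⟩
    exact mem_of_superset this fun z hz => (hSm z).2 ⟨hz.1.le, hz.2.le⟩
  · have : z - p ∈ segment ℝ (((ε + s : ℝ) : ℂ)) ((r : ℝ) : ℂ) := by
      obtain ⟨a, b, ha, hb, hab, rfl⟩ := hz
      refine ⟨a, b, ha, hb, hab, ?_⟩
      have : (a : ℂ) + b = 1 := by exact_mod_cast hab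
      simp only [real_smul]
      linear_combination (-p) * this
    obtain ⟨x, hx1, hx2, e⟩ := segment_ofReal hsr.le this
    rw [hSm, e, norm_real, Real.norm_eq_abs, abs_of_pos (by linarith)]
    exact ⟨hx1, hx2⟩
  · have e : ‖p + ((ε + s : ℝ) : ℂ) - p‖ = ε + s := by
      rw [add_sub_cancel_left, norm_real, Real.norm_eq_abs, abs_of_pos (by linarith)]
    exact hA _ ((hSm _).2 ⟨e.ge, by linarith⟩) e
  · refine hB _ ?_
    rw [add_sub_cancel_left, norm_real, Real.norm_eq_abs, abs_of_pos (by linarith)]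

theorem lower_bound {ε ε' r δ : ℝ} {h k : ℂ → ℂ} (H : Hom 1 2 ε ε' h k) (hε0 : 0 ≤ ε')
    (hε : ε ≤ 1 / 32)
    {p p' : ℂ} (hp : Pair p p') (h1 : HH ε h p' (1 / 4)) (h2 : OO ε h)
    (hr1 : ε < r) (hδ : δ ≤ 1 / 8) (hc : ∀ z, ‖z - p‖ = r → δ ≤ ‖h z‖)
    {z₀ : ℂ} (hz₀ : z₀ ∈ circleDomain 1 ε) (hz₀r : r ≤ ‖z₀ - p‖) : δ ≤ ‖h z₀‖ := by
  obtain ⟨s₁, hs₁, H₁⟩ := h1 (1 / 32) (by norm_num)
  obtain ⟨s₂, hs₂, H₂⟩ := h2 1 (by norm_num)
  obtain ⟨b1, _, b3⟩ := hp.mem_iff.1 hz₀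
  set s := min (min s₁ s₂) (min (1 - ‖z₀‖) (‖z₀ - p'‖ - ε)) / 2 with hs
  have hs0 : 0 < s := by
    have : 0 < 1 - ‖z₀‖ := by linarith
    have : 0 < ‖z₀ - p'‖ - ε := by linarith
    positivity
  have hm := min_le_left (min s₁ s₂) (min (1 - ‖z₀‖) (‖z₀ - p'‖ - ε))
  have hm' := min_le_right (min s₁ s₂) (min (1 - ‖z₀‖) (‖z₀ - p'‖ - ε))
  have hss₁ : s < s₁ := by have := min_le_left s₁ s₂; linarith
  have hss₂ : s < s₂ := by have := min_le_right s₁ s₂; linarith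
  have c1 := min_le_left (1 - ‖z₀‖) (‖z₀ - p'‖ - ε)
  have c2 := min_le_right (1 - ‖z₀‖) (‖z₀ - p'‖ - ε)
  set S := reg p p' r (ε + s) (1 - s) with hS
  have hSΩ : S ⊆ circleDomain 1 ε := reg_subset hp (by linarith) hr1 (by linarith)
  refine min_norm (isCompact_reg _ _ _ _ _) (H.cont.mono hSΩ)
    (fun z hz hn => H.image_mem_nhds (hSΩ hz) hn) (fun z hz => ?_) (fun z hz hlt => ?_) z₀
    ⟨by linarith, hz₀r, by linarith⟩
  · have := (mem_circleDomain.1 (H.maps (hSΩ hz))).2.1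
    exact norm_pos_iff.1 (hε0.trans_lt this)
  · refine reg_mem_nhds (lt_of_le_of_ne hz.1 fun e' => ?_) (lt_of_le_of_ne hz.2.1 fun e' => ?_)
      (lt_of_le_of_ne hz.2.2 fun e' => ?_)
    · have := H₂ z (hSΩ hz) (by linarith)
      linarith
    · have := hc z e'.symm
      linarith
    · have := H₁ z (hSΩ hz) (by linarith)
      have := tri1 (h z)
      linarith

theorem ends_classify {ε ε' r : ℝ} {h k : ℂ → ℂ} (H : Hom 1 2 ε ε' h k) (h0 : 0 ≤ ε')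
    (h1 : ε' ≤ ε) (hε : ε ≤ 1 / 32)
    {y₀ y₁ : ℂ} (hr1 : ε < r) (hr2 : r ≤ 1 / 16) (hc₀ : ∀ z, ‖z - 0‖ = r → ‖h z - y₀‖ < 1 / 24)
    (hc₁ : ∀ z, ‖z - 1 / 4‖ = r → ‖h z - y₁‖ < 1 / 24) :
    OO ε h ∧ ((HH ε h 0 0 ∧ HH ε h (1 / 4) (1 / 4)) ∨ (HH ε h (1 / 4) 0 ∧ HH ε h 0 (1 / 4))) := by
  have hε0 := h0.trans h1
  obtain ⟨e, hinj, he⟩ := H.exists_endMap le_rfl (by norm_num) hε0 hε h0 (h1.trans hε)
  have P01 : Pair 0 (1 / 4) := Or.inl ⟨rfl, rfl⟩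
  have P10 : Pair (1 / 4) 0 := Or.inr ⟨rfl, rfl⟩
  have c00 : Ends 1 2 ε ε' h 0 0 → HH ε h 0 0 := fun E η hη => by
    obtain ⟨s, hs, Hs⟩ := E η hη
    refine ⟨s, hs, fun z hz hz' => ?_⟩
    have := Hs z hz (by simp only [dEnd_zero, sub_zero] at *; linarith)
    simp only [dEnd_zero, sub_zero] at *; linarith
  have c01 : Ends 1 2 ε ε' h 0 1 → HH ε h 0 (1 / 4) := fun E η hη => by
    obtain ⟨s, hs, Hs⟩ := E η hη
    refine ⟨s, hs, fun z hz hz' => ?_⟩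
    have := Hs z hz (by simp only [dEnd_zero, sub_zero] at *; linarith)
    simp only [dEnd_one] at *; linarith
  have c10 : Ends 1 2 ε ε' h 1 0 → HH ε h (1 / 4) 0 := fun E η hη => by
    obtain ⟨s, hs, Hs⟩ := E η hη
    refine ⟨s, hs, fun z hz hz' => ?_⟩
    have := Hs z hz (by simp only [dEnd_one] at *; linarith)
    simp only [dEnd_zero, sub_zero] at *; linarith
  have c11 : Ends 1 2 ε ε' h 1 1 → HH ε h (1 / 4) (1 / 4) := fun E η hη => by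
    obtain ⟨s, hs, Hs⟩ := E η hη
    refine ⟨s, hs, fun z hz hz' => ?_⟩
    have := Hs z hz (by simp only [dEnd_one] at *; linarith)
    simp only [dEnd_one] at *; linarith
  have c20 : Ends 1 2 ε ε' h 2 0 → OH ε h 0 := fun E η hη => by
    obtain ⟨s, hs, Hs⟩ := E η hη
    refine ⟨s, hs, fun z hz hz' => ?_⟩
    have := Hs z hz (by simp only [dEnd_two] at *; linarith)
    simp only [dEnd_zero, sub_zero] at *; linarith
  have c21 : Ends 1 2 ε ε' h 2 1 → OH ε h (1 / 4) := fun E η hη => by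
    obtain ⟨s, hs, Hs⟩ := E η hη
    refine ⟨s, hs, fun z hz hz' => ?_⟩
    have := Hs z hz (by simp only [dEnd_two] at *; linarith)
    simp only [dEnd_one] at *; linarith
  have c22 : Ends 1 2 ε ε' h 2 2 → OO ε h := fun E η hη => by
    obtain ⟨s, hs, Hs⟩ := E η hη
    refine ⟨s, hs, fun z hz hz' => ?_⟩
    have := Hs z hz (by simp only [dEnd_two] at *; linarith)
    simp only [dEnd_two] at *; linarith
  have n01 : e 0 ≠ e 1 := fun h => absurd (hinj h) (by decide)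
  have n02 : e 0 ≠ e 2 := fun h => absurd (hinj h) (by decide)
  have n12 : e 1 ≠ e 2 := fun h => absurd (hinj h) (by decide)
  have e0 := he 0
  have e1 := he 1
  have e2 := he 2
  generalize e 0 = a at *
  generalize e 1 = b at *
  generalize e 2 = c at *
  have hcases : (a = 0 ∧ b = 1 ∧ c = 2) ∨ (a = 1 ∧ b = 0 ∧ c = 2) ∨ (a = 2 ∧ b = 0 ∧ c = 1) ∨
      (a = 2 ∧ b = 1 ∧ c = 0) ∨ (a = 0 ∧ b = 2 ∧ c = 1) ∨ (a = 1 ∧ b = 2 ∧ c = 0) := by
    clear e0 e1 e2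
    revert a b c
    decide
  rcases hcases with ⟨rfl, rfl, rfl⟩ | ⟨rfl, rfl, rfl⟩ | ⟨rfl, rfl, rfl⟩ | ⟨rfl, rfl, rfl⟩ |
    ⟨rfl, rfl, rfl⟩ | ⟨rfl, rfl, rfl⟩
  · exact ⟨c22 e2, Or.inl ⟨c00 e0, c11 e1⟩⟩
  · exact ⟨c22 e2, Or.inr ⟨c10 e1, c01 e0⟩⟩
  · exact (not_hole_outer H hε0 hε P01 P01 (c10 e1) (c21 e2) hr1 hr2 hc₀).elim
  · exact (not_hole_outer H hε0 hε P01 P10 (c11 e1) (c20 e2) hr1 hr2 hc₀).elim
  · exact (not_hole_outer H hε0 hε P10 P01 (c00 e0) (c21 e2) hr1 hr2 hc₁).elim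
  · exact (not_hole_outer H hε0 hε P10 P10 (c01 e0) (c20 e2) hr1 hr2 hc₁).elim

end Pool.Agent.Lib.MP_e277cf_an
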