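import Pool.Agent.Lib.MP_e277cf_an.Polar

/-!
A holomorphic function on the outer annulus with symmetric Laurent coefficients that is close on
an inner circle to a function holomorphic in the disc and vanishing at `0` is small up to the
outer boundary.
-/

open MeasureTheory Set Metric Complex Filter Topology Real
open scoped ENNReal ContDiff NNReal ComplexConjugate

noncomputable section

namespace Pool.Agent.Lib.MP_e277cf_an

theorem norm_circleAverage_le {G : ℂ → ℂ} {r C : ℝ} (hr : 0 ≤ r)
    (h : ∀ z ∈ sphere (0 : ℂ) r, ‖G z‖ ≤ C) : ‖circleAverage G 0 r‖ ≤ C := by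
  rw [circleAverage_def, norm_smul, Real.norm_eq_abs, abs_of_pos (by positivity)]
  have := intervalIntegral.norm_integral_le_of_norm_le_const (a := 0) (b := 2 * π) (C := C)
    (f := fun θ => G (circleMap 0 r θ)) (fun θ _ => h _ (circleMap_mem_sphere 0 hr θ))
  rw [sub_zero, abs_of_pos (by positivity)] at this
  calc (2 * π)⁻¹ * ‖∫ θ in (0 : ℝ)..2 * π, G (circleMap 0 r θ)‖ ≤ (2 * π)⁻¹ * (C * (2 * π)) := by
        gcongr
    _ = C := by field_simp

theorem avg_eq_center {G : ℂ → ℂ} {r R : ℝ} (hr : 0 < r) (hrR : r < R)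
    (hG : DifferentiableOn ℂ G (ball 0 R)) : circleAverage G 0 r = G 0 := by
  refine DiffContOnCl.circleAverage ?_
  rw [abs_of_pos hr]
  refine DifferentiableOn.diffContOnCl ?_
  rw [closure_ball _ hr.ne']
  exact hG.mono (closedBall_subset_ball hrR)

theorem ann_subset_ball : ann ⊆ ball 0 1 := fun _ hz => mem_ball_zero_iff.2 hz.2

theorem hopf_small {Φ Φ₀ : ℂ → ℂ} (hΦ : DifferentiableOn ℂ Φ ann)
    (hΦ₀ : DifferentiableOn ℂ Φ₀ (ball 0 1)) (h0 : Φ₀ 0 = 0)
    (hsym : ∀ n : ℕ, circleAverage (fun z => Φ z * z ^ (n + 1)) 0 (3 / 4) =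
      conj (circleAverage (fun z => Φ z / z ^ (n + 1)) 0 (3 / 4)))
    {η : ℝ} (hη : ∀ z ∈ sphere (0 : ℂ) (5 / 8), ‖Φ z - Φ₀ z‖ ≤ η) {w : ℂ} (hw1 : 3 / 4 ≤ ‖w‖)
    (hw2 : ‖w‖ < 1) : ‖Φ w‖ ≤ 8 * η := by
  have hη0 : 0 ≤ η := (norm_nonneg _).trans (hη (5 / 8 : ℝ) (by simp))
  have hdP : ∀ n : ℕ, DifferentiableOn ℂ (fun z => Φ z * z ^ n) ann := fun n => by fun_prop
  have hdQ : ∀ n : ℕ, DifferentiableOn ℂ (fun z => Φ z / z ^ n) ann := fun n =>
    hΦ.div (by fun_prop) fun z hz => pow_ne_zero _ (ne_zero_of_mem_ann hz)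
  have hP : ∀ n : ℕ, ‖circleAverage (fun z => Φ z * z ^ n) 0 (3 / 4)‖ ≤ η * (5 / 8) ^ n := by
    intro n
    rw [avg_indep (hdP n) (r := 5 / 8) (by norm_num) (by norm_num) (by norm_num) (by norm_num)]
    have e : (fun z => Φ z * z ^ n) = fun z => (Φ z - Φ₀ z) * z ^ n + Φ₀ z * z ^ n := by
      ext z; ring
    have hd0 : DifferentiableOn ℂ (fun z => Φ₀ z * z ^ n) (ball 0 1) := by fun_prop
    have hd1 : DifferentiableOn ℂ (fun z => (Φ z - Φ₀ z) * z ^ n) ann :=
      (hΦ.sub (hΦ₀.mono ann_subset_ball)).mul (by fun_prop)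
    rw [e, circleAverage_fun_add (circleIntegrable_of_ann hd1 (by norm_num) (by norm_num))
      (circleIntegrable_of_ann (hd0.mono ann_subset_ball) (by norm_num) (by norm_num)),
      avg_eq_center (by norm_num) (by norm_num) hd0, h0, zero_mul, add_zero]
    refine norm_circleAverage_le (by norm_num) fun z hz => ?_
    rw [norm_mul, norm_pow, mem_sphere_zero_iff_norm.1 hz]
    have := hη z hz
    gcongr
  have hQ : ∀ n : ℕ, ‖circleAverage (fun z => Φ z / z ^ n) 0 (3 / 4)‖ ≤ η * (5 / 8) ^ n := by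
    intro n
    rcases n with _ | n
    · simpa using hP 0
    · rw [← Complex.norm_conj, ← hsym n]; exact hP _
  obtain ⟨R, hR1, hR2⟩ := exists_between hw2
  have hR0 : 0 < R := by linarith
  have hwa : w ∈ ann := ⟨by linarith, hw2⟩
  have hci : CircleIntegrable Φ 0 R := circleIntegrable_of_ann hΦ (by linarith) hR2
  have hsR : ∀ z ∈ sphere (0 : ℂ) R, z ≠ 0 ∧ z - w ≠ 0 := by
    intro z hz
    rw [mem_sphere_zero_iff_norm] at hz
    constructor
    · rintro rfl
      rw [norm_zero] at hz; linarith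
    · intro h
      rw [sub_eq_zero] at h
      rw [h] at hz; linarith
  have hsr : ∀ z ∈ closedBall (0 : ℂ) (5 / 8), 1 / 8 ≤ ‖z - w‖ := by
    intro z hz
    rw [mem_closedBall_zero_iff] at hz
    have := norm_sub_norm_le w z
    rw [norm_sub_rev] at this
    linarith
  have hsr' : ∀ z ∈ ball (0 : ℂ) (3 / 4), z - w ≠ 0 := by
    intro z hz h
    rw [sub_eq_zero] at h
    rw [h, mem_ball_zero_iff] at hz
    linarith
  have h2pi : (2 * π * I : ℂ) ≠ 0 := two_pi_I_ne_zero
  -- the outer Cauchy integral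
  have hA : ‖circleAverage (fun z => z / (z - w) * Φ z) 0 R‖ ≤ η * (8 / 3) := by
    have hs := (hasSum_two_pi_I_cauchyPowerSeries_integral hci hR1).const_smul (2 * π * I : ℂ)⁻¹
    have e1 : ∀ n : ℕ, (2 * π * I : ℂ)⁻¹ • (∮ z in C(0, R), (w / (z - 0)) ^ n • (z - 0)⁻¹ • Φ z) =
        w ^ n * circleAverage (fun z => Φ z / z ^ n) 0 (3 / 4) := by
      intro n
      rw [← avg_indep (hdQ n) (R := R) (by norm_num) (by norm_num) (by linarith) hR2,
        circleAverage_eq_circleIntegral hR0.ne', smul_eq_mul, smul_eq_mul, mul_left_comm,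
        ← circleIntegral.integral_const_mul (w ^ n)]
      congr 1
      refine circleIntegral.integral_congr hR0.le fun z hz => ?_
      simp only [sub_zero, smul_eq_mul, div_pow]
      ring
    have e2 : (2 * π * I : ℂ)⁻¹ • (∮ z in C(0, R), (z - (0 + w))⁻¹ • Φ z) =
        circleAverage (fun z => z / (z - w) * Φ z) 0 R := by
      rw [circleAverage_eq_circleIntegral hR0.ne']
      congr 1
      refine circleIntegral.integral_congr hR0.le fun z hz => ?_
      obtain ⟨h1, h2⟩ := hsR z hz
      simp only [sub_zero, smul_eq_mul, zero_add]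
      field_simp
    simp only [e1, e2] at hs
    have hg : HasSum (fun n : ℕ => η * (5 / 8 : ℝ) ^ n) (η * (8 / 3)) := by
      have := (hasSum_geometric_of_lt_one (r := (5 / 8 : ℝ)) (by norm_num) (by norm_num)).mul_left η
      norm_num at this ⊢
      exact this
    refine hs.norm_le_of_bounded hg fun n => ?_
    rw [norm_mul, norm_pow]
    calc ‖w‖ ^ n * ‖circleAverage (fun z => Φ z / z ^ n) 0 (3 / 4)‖ ≤ 1 * (η * (5 / 8) ^ n) := by
          gcongr
          · exact pow_le_one₀ (norm_nonneg _) hw2.le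
          · exact hQ n
      _ = _ := one_mul _
  -- the inner Cauchy integral
  have hk : DifferentiableOn ℂ (fun z => z / (z - w)) (ball 0 (3 / 4)) :=
    DifferentiableOn.div (by fun_prop) (by fun_prop) hsr'
  have hkc : ContinuousOn (fun z => z / (z - w)) (sphere 0 (5 / 8)) :=
    hk.continuousOn.mono (sphere_subset_closedBall.trans (closedBall_subset_ball (by norm_num)))
  have hΦc : ContinuousOn Φ (sphere 0 (5 / 8)) :=
    continuousOn_sphere_of_ann hΦ (by norm_num) (by norm_num)
  have hΦ₀c : ContinuousOn Φ₀ (sphere 0 (5 / 8)) :=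
    continuousOn_sphere_of_ann (hΦ₀.mono ann_subset_ball) (by norm_num) (by norm_num)
  have hB : ‖circleAverage (fun z => z / (z - w) * Φ z) 0 (5 / 8)‖ ≤ 5 * η := by
    have e : (fun z => z / (z - w) * Φ z) =
        fun z => z / (z - w) * (Φ z - Φ₀ z) + z / (z - w) * Φ₀ z := by
      ext z; ring
    have hd0 : DifferentiableOn ℂ (fun z => z / (z - w) * Φ₀ z) (ball 0 (3 / 4)) :=
      hk.mul (hΦ₀.mono (ball_subset_ball (by norm_num)))
    rw [e, circleAverage_fun_add ((hkc.fun_mul (hΦc.fun_sub hΦ₀c)).circleIntegrable (by norm_num))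
      ((hkc.fun_mul hΦ₀c).circleIntegrable (by norm_num)),
      avg_eq_center (by norm_num) (by norm_num) hd0, h0, mul_zero, add_zero]
    refine norm_circleAverage_le (by norm_num) fun z hz => ?_
    rw [norm_mul, norm_div, mem_sphere_zero_iff_norm.1 hz]
    have h1 := hη z hz
    have h2 := hsr z (sphere_subset_closedBall hz)
    have h3 : 5 / 8 / ‖z - w‖ ≤ 5 := by
      rw [div_le_iff₀ (by linarith)]; linarith
    gcongr
  -- the Cauchy formula on the annulus
  have hG : DifferentiableOn ℂ (fun z => z * dslope Φ w z) ann :=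
    differentiableOn_id.mul ((differentiableOn_dslope (isOpen_ann.mem_nhds hwa)).2 hΦ)
  have hGe : ∀ z, z - w ≠ 0 → z * dslope Φ w z = z / (z - w) * Φ z - Φ w • (z / (z - w)) := by
    intro z hz
    rw [dslope_of_ne _ (sub_ne_zero.1 hz), slope_def_field, smul_eq_mul]
    field_simp
  have hkR : ContinuousOn (fun z => z / (z - w)) (sphere 0 R) :=
    ContinuousOn.div continuousOn_id (by fun_prop) fun z hz => (hsR z hz).2
  have c1 : circleAverage (fun z => z * dslope Φ w z) 0 R =
      circleAverage (fun z => z / (z - w) * Φ z) 0 R - Φ w := by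
    rw [circleAverage_congr_sphere (f₂ := fun z => z / (z - w) * Φ z - Φ w • (z / (z - w)))
      (fun z hz => hGe z (hsR z (by rwa [abs_of_pos hR0] at hz)).2),
      circleAverage_fun_sub
        ((hkR.fun_mul (continuousOn_sphere_of_ann hΦ (by linarith) hR2)).circleIntegrable hR0.le)
        ((hkR.fun_const_smul (Φ w)).circleIntegrable hR0.le), circleAverage_fun_smul]
    have := DiffContOnCl.circleAverage_smul_div (f := fun _ : ℂ => (1 : ℂ)) (c := 0) (R := R)
      (w := w) diffContOnCl_const (by rw [abs_of_pos hR0, mem_ball_zero_iff]; exact hR1)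
    simp only [sub_zero, smul_eq_mul, mul_one] at this
    rw [this, smul_eq_mul, mul_one]
  have c2 : circleAverage (fun z => z * dslope Φ w z) 0 (5 / 8) =
      circleAverage (fun z => z / (z - w) * Φ z) 0 (5 / 8) := by
    rw [circleAverage_congr_sphere (f₂ := fun z => z / (z - w) * Φ z - Φ w • (z / (z - w)))
      (fun z hz => hGe z (hsr' z (by
        rw [abs_of_pos (by norm_num), mem_sphere_zero_iff_norm] at hz
        rw [mem_ball_zero_iff, hz]; norm_num))),
      circleAverage_fun_sub ((hkc.fun_mul hΦc).circleIntegrable (by norm_num))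
        ((hkc.fun_const_smul (Φ w)).circleIntegrable (by norm_num)), circleAverage_fun_smul,
      avg_eq_center (by norm_num) (by norm_num) hk]
    simp
  have c3 := avg_indep hG (r := 5 / 8) (R := R) (by norm_num) (by norm_num) (by linarith) hR2
  rw [c1, c2] at c3
  have c4 : Φ w = circleAverage (fun z => z / (z - w) * Φ z) 0 R -
      circleAverage (fun z => z / (z - w) * Φ z) 0 (5 / 8) := by
    rw [← c3]; ring
  rw [c4]
  refine (norm_sub_le _ _).trans ?_
  linarith

end Pool.Agent.Lib.MP_e277cf_an
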