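import Pool.Agent.Lib.MP_e277cf_an.Weyl
import Pool.Agent.Lib.MP_e277cf_an.Small
import Pool.Agent.Lib.MP_e277cf_an.Ends

/-!
The properties of an energy-minimal diffeomorphism used in the limit argument, and the final
Schwarz-type contradiction.
-/

open MeasureTheory Set Metric Complex Filter Topology Real
open scoped ComplexConjugate

noncomputable section

namespace Pool.Agent.Lib.MP_e277cf_an

/-- An orientation-preserving stationary homeomorphism with its Wirtinger derivatives. -/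
structure Good (ε : ℝ) (h k f g : ℂ → ℂ) : Prop where
  hom : ∃ δ, 0 ≤ δ ∧ δ ≤ ε ∧ Hom 1 2 ε δ h k
  hf : DifferentiableOn ℂ f (circleDomain 1 ε)
  hg : DifferentiableOn ℂ g (circleDomain 1 ε)
  hd : ∀ z ∈ circleDomain 1 ε, HasFDerivAt h (lin (f z) (conj (g z))) z
  sym : ∀ n : ℕ, circleAverage (fun z => z ^ 2 * (f z * g z) * z ^ (n + 1)) 0 (3 / 4) =
    conj (circleAverage (fun z => z ^ 2 * (f z * g z) / z ^ (n + 1)) 0 (3 / 4))
  orient : ∀ z ∈ ann, ‖g z‖ ≤ ‖f z‖

theorem mem_circleDomain_of_half {ε : ℝ} (hε : ε ≤ 1 / 32) (z : ℂ) (hz : 1 / 2 < ‖z‖) :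
    z ∈ circleDomain 1 ε ↔ ‖z‖ < 1 := by
  rw [mem_circleDomain]
  have := tri2 z
  exact ⟨fun h => h.1, fun h => ⟨h, by linarith, by linarith⟩⟩

theorem ann_subset {ε : ℝ} (hε : ε ≤ 1 / 32) : ann ⊆ circleDomain 1 ε := fun z hz =>
  (mem_circleDomain_of_half hε z hz.1).2 hz.2

theorem isPreconnected_ann : IsPreconnected ann := by
  have := isPreconnected_annulus 0 (r₁ := 1 / 2) (r₂ := 1) (by norm_num)
  simpa [ann] using this

theorem conj_mem_circleDomain {R ε : ℝ} {w : ℂ} (hw : w ∈ circleDomain R ε) :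
    conj w ∈ circleDomain R ε := by
  rw [mem_circleDomain] at hw ⊢
  have : conj w - 1 / 4 = conj (w - 1 / 4) := by
    rw [map_sub, map_div₀, map_one]
    congr 2
    exact (conj_ofNat 4).symm
  rwa [this, Complex.norm_conj, Complex.norm_conj]

theorem good_of_isMinimal {ε δ : ℝ} (hδ0 : 0 ≤ δ) (hδ : δ ≤ ε) (hε : ε ≤ 1 / 32) {h k : ℂ → ℂ}
    (H : IsMinimal (circleDomain 1 ε) (circleDomain 2 δ) h k) :
    ∃ h k f g, Good ε h k f g := by
  have hΩ := isOpen_circleDomain 1 ε
  have hΩ' := isOpen_circleDomain 2 δ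
  set f : ℂ → ℂ := fun z => dz (fderiv ℝ h z) with hfdef
  set g : ℂ → ℂ := fun z => conj (dzb (fderiv ℝ h z)) with hgdef
  obtain ⟨hf, hg⟩ := holomorphic_of_isMinimal hΩ hΩ' H
  have hom : Hom 1 2 ε δ h k := ⟨H.cd.continuousOn, H.cd'.continuousOn, H.maps, H.maps', H.inv⟩
  have hd : ∀ z ∈ circleDomain 1 ε, HasFDerivAt h (lin (f z) (conj (g z))) z := by
    intro z hz
    simp only [hfdef, hgdef, conj_conj, lin_dz_dzb]
    exact (differentiableAt_of hΩ H.cd hz).hasFDerivAt
  have sym : ∀ n : ℕ, circleAverage (fun z => z ^ 2 * (f z * g z) * z ^ (n + 1)) 0 (3 / 4) =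
      conj (circleAverage (fun z => z ^ 2 * (f z * g z) / z ^ (n + 1)) 0 (3 / 4)) :=
    laurent_symm hΩ (mem_circleDomain_of_half hε) ((hf.mul hg).mono (ann_subset hε))
      (fun l hl hc hρ => inner_variation hΩ H hl hc hρ (mem_circleDomain_of_half hε))
  have hne : ∀ z ∈ circleDomain 1 ε, ‖f z‖ ≠ ‖g z‖ := by
    intro z hz
    have h1 := (differentiableAt_of hΩ' H.cd' (H.maps hz)).hasFDerivAt.comp z (hd z hz)
    have h2 : HasFDerivAt (k ∘ h) (ContinuousLinearMap.id ℝ ℂ) z := by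
      refine (hasFDerivAt_id z).congr_of_eventuallyEq ?_
      filter_upwards [hΩ.mem_nhds hz] with w hw using H.inv.1 hw
    have h3 := h1.unique h2
    have h4 : Function.Injective (lin (f z) (conj (g z))) := by
      intro a b hab
      have ha := congrArg (fun A : ℂ →L[ℝ] ℂ => A a) h3
      have hb := congrArg (fun A : ℂ →L[ℝ] ℂ => A b) h3
      simp only [ContinuousLinearMap.comp_apply, ContinuousLinearMap.id_apply] at ha hb
      rw [← ha, ← hb, hab]
    have := norm_ne_of_injective h4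
    rwa [Complex.norm_conj] at this
  by_cases hor : ∀ z ∈ ann, ‖g z‖ ≤ ‖f z‖
  · exact ⟨h, k, f, g, ⟨δ, hδ0, hδ, hom⟩, hf, hg, hd, sym, hor⟩
  push Not at hor
  obtain ⟨z₁, hz₁, hlt⟩ := hor
  have hor' : ∀ z ∈ ann, ‖f z‖ ≤ ‖g z‖ := by
    intro z₂ hz₂
    by_contra hlt'
    push Not at hlt'
    have hc : ContinuousOn (fun z => ‖f z‖ - ‖g z‖) ann :=
      ((hf.continuousOn.norm).sub (hg.continuousOn.norm)).mono (ann_subset hε)
    obtain ⟨z, hz, e⟩ := isPreconnected_ann.intermediate_value hz₁ hz₂ hc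
      (show (0 : ℝ) ∈ Icc _ _ from ⟨by linarith, by linarith⟩)
    exact hne z (ann_subset hε hz) (sub_eq_zero.1 e)
  refine ⟨fun z => conj (h z), fun w => k (conj w), g, f, ⟨δ, hδ0, hδ, ?_, ?_, ?_, ?_, ?_, ?_⟩,
    hg, hf, ?_, ?_, hor'⟩
  · exact continuous_conj.comp_continuousOn hom.cont
  · exact hom.cont'.comp continuous_conj.continuousOn fun w hw => conj_mem_circleDomain hw
  · exact fun z hz => conj_mem_circleDomain (hom.maps hz)
  · exact fun w hw => hom.maps' (conj_mem_circleDomain hw)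
  · intro z hz
    simp only [conj_conj]
    exact hom.inv.1 hz
  · intro w hw
    simp only
    rw [hom.inv.2 (conj_mem_circleDomain hw), conj_conj]
  · intro z hz
    have := hasFDerivAt_conj_lin (hd z hz)
    rwa [conj_conj] at this
  · intro n
    simp only [mul_comm (g _) (f _)]
    exact sym n

theorem final_contradiction {F : ℂ → ℂ} (hF : DifferentiableOn ℂ F (ball 0 1)) {p p' : ℂ}
    (hp : Pair p p') (h0 : F p = 0) (h1 : ‖F p'‖ = 1 / 4) (hb : ∀ z ∈ ball (0 : ℂ) 1, ‖F z‖ ≤ 2)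
    (hne : ∀ z ∈ ball (0 : ℂ) 1, z ≠ p → F z ≠ 0) {M : ℝ}
    (hM : ∀ z, 3 / 4 ≤ ‖z‖ → ‖z‖ < 1 →
      Real.log 4 + M * Real.log (normSq z) ≤ Real.log (normSq (F z))) : False := by
  have hpb : ball (0 : ℂ) 1 ∈ 𝓝 p :=
    isOpen_ball.mem_nhds (mem_ball_zero_iff.2 (hp.norm_le.trans_lt (by norm_num)))
  have hpp : ‖p' - p‖ = 1 / 4 := hp.symm.norm_sub
  have hp'n : ‖p'‖ ≤ 1 / 4 := hp.symm.norm_le
  set u := dslope F p with hu
  have hud : DifferentiableOn ℂ u (ball 0 1) := (differentiableOn_dslope hpb).2 hF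
  have hFu : ∀ z, F z = (z - p) * u z := fun z => by
    have := sub_smul_dslope F p z
    rw [h0, sub_zero, smul_eq_mul] at this
    exact this.symm
  have maxp : ∀ {G : ℂ → ℂ} {R C : ℝ}, DifferentiableOn ℂ G (ball 0 1) → 1 / 2 < R → R < 1 →
      (∀ z, ‖z‖ = R → ‖G z‖ ≤ C) → ‖G p'‖ ≤ C := by
    intro G R C hG hR1 hR2 hC
    have hR0 : R ≠ 0 := by linarith
    refine norm_le_of_forall_mem_frontier_norm_le (U := ball 0 R) isBounded_ball ?_ ?_ ?_
    · refine DifferentiableOn.diffContOnCl ?_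
      rw [closure_ball _ hR0]
      exact hG.mono (closedBall_subset_ball hR2)
    · rw [frontier_ball _ hR0]
      exact fun z hz => hC z (mem_sphere_zero_iff_norm.1 hz)
    · exact subset_closure (mem_ball_zero_iff.2 (by linarith))
  by_cases hup : u p = 0
  · set v := dslope u p with hv
    have hvd : DifferentiableOn ℂ v (ball 0 1) := (differentiableOn_dslope hpb).2 hud
    have huv : ∀ z, u z = (z - p) * v z := fun z => by
      have := sub_smul_dslope u p z
      rw [hup, sub_zero, smul_eq_mul] at this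
      exact this.symm
    have key := maxp (R := 99 / 100) (C := 2 / (74 / 100) ^ 2) hvd (by norm_num) (by norm_num)
      (fun z hz => by
        have a1 := hb z (mem_ball_zero_iff.2 (by rw [hz]; norm_num))
        have a2 := hp.tri' z
        rw [hFu, huv, norm_mul, norm_mul] at a1
        rw [le_div_iff₀ (by norm_num)]
        have a3 : (74 / 100 : ℝ) ≤ ‖z - p‖ := by linarith
        have a4 : (74 / 100 : ℝ) ^ 2 ≤ ‖z - p‖ ^ 2 := by gcongr
        have := norm_nonneg (v z)
        nlinarith)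
    rw [hFu, huv, norm_mul, norm_mul, hpp] at h1
    norm_num at key
    linarith
  · have hune : ∀ z ∈ ball (0 : ℂ) 1, u z ≠ 0 := by
      intro z hz
      by_cases e : z = p
      · rwa [e]
      · intro h
        exact hne z hz e (by rw [hFu, h, mul_zero])
    have hinv : DifferentiableOn ℂ (fun z => (u z)⁻¹) (ball 0 1) := hud.inv hune
    have hlim : Tendsto (fun R : ℝ => Real.log 4 + M * Real.log (R ^ 2)) (𝓝[<] 1)
        (𝓝 (Real.log 4)) := by
      have : ContinuousAt (fun R : ℝ => Real.log 4 + M * Real.log (R ^ 2)) 1 :=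
        continuousAt_const.add (((continuousAt_id.pow 2).log (by norm_num)).const_mul M)
      have := this.tendsto
      simp only [one_pow, Real.log_one, mul_zero, add_zero] at this
      exact this.mono_left nhdsWithin_le_nhds
    have hlt : Real.log ((3 / 2) ^ 2) < Real.log 4 := Real.log_lt_log (by norm_num) (by norm_num)
    obtain ⟨R, hR1, hR2⟩ := ((hlim.eventually (lt_mem_nhds hlt)).and
      (Ioo_mem_nhdsLT (show (3 / 4 : ℝ) < 1 by norm_num))).exists
    have key := maxp (R := R) (C := 5 / 6) hinv (by linarith [hR2.1]) hR2.2 (fun z hz => by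
      have hzb : z ∈ ball (0 : ℂ) 1 := mem_ball_zero_iff.2 (hz ▸ hR2.2)
      have a1 := hM z (hz ▸ hR2.1.le) (hz ▸ hR2.2)
      rw [Complex.normSq_eq_norm_sq, Complex.normSq_eq_norm_sq, hz] at a1
      have hzp : z ≠ p := by
        rintro rfl
        linarith [hp.norm_le, hR2.1]
      have a2 : 0 < ‖F z‖ := norm_pos_iff.2 (hne z hzb hzp)
      have a3 : (3 / 2 : ℝ) ^ 2 < ‖F z‖ ^ 2 :=
        (Real.log_lt_log_iff (by norm_num) (by positivity)).1 (hR1.trans_le a1)
      have a4 : (3 / 2 : ℝ) < ‖F z‖ := lt_of_pow_lt_pow_left₀ 2 a2.le a3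
      have a5 : ‖z - p‖ ≤ 5 / 4 := by
        have := norm_sub_le z p
        linarith [hp.norm_le, hR2.2]
      rw [hFu, norm_mul] at a4
      have a6 : 0 < ‖u z‖ := norm_pos_iff.2 (hune z hzb)
      rw [norm_inv, inv_le_comm₀ a6 (by norm_num)]
      nlinarith)
    have a6 : 0 < ‖u p'‖ := norm_pos_iff.2 (hune p' (mem_ball_zero_iff.2 (by linarith)))
    rw [norm_inv, inv_le_comm₀ a6 (by norm_num)] at key
    rw [hFu, norm_mul, hpp] at h1
    linarith

end Pool.Agent.Lib.MP_e277cf_an
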