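import Pool.Agent.Lib.MP_e277cf_an.Lin

/-!
Gradient bounds, removable singularities and normal families for bounded harmonic maps.
-/

open Set Metric Complex Filter Topology
open scoped ComplexConjugate

noncomputable section

namespace Pool.Agent.Lib.MP_e277cf_an

/-- The constant in the gradient estimate. -/
def cG : ℝ := 2 * Real.exp 4

theorem cG_pos : 0 < cG := by unfold cG; positivity

theorem hasFDerivAt_re_of_hasDerivAt {H : ℂ → ℂ} {P z : ℂ} (h : HasDerivAt H P z) :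
    HasFDerivAt (fun w => (H w).re) (reCLM.comp (lin P 0)) z :=
  reCLM.hasFDerivAt.comp z (hasFDerivAt_lin_of_hasDerivAt h)

theorem grad_bound_re {u : ℂ → ℝ} {P : ℂ → ℂ} {z₀ : ℂ} {r : ℝ} (hr : 0 < r)
    (hP : DifferentiableOn ℂ P (ball z₀ r))
    (hu : ∀ z ∈ ball z₀ r, HasFDerivAt u (reCLM.comp (lin (P z) 0)) z)
    (hb : ∀ z ∈ ball z₀ r, |u z| ≤ 2) : ‖P z₀‖ ≤ cG / r := by
  obtain ⟨H, hH0, hH⟩ := hP.isExactOn_ball.with_val_at z₀ (u z₀)
  have heq : EqOn (fun z => (H z).re) u (ball z₀ r) := by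
    refine isOpen_ball.eqOn_of_fderiv_eq (𝕜 := ℝ) (convex_ball z₀ r).isPreconnected
      (fun z hz => (hasFDerivAt_re_of_hasDerivAt (hH z hz)).differentiableAt.differentiableWithinAt)
      (fun z hz => (hu z hz).differentiableAt.differentiableWithinAt) (fun z hz => ?_)
      (mem_ball_self hr) (by simp [hH0])
    rw [(hasFDerivAt_re_of_hasDerivAt (hH z hz)).fderiv, (hu z hz).fderiv]
  have hE : ∀ z ∈ ball z₀ r, HasDerivAt (fun z => cexp (H z)) (cexp (H z) * P z) z :=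
    fun z hz => (hH z hz).cexp
  have hsub : closedBall z₀ (r / 2) ⊆ ball z₀ r := closedBall_subset_ball (by linarith)
  have hdc : DiffContOnCl ℂ (fun z => cexp (H z)) (ball z₀ (r / 2)) := by
    refine DifferentiableOn.diffContOnCl ?_
    rw [closure_ball _ (by positivity)]
    exact fun z hz => (hE z (hsub hz)).differentiableAt.differentiableWithinAt
  have key := norm_deriv_le_of_forall_mem_sphere_norm_le (C := Real.exp 2) (by positivity) hdc
    (fun z hz => by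
      have hz' := hsub (sphere_subset_closedBall hz)
      rw [norm_exp, Real.exp_le_exp]
      have := heq hz'
      simp only at this
      rw [this]
      exact (abs_le.1 (hb z hz')).2)
  rw [(hE z₀ (mem_ball_self hr)).deriv, norm_mul, norm_exp, hH0, ofReal_re] at key
  have h1 : Real.exp (-2) ≤ Real.exp (u z₀) :=
    Real.exp_le_exp.2 (abs_le.1 (hb z₀ (mem_ball_self hr))).1
  have h2 : Real.exp (-2) * ‖P z₀‖ ≤ Real.exp 2 / (r / 2) :=
    le_trans (by gcongr) key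
  have h3 : Real.exp 4 = Real.exp 2 * Real.exp 2 := by rw [← Real.exp_add]; norm_num
  have h4 : Real.exp 2 * Real.exp (-2) = 1 := by rw [← Real.exp_add]; norm_num
  calc ‖P z₀‖ = Real.exp 2 * (Real.exp (-2) * ‖P z₀‖) := by rw [← mul_assoc, h4, one_mul]
    _ ≤ Real.exp 2 * (Real.exp 2 / (r / 2)) := by gcongr
    _ = cG / r := by rw [cG, h3]; field_simp

theorem hasFDerivAt_re_lin {h : ℂ → ℂ} {f g z : ℂ} (hd : HasFDerivAt h (lin f (conj g)) z) :
    HasFDerivAt (fun w => (h w).re) (reCLM.comp (lin (f + g) 0)) z := by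
  refine (reCLM.hasFDerivAt.comp z hd).congr_fderiv ?_
  ext v
  simp
  ring

theorem hasFDerivAt_im_lin {h : ℂ → ℂ} {f g z : ℂ} (hd : HasFDerivAt h (lin f (conj g)) z) :
    HasFDerivAt (fun w => (h w).im) (reCLM.comp (lin (-I * (f - g)) 0)) z := by
  refine (imCLM.hasFDerivAt.comp z hd).congr_fderiv ?_
  ext v
  simp
  ring

theorem norm_le_of_add_sub {f g : ℂ} {C : ℝ} (h1 : ‖f + g‖ ≤ C) (h2 : ‖-I * (f - g)‖ ≤ C) :
    ‖f‖ ≤ C ∧ ‖g‖ ≤ C := by
  rw [norm_mul, norm_neg, norm_I, one_mul] at h2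
  constructor
  · have : f = (1 / 2 : ℂ) * ((f + g) + (f - g)) := by ring
    rw [this, norm_mul]
    have := norm_add_le (f + g) (f - g)
    simp only [one_div, norm_inv, Complex.norm_ofNat]
    linarith
  · have : g = (1 / 2 : ℂ) * ((f + g) - (f - g)) := by ring
    rw [this, norm_mul]
    have := norm_sub_le (f + g) (f - g)
    simp only [one_div, norm_inv, Complex.norm_ofNat]
    linarith

theorem grad_bound {h f g : ℂ → ℂ} {z₀ : ℂ} {r : ℝ} (hr : 0 < r)
    (hf : DifferentiableOn ℂ f (ball z₀ r)) (hg : DifferentiableOn ℂ g (ball z₀ r))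
    (hd : ∀ z ∈ ball z₀ r, HasFDerivAt h (lin (f z) (conj (g z))) z)
    (hb : ∀ z ∈ ball z₀ r, ‖h z‖ ≤ 2) : ‖f z₀‖ ≤ cG / r ∧ ‖g z₀‖ ≤ cG / r := by
  refine norm_le_of_add_sub ?_ ?_
  · exact grad_bound_re (P := fun z => f z + g z) hr (hf.add hg)
      (fun z hz => hasFDerivAt_re_lin (hd z hz)) fun z hz => (abs_re_le_norm _).trans (hb z hz)
  · exact grad_bound_re (P := fun z => -I * (f z - g z)) hr ((hf.sub hg).const_mul _)
      (fun z hz => hasFDerivAt_im_lin (hd z hz)) fun z hz => (abs_im_le_norm _).trans (hb z hz)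

theorem extend_one {f : ℂ → ℂ} {s : Set ℂ} {c : ℂ} (hs : s ∈ 𝓝 c)
    (hd : DifferentiableOn ℂ f (s \ {c})) (hb : ∃ B, ∀ᶠ z in 𝓝[≠] c, ‖f z‖ ≤ B) :
    ∃ F : ℂ → ℂ, DifferentiableOn ℂ F s ∧ ∀ z, z ≠ c → F z = f z := by
  classical
  obtain ⟨B, hB⟩ := hb
  refine ⟨_, differentiableOn_update_limUnder_of_isLittleO hs hd ?_,
    fun z hz => Function.update_of_ne hz _ _⟩
  refine IsBoundedUnder.isLittleO_sub_self_inv ⟨B + ‖f c‖, ?_⟩
  rw [eventually_map]
  filter_upwards [hB] with z hz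
  exact (norm_sub_le _ _).trans (by linarith)

theorem extend_two {f : ℂ → ℂ} {U : Set ℂ} (hU : IsOpen U) {p q : ℂ} (hp : p ∈ U) (hq : q ∈ U)
    (hpq : p ≠ q) (hd : DifferentiableOn ℂ f (U \ {p, q}))
    (hb : ∃ B, ∀ᶠ z in 𝓝[≠] p, ‖f z‖ ≤ B) (hb' : ∃ B, ∀ᶠ z in 𝓝[≠] q, ‖f z‖ ≤ B) :
    ∃ F : ℂ → ℂ, DifferentiableOn ℂ F U ∧ ∀ z, z ≠ p → z ≠ q → F z = f z := by
  have h1 : (U \ {q}) \ {p} = U \ {p, q} := by
    ext z; simp only [Set.mem_sdiff, mem_singleton_iff, mem_insert_iff]; tauto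
  obtain ⟨F₁, hF₁, e₁⟩ := extend_one (f := f) (s := U \ {q}) (c := p)
    ((hU.sdiff isClosed_singleton).mem_nhds ⟨hp, hpq⟩) (h1 ▸ hd) hb
  obtain ⟨B, hB⟩ := hb'
  obtain ⟨F₂, hF₂, e₂⟩ := extend_one (f := F₁) (s := U) (c := q) (hU.mem_nhds hq) hF₁
    ⟨B, by
      filter_upwards [hB, mem_nhdsWithin_of_mem_nhds (isOpen_ne.mem_nhds hpq.symm)] with z hz hz'
      rwa [e₁ z hz']⟩
  exact ⟨F₂, hF₂, fun z h1 h2 => by rw [e₂ z h2, e₁ z h1]⟩

theorem removable_re {u : ℂ → ℝ} {P : ℂ → ℂ} {p : ℂ} {r : ℝ} (hr : 0 < r)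
    (hP : DifferentiableOn ℂ P (ball p r \ {p}))
    (hu : ∀ z ∈ ball p r \ {p}, HasFDerivAt u (reCLM.comp (lin (P z) 0)) z)
    (hb : ∀ z ∈ ball p r \ {p}, |u z| ≤ 2) : ∃ B, ∀ᶠ z in 𝓝[≠] p, ‖P z‖ ≤ B := by
  have hT : ∀ z ∈ ball p (r / 2) \ {p}, ‖(z - p) * P z‖ ≤ cG := by
    intro z hz
    have hz0 : 0 < ‖z - p‖ := norm_pos_iff.2 (sub_ne_zero.2 hz.2)
    have hz1 : ‖z - p‖ < r / 2 := by have := hz.1; rwa [mem_ball, dist_eq_norm] at this
    have hsub : ball z ‖z - p‖ ⊆ ball p r \ {p} := by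
      intro w hw
      refine ⟨ball_subset_ball' (by rw [dist_eq_norm]; linarith) hw, ?_⟩
      rintro rfl
      rw [mem_ball, dist_comm, dist_eq_norm] at hw
      exact lt_irrefl _ hw
    have := grad_bound_re hz0 (hP.mono hsub) (fun w hw => hu w (hsub hw))
      (fun w hw => hb w (hsub hw))
    rw [le_div_iff₀ hz0] at this
    rw [norm_mul, mul_comm]; exact this
  have hsub2 : ball p (r / 2) \ {p} ⊆ ball p r \ {p} :=
    sdiff_subset_sdiff_left (ball_subset_ball (by linarith))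
  have hnh : ball p (r / 2) ∈ 𝓝 p := ball_mem_nhds p (by positivity)
  obtain ⟨T, hTd, hTe⟩ := extend_one (f := fun z => (z - p) * P z) hnh
    ((differentiableOn_id.sub_const p).mul (hP.mono hsub2))
    ⟨cG, eventually_of_mem (sdiff_mem_nhdsWithin_compl hnh {p}) hT⟩
  set c := T p with hc
  set S := dslope T p with hS
  have hSd : DifferentiableOn ℂ S (ball p (r / 2)) := (differentiableOn_dslope hnh).2 hTd
  have hSe : ∀ z, z ≠ p → P z = S z + c / (z - p) := by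
    intro z hz
    have : z - p ≠ 0 := sub_ne_zero.2 hz
    rw [hS, dslope_of_ne _ hz, slope_def_field, hTe z hz]
    field_simp
    ring
  obtain ⟨Sg, hSg⟩ := hSd.isExactOn_ball
  have hsub3 : closedBall p (r / 4) ⊆ ball p (r / 2) := closedBall_subset_ball (by linarith)
  obtain ⟨B, hB⟩ := (isCompact_closedBall p (r / 4)).exists_bound_of_continuousOn
    (f := Sg) (fun z hz => (hSg z (hsub3 hz)).continuousAt.continuousWithinAt)
  have key : ∀ κ : ℂ, κ.re ≤ 0 → (c * κ).re = 0 := by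
    intro κ hκ
    set γ : ℝ → ℂ := fun t => p + (r / 4 : ℝ) * cexp (κ * t) with hγ
    have hγp : ∀ t, γ t - p = (r / 4 : ℝ) * cexp (κ * t) := fun t => by rw [hγ]; ring
    have hγne : ∀ t, γ t - p ≠ 0 := fun t => by
      rw [hγp]
      exact mul_ne_zero (by exact_mod_cast (by positivity : r / 4 ≠ 0)) (exp_ne_zero _)
    have hγm : ∀ t, 0 ≤ t → γ t ∈ closedBall p (r / 4) := by
      intro t ht
      rw [mem_closedBall, dist_eq_norm, hγp, norm_mul, norm_real, norm_exp, Real.norm_eq_abs,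
        abs_of_pos (by positivity)]
      have : Real.exp (κ * t).re ≤ 1 := by
        rw [Real.exp_le_one_iff, mul_comm, re_ofReal_mul]
        exact mul_nonpos_of_nonneg_of_nonpos ht hκ
      nlinarith
    have hγd : ∀ t, HasDerivAt γ (κ * (γ t - p)) t := by
      intro t
      have h1 : HasDerivAt (fun t : ℝ => κ * (t : ℂ)) (κ * 1) t :=
        (hasDerivAt_id t).ofReal_comp.const_mul κ
      refine ((h1.cexp.const_mul ((r / 4 : ℝ) : ℂ)).const_add p).congr_deriv ?_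
      rw [hγp]; ring
    have hw : ∀ t, 0 ≤ t → HasDerivAt (fun t => u (γ t) - (Sg (γ t)).re) (c * κ).re t := by
      intro t ht
      have hm : γ t ∈ ball p (r / 2) \ {p} := ⟨hsub3 (hγm t ht), sub_ne_zero.1 (hγne t)⟩
      have h1 := ((hu _ (hsub2 hm)).sub
        (hasFDerivAt_re_of_hasDerivAt (hSg _ hm.1))).comp_hasDerivAt t (hγd t)
      refine h1.congr_deriv ?_
      simp only [sub_apply, ContinuousLinearMap.comp_apply, lin_apply, zero_mul, add_zero,
        reCLM_apply, ← sub_re]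
      congr 1
      rw [hSe _ (sub_ne_zero.1 (hγne t))]
      have := hγne t
      field_simp
      ring
    have hbd : ∀ t, 0 ≤ t → |u (γ t) - (Sg (γ t)).re| ≤ 2 + B := by
      intro t ht
      have hm : γ t ∈ ball p (r / 2) \ {p} := ⟨hsub3 (hγm t ht), sub_ne_zero.1 (hγne t)⟩
      refine (abs_sub _ _).trans (add_le_add (hb _ (hsub2 hm)) ?_)
      exact (abs_re_le_norm _).trans (hB _ (hγm t ht))
    by_contra hne
    have hpos : 0 < |(c * κ).re| := abs_pos.2 hne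
    have hB0 : 0 ≤ 2 + B := (abs_nonneg _).trans (hbd 0 le_rfl)
    set t := (2 * (2 + B) + 1) / |(c * κ).re| with ht
    have ht0 : 0 ≤ t := by positivity
    have hint := intervalIntegral.integral_eq_sub_of_hasDerivAt (a := 0) (b := t)
      (f := fun t => u (γ t) - (Sg (γ t)).re) (f' := fun _ => (c * κ).re)
      (fun s hs => hw s (by rw [uIcc_of_le ht0] at hs; exact hs.1)) intervalIntegrable_const
    rw [intervalIntegral.integral_const, sub_zero, smul_eq_mul] at hint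
    have h1 : |t * (c * κ).re| ≤ 2 * (2 + B) := by
      rw [hint]
      refine (abs_sub _ _).trans ?_
      linarith [hbd t ht0, hbd 0 le_rfl]
    rw [abs_mul, abs_of_nonneg ht0, ht, div_mul_cancel₀ _ hpos.ne'] at h1
    linarith
  have hc0 : c = 0 := by
    have k1 := key (-1) (by simp)
    have k2 := key I (by simp)
    simp at k1 k2
    exact Complex.ext k1 k2
  refine ⟨‖S p‖ + 1, ?_⟩
  have hcont : ContinuousAt S p := (hSd.differentiableAt hnh).continuousAt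
  have h2 : ∀ᶠ z in 𝓝 p, ‖S z‖ < ‖S p‖ + 1 :=
    hcont.norm.eventually (gt_mem_nhds (lt_add_one _))
  filter_upwards [mem_nhdsWithin_of_mem_nhds h2, self_mem_nhdsWithin] with z hz hzp
  rw [hSe z hzp, hc0, zero_div, add_zero]
  exact hz.le

theorem removable {h f g : ℂ → ℂ} {p : ℂ} {r : ℝ} (hr : 0 < r)
    (hf : DifferentiableOn ℂ f (ball p r \ {p})) (hg : DifferentiableOn ℂ g (ball p r \ {p}))
    (hd : ∀ z ∈ ball p r \ {p}, HasFDerivAt h (lin (f z) (conj (g z))) z)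
    (hb : ∀ z ∈ ball p r \ {p}, ‖h z‖ ≤ 2) :
    (∃ B, ∀ᶠ z in 𝓝[≠] p, ‖f z‖ ≤ B) ∧ (∃ B, ∀ᶠ z in 𝓝[≠] p, ‖g z‖ ≤ B) := by
  obtain ⟨B₁, h₁⟩ := removable_re (P := fun z => f z + g z) hr (hf.add hg)
      (fun z hz => hasFDerivAt_re_lin (hd z hz)) fun z hz => (abs_re_le_norm _).trans (hb z hz)
  obtain ⟨B₂, h₂⟩ := removable_re (P := fun z => -I * (f z - g z)) hr ((hf.sub hg).const_mul _)
      (fun z hz => hasFDerivAt_im_lin (hd z hz)) fun z hz => (abs_im_le_norm _).trans (hb z hz)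
  have : ∀ᶠ z in 𝓝[≠] p, ‖f z‖ ≤ max B₁ B₂ ∧ ‖g z‖ ≤ max B₁ B₂ := by
    filter_upwards [h₁, h₂] with z h1 h2
    exact norm_le_of_add_sub (h1.trans (le_max_left _ _)) (h2.trans (le_max_right _ _))
  exact ⟨⟨_, this.mono fun z hz => hz.1⟩, ⟨_, this.mono fun z hz => hz.2⟩⟩

/-- Pointwise convergence of a locally equi-Lipschitz family is locally uniform. -/
theorem locUnif_of_lipschitz {ι : Type*} {l : Filter ι} [l.NeBot] {F : ι → ℂ → ℂ} {F₀ : ℂ → ℂ}
    {U : Set ℂ} (hpt : ∀ z ∈ U, Tendsto (fun n => F n z) l (𝓝 (F₀ z)))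
    (hlip : ∀ z ∈ U, ∃ r > 0, ∃ L, ball z r ⊆ U ∧ ∀ᶠ n in l, ∀ w ∈ ball z r,
      ‖F n w - F n z‖ ≤ L * ‖w - z‖) :
    TendstoLocallyUniformlyOn F F₀ l U := by
  rw [Metric.tendstoLocallyUniformlyOn_iff]
  intro ε hε z hz
  obtain ⟨r, hr, L, hU, hL⟩ := hlip z hz
  set δ := min r (ε / (4 * (|L| + 1))) with hδ
  have hδ0 : 0 < δ := by positivity
  have hLδ : ∀ w ∈ ball z δ, L * ‖w - z‖ ≤ ε / 4 := by
    intro w hw
    rw [mem_ball, dist_eq_norm] at hw
    have h1 : ‖w - z‖ ≤ ε / (4 * (|L| + 1)) := hw.le.trans (min_le_right _ _)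
    rw [le_div_iff₀ (by positivity)] at h1
    have := le_abs_self L
    have := norm_nonneg (w - z)
    nlinarith
  have hsub : ball z δ ⊆ ball z r := ball_subset_ball (min_le_left _ _)
  refine ⟨ball z δ, mem_nhdsWithin_of_mem_nhds (ball_mem_nhds z hδ0), ?_⟩
  have h0 : ∀ w ∈ ball z δ, ‖F₀ w - F₀ z‖ ≤ ε / 4 := by
    intro w hw
    refine le_of_tendsto ((hpt w (hU (hsub hw))).sub (hpt z hz)).norm ?_
    filter_upwards [hL] with n hn
    exact (hn w (hsub hw)).trans (hLδ w hw)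
  filter_upwards [hL, Metric.tendsto_nhds.1 (hpt z hz) (ε / 4) (by positivity)] with n hn hn' w hw
  rw [dist_eq_norm] at hn' ⊢
  have e : F₀ w - F n w = (F₀ w - F₀ z) - (F n z - F₀ z) - (F n w - F n z) := by ring
  rw [e]
  have := (hn w (hsub hw)).trans (hLδ w hw)
  have := h0 w hw
  calc _ ≤ ‖F₀ w - F₀ z‖ + ‖F n z - F₀ z‖ + ‖F n w - F n z‖ :=
        (norm_sub_le _ _).trans (by gcongr; exact norm_sub_le _ _)
    _ < ε := by linarith

theorem exists_ultra_lim {ι : Type*} (𝓤 : Ultrafilter ι) {F : ι → ℂ → ℂ} {U : Set ℂ}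
    (hb : ∀ z ∈ U, ∃ C, ∀ᶠ n in 𝓤, ‖F n z‖ ≤ C) :
    ∃ F₀ : ℂ → ℂ, ∀ z ∈ U, Tendsto (fun n => F n z) 𝓤 (𝓝 (F₀ z)) := by
  have : ∀ z, ∃ y, z ∈ U → Tendsto (fun n => F n z) 𝓤 (𝓝 y) := by
    intro z
    by_cases hz : z ∈ U
    · obtain ⟨C, hC⟩ := hb z hz
      obtain ⟨y, _, hy⟩ := (isCompact_closedBall (0 : ℂ) C).ultrafilter_le_nhds
        (𝓤.map fun n => F n z) (by
          rw [Ultrafilter.coe_map, le_principal_iff, mem_map]
          exact hC.mono fun n hn => mem_closedBall_zero_iff.2 hn)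
      exact ⟨y, fun _ => hy⟩
    · exact ⟨0, fun h => absurd h hz⟩
  choose F₀ hF₀ using this
  exact ⟨F₀, hF₀⟩

/-- Montel's theorem along an ultrafilter. -/
theorem montel {ι : Type*} (𝓤 : Ultrafilter ι) {F : ι → ℂ → ℂ} {U : Set ℂ}
    (H : ∀ z ∈ U, ∃ r > 0, ∃ C, ball z r ⊆ U ∧ ∀ᶠ n in 𝓤,
      DifferentiableOn ℂ (F n) (ball z r) ∧ ∀ w ∈ ball z r, ‖F n w‖ ≤ C) :
    ∃ F₀ : ℂ → ℂ, TendstoLocallyUniformlyOn F F₀ 𝓤 U ∧ DifferentiableOn ℂ F₀ U := by
  obtain ⟨F₀, hF₀⟩ := exists_ultra_lim 𝓤 (F := F) (U := U) (fun z hz => by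
    obtain ⟨r, hr, C, _, hC⟩ := H z hz
    exact ⟨C, hC.mono fun n hn => hn.2 z (mem_ball_self hr)⟩)
  have hconv : TendstoLocallyUniformlyOn F F₀ 𝓤 U := by
    refine locUnif_of_lipschitz hF₀ fun z hz => ?_
    obtain ⟨r, hr, C, hU, hC⟩ := H z hz
    refine ⟨r / 2, by positivity, C / (r / 4), (ball_subset_ball (by linarith)).trans hU, ?_⟩
    filter_upwards [hC] with n hn w hw
    have hsub : ball z (r / 2) ⊆ ball z r := ball_subset_ball (by linarith)
    refine (convex_ball z (r / 2)).norm_image_sub_le_of_norm_deriv_le (𝕜 := ℂ)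
      (fun y hy => hn.1.differentiableAt (isOpen_ball.mem_nhds (hsub hy))) (fun y hy => ?_)
      (mem_ball_self (by positivity)) hw
    have hsub2 : closedBall y (r / 4) ⊆ ball z r :=
      closedBall_subset_ball' (by rw [mem_ball] at hy; linarith)
    refine norm_deriv_le_of_forall_mem_sphere_norm_le (by positivity) ?_
      fun x hx => hn.2 x (hsub2 (sphere_subset_closedBall hx))
    refine DifferentiableOn.diffContOnCl ?_
    rw [closure_ball _ (by positivity)]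
    exact hn.1.mono hsub2
  refine ⟨F₀, hconv, fun z hz => ?_⟩
  obtain ⟨r, hr, C, hU, hC⟩ := H z hz
  have := (hconv.mono hU).differentiableOn (hC.mono fun n hn => hn.1) isOpen_ball
  exact (this.differentiableAt (ball_mem_nhds z hr)).differentiableWithinAt

end Pool.Agent.Lib.MP_e277cf_an
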