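import Pool.Agent.Lib.MP_e277cf_an.Compet

/-!
Inner variations that slide along circles centred at the origin.
-/

open MeasureTheory Set Metric Complex Filter Topology
open scoped ENNReal ContDiff NNReal ComplexConjugate

noncomputable section

namespace Pool.Agent.Lib.MP_e277cf_an

theorem inner_J {E u v : ℂ} (hE : ‖E‖ = 1) (huv : ‖u‖ = ‖v‖) (t : ℝ) :
    ‖E * (1 + t * u)‖ ^ 2 - ‖E * (t * v)‖ ^ 2 = 1 + 2 * t * u.re := by
  have h : ‖u‖ ^ 2 = ‖v‖ ^ 2 := by rw [huv]
  rw [norm_mul, norm_mul, hE, one_mul, one_mul]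
  simp only [Complex.sq_norm, normSq_apply] at h ⊢
  simp
  linear_combination t ^ 2 * h

theorem inner_N (f m α β : ℂ) :
    ‖f * conj α - m * conj β‖ ^ 2 + ‖m * α - f * β‖ ^ 2 =
      (‖f‖ ^ 2 + ‖m‖ ^ 2) * (‖α‖ ^ 2 + ‖β‖ ^ 2) - 4 * (f * conj m * (conj α * β)).re := by
  simp only [Complex.sq_norm, normSq_apply]
  simp
  ring

theorem inner_alg {f m E u v : ℂ} {t M : ℝ} (hE : ‖E‖ = 1) (huv : ‖u‖ = ‖v‖) (hM : ‖v‖ ≤ M)
    (ht : |t| * M ≤ 1 / 4) {α β : ℂ} (hα : α = E * (1 + t * u)) (hβ : β = E * (t * v)) {J : ℝ}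
    (hJ : J = 1 + 2 * t * u.re) :
    J * (2 * (‖f * (conj α / J) + m * conj (-β / J)‖ ^ 2 +
        ‖f * (-β / J) + m * conj (conj α / J)‖ ^ 2)) ≤
      2 * (‖f‖ ^ 2 + ‖m‖ ^ 2) + (-8 * (f * conj m * v).re) * t +
        16 * M ^ 2 * (2 * (‖f‖ ^ 2 + ‖m‖ ^ 2)) * t ^ 2 := by
  have hM0 : 0 ≤ M := (norm_nonneg _).trans hM
  have hure : |u.re| ≤ M := (abs_re_le_norm u).trans (huv ▸ hM)
  have hJ2 : 1 / 2 ≤ J := by
    have : |t * u.re| ≤ 1 / 4 := by
      rw [abs_mul]
      exact le_trans (by gcongr) ht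
    have := (abs_le.1 this).1
    rw [hJ]; linarith
  have hJ0 : 0 < J := by linarith
  have hJc : (J : ℂ) ≠ 0 := by exact_mod_cast hJ0.ne'
  have e1 : f * (conj α / J) + m * conj (-β / J) = (f * conj α - m * conj β) / J := by
    simp only [map_div₀, map_neg, conj_ofReal]; ring
  have e2 : f * (-β / J) + m * conj (conj α / J) = (m * α - f * β) / J := by
    simp only [map_div₀, conj_conj, conj_ofReal]; ring
  rw [e1, e2, norm_div, norm_div, div_pow, div_pow, ← add_div, inner_N, norm_real,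
    Real.norm_eq_abs, sq_abs]
  set e := ‖f‖ ^ 2 + ‖m‖ ^ 2 with he
  have hEE : conj E * E = 1 := by
    rw [mul_comm, Complex.mul_conj, Complex.normSq_eq_norm_sq, hE]; simp
  have hαβ : conj α * β = t * v + t ^ 2 * (conj u * v) := by
    rw [hα, hβ]
    simp only [map_mul, map_add, map_one, conj_ofReal]
    linear_combination (t * v + t ^ 2 * (conj u * v)) * hEE
  have hJJ : ‖α‖ ^ 2 - ‖β‖ ^ 2 = J := by rw [hα, hβ, hJ]; exact inner_J hE huv t
  have hβ2 : ‖β‖ ^ 2 = t ^ 2 * ‖v‖ ^ 2 := by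
    rw [hβ, norm_mul, norm_mul, hE, one_mul, norm_real, Real.norm_eq_abs, mul_pow, sq_abs]
  have hsum : ‖α‖ ^ 2 + ‖β‖ ^ 2 = J + 2 * (t ^ 2 * ‖v‖ ^ 2) := by linarith
  set φ := f * conj m with hφ
  have hφn : ‖φ‖ ≤ e / 2 := by
    rw [hφ, norm_mul, Complex.norm_conj, he]
    nlinarith [sq_nonneg (‖f‖ - ‖m‖)]
  have he0 : 0 ≤ e := by positivity
  have hre : (φ * (conj α * β)).re = t * (φ * v).re + t ^ 2 * (φ * (conj u * v)).re := by
    rw [hαβ]
    have : φ * (t * v + t ^ 2 * (conj u * v)) =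
        (t : ℂ) * (φ * v) + ((t ^ 2 : ℝ) : ℂ) * (φ * (conj u * v)) := by push_cast; ring
    rw [this, add_re, re_ofReal_mul, re_ofReal_mul]
  have b1 : |(φ * v).re| ≤ e / 2 * M := by
    refine (abs_re_le_norm _).trans ?_
    rw [norm_mul]; gcongr
  have b2 : |(φ * (conj u * v)).re| ≤ e / 2 * (M * M) := by
    refine (abs_re_le_norm _).trans ?_
    rw [norm_mul φ, norm_mul (conj u), Complex.norm_conj, huv]; gcongr
  have b3 : |u.re * (φ * v).re| ≤ M * (e / 2 * M) := by
    rw [abs_mul]; gcongr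
  have b4 : ‖v‖ ^ 2 ≤ M ^ 2 := by gcongr
  rw [hsum, hre]
  have e3 : J * (2 * ((e * (J + 2 * (t ^ 2 * ‖v‖ ^ 2)) -
      4 * (t * (φ * v).re + t ^ 2 * (φ * (conj u * v)).re)) / J ^ 2)) =
      2 * (e * (J + 2 * (t ^ 2 * ‖v‖ ^ 2)) -
      4 * (t * (φ * v).re + t ^ 2 * (φ * (conj u * v)).re)) / J := by
    field_simp
  rw [e3, div_le_iff₀ hJ0]
  have k1 : 4 * e * ‖v‖ ^ 2 - 8 * (φ * (conj u * v)).re + 16 * (u.re * (φ * v).re) ≤
      32 * M ^ 2 * e * J := by
    have := (abs_le.1 b2).1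
    have := (abs_le.1 b3).2
    have h5 : e * ‖v‖ ^ 2 ≤ e * M ^ 2 := by gcongr
    have h6 : M ^ 2 * e * (1 / 2) ≤ M ^ 2 * e * J := by gcongr
    nlinarith
  have k2 := mul_le_mul_of_nonneg_left k1 (sq_nonneg t)
  have k3 : J * (φ * v).re * t = (φ * v).re * t + 2 * t ^ 2 * (u.re * (φ * v).re) := by
    rw [hJ]; ring
  linarith

theorem hasFDerivAt_twist {l : ℂ → ℝ} {z : ℂ} (hl : DifferentiableAt ℝ l z) (t : ℝ) :
    HasFDerivAt (fun z => z * cexp (I * ((t * l z : ℝ) : ℂ)))
      (lin (cexp (I * ((t * l z : ℝ) : ℂ)) *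
          (1 + t * (I * z * ((fderiv ℝ l z 1 - I * fderiv ℝ l z I) / 2))))
        (cexp (I * ((t * l z : ℝ) : ℂ)) *
          (t * (I * z * ((fderiv ℝ l z 1 + I * fderiv ℝ l z I) / 2))))) z := by
  have h1 : HasFDerivAt (fun z => ((t * l z : ℝ) : ℂ)) (ofRealCLM.comp (t • fderiv ℝ l z)) z :=
    ofRealCLM.hasFDerivAt.comp z (hl.hasFDerivAt.const_mul t)
  have h2 := (hasFDerivAt_id z).mul ((h1.const_mul I).cexp)
  refine h2.congr_fderiv ?_
  ext v
  have hv : fderiv ℝ l z v = v.re * fderiv ℝ l z 1 + v.im * fderiv ℝ l z I := by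
    have : v = v.re • (1 : ℂ) + v.im • I := by
      apply Complex.ext <;> simp
    conv_lhs => rw [this]
    rw [map_add, map_smul, map_smul, smul_eq_mul, smul_eq_mul]
  have hv1 : v = v.re + v.im * I := (re_add_im v).symm
  have hv2 : conj v = v.re - v.im * I := by
    apply Complex.ext <;> simp
  simp only [add_apply, smul_apply, ContinuousLinearMap.comp_apply, lin_apply, hv, hv2,
    ofRealCLM_apply, ContinuousLinearMap.id_apply, id, smul_eq_mul]
  push_cast
  set E := cexp (I * (t * l z))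
  set a : ℂ := (v.re : ℂ)
  set b : ℂ := (v.im : ℂ)
  rw [hv1]
  linear_combination (E * t * I * z * b * (fderiv ℝ l z I : ℝ)) * I_mul_I

theorem inner_variation {Ω Ω' : Set ℂ} (hΩ : IsOpen Ω) {h k : ℂ → ℂ}
    (H : IsMinimal Ω Ω' h k) {l : ℂ → ℝ} (hl : ContDiff ℝ 1 l) (hc : HasCompactSupport l)
    {ρ : ℝ} (hρ : ∀ z, l z ≠ 0 → ρ < ‖z‖) (hA : ∀ z, ρ < ‖z‖ → (z ∈ Ω ↔ ‖z‖ < 1)) :
    IntegrableOn (fun z => dz (fderiv ℝ h z) * conj (dzb (fderiv ℝ h z)) *
      (I * z * ((fderiv ℝ l z 1 + I * fderiv ℝ l z I) / 2))) Ω ∧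
    (∫ z in Ω, dz (fderiv ℝ h z) * conj (dzb (fderiv ℝ h z)) *
      (I * z * ((fderiv ℝ l z 1 + I * fderiv ℝ l z I) / 2))).re = 0 := by
  set u : ℂ → ℂ := fun z => I * z * ((fderiv ℝ l z 1 - I * fderiv ℝ l z I) / 2) with hu
  set v : ℂ → ℂ := fun z => I * z * ((fderiv ℝ l z 1 + I * fderiv ℝ l z I) / 2) with hv
  set f : ℂ → ℂ := fun z => dz (fderiv ℝ h z) with hf
  set m : ℂ → ℂ := fun z => dzb (fderiv ℝ h z) with hm
  have hl' : ∀ w, Continuous (fun z => fderiv ℝ l z w) := fun w =>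
    (hl.continuous_fderiv one_ne_zero).clm_apply continuous_const
  have hld : Differentiable ℝ l := hl.differentiable one_ne_zero
  have hvc : Continuous v := by
    have := hl' 1; have := hl' I
    rw [hv]; fun_prop
  have huc : Continuous u := by
    have := hl' 1; have := hl' I
    rw [hu]; fun_prop
  have huv : ∀ z, ‖u z‖ = ‖v z‖ := by
    intro z
    have : ((fderiv ℝ l z 1 : ℂ) - I * fderiv ℝ l z I) =
        conj ((fderiv ℝ l z 1 : ℂ) + I * fderiv ℝ l z I) := by
      simp [sub_eq_add_neg]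
    simp only [hu, hv, norm_mul, norm_div, this, Complex.norm_conj]
  have hvs : HasCompactSupport v := by
    refine HasCompactSupport.intro hc fun z hz => ?_
    have h1 : ∀ w, fderiv ℝ l z w = 0 := fun w => image_eq_zero_of_notMem_tsupport
        (f := fun z => fderiv ℝ l z w) (fun h => hz (tsupport_fderiv_apply_subset' l w h))
    simp [hv, h1]
  obtain ⟨M₁, hM₁⟩ := hvc.bounded_above_of_compact_support hvs
  obtain ⟨M₂, hM₂⟩ := hl.continuous.bounded_above_of_compact_support hc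
  set M := max (max M₁ M₂) 1 with hM
  have hMpos : 0 < M := by positivity
  have hvM : ∀ z, ‖v z‖ ≤ M := fun z => (hM₁ z).trans ((le_max_left _ _).trans (le_max_left _ _))
  have hlM : ∀ z, |l z| ≤ M := fun z => (hM₂ z).trans ((le_max_right _ _).trans (le_max_left _ _))
  have hd := continuousOn_fderiv_of hΩ H.cd
  have hfc : ContinuousOn f Ω := continuous_dz.comp_continuousOn hd
  have hmc : ContinuousOn m Ω := continuous_dzb.comp_continuousOn hd
  have hdens : ∀ z, dens h z = 2 * (‖f z‖ ^ 2 + ‖m z‖ ^ 2) := fun z => hs_eq _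
  have hPc : ContinuousOn (fun z => f z * conj (m z) * v z) Ω :=
    (hfc.mul (continuous_conj.comp_continuousOn hmc)).mul hvc.continuousOn
  have hPi : IntegrableOn (fun z => f z * conj (m z) * v z) Ω := by
    refine Integrable.mono' (H.int.mul_const M) (hPc.aestronglyMeasurable hΩ.measurableSet)
      (Eventually.of_forall fun z => ?_)
    rw [norm_mul, norm_mul, Complex.norm_conj, hdens]
    have := hvM z
    have h2 : ‖f z‖ * ‖m z‖ ≤ 2 * (‖f z‖ ^ 2 + ‖m z‖ ^ 2) := by
      nlinarith [sq_nonneg (‖f z‖ - ‖m z‖), norm_nonneg (f z), norm_nonneg (m z)]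
    gcongr
  refine ⟨hPi, ?_⟩
  suffices key : -8 * (∫ z in Ω, f z * conj (m z) * v z).re = 0 by linarith
  refine eq_zero_of_quadratic (b := 16 * M ^ 2 * ∫ z in Ω, dens h z) (δ := 1 / (6 * M))
    (by positivity) fun t ht => ?_
  rw [lt_div_iff₀ (by positivity)] at ht
  set E : ℂ → ℂ := fun z => cexp (I * ((t * l z : ℝ) : ℂ)) with hE
  have hE1 : ∀ z, ‖E z‖ = 1 := fun z => by
    rw [hE]; exact norm_exp_I_mul_ofReal _
  have hEc : ContDiff ℝ 1 E := by
    rw [hE]
    exact (contDiff_const.mul (ofRealCLM.contDiff.comp (contDiff_const.mul hl))).cexp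
  set α : ℂ → ℂ := fun z => E z * (1 + t * u z) with hα
  set β : ℂ → ℂ := fun z => E z * (t * v z) with hβ
  set J : ℂ → ℝ := fun z => 1 + 2 * t * (u z).re with hJ
  have hT0 : ∀ z, HasFDerivAt (fun z => z * E z) (lin (α z) (β z)) z := fun z =>
    hasFDerivAt_twist (hld z) t
  have hψ : ∀ z, HasFDerivAt (fun z => z * E z - z) (lin (α z - 1) (β z)) z := by
    intro z
    refine ((hT0 z).sub (hasFDerivAt_id z)).congr_fderiv ?_
    ext w
    simp
    ring
  have hlip : LipschitzWith (1 / 2 : ℝ≥0) (fun z => z * E z - z) := by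
    refine lipschitz_of_fderiv_bound (fun z => (hψ z).differentiableAt) fun z => ?_
    rw [(hψ z).fderiv]
    refine (norm_lin_le _ _).trans ?_
    have e1 : α z - 1 = (E z - 1) + E z * (t * u z) := by rw [hα]; ring
    have e2 : ‖E z - 1‖ ≤ |t| * M := by
      refine (Real.norm_exp_I_mul_ofReal_sub_one_le).trans ?_
      rw [Real.norm_eq_abs, abs_mul]
      have := hlM z
      gcongr
    have e3 : ‖E z * (t * u z)‖ ≤ |t| * M := by
      rw [norm_mul, norm_mul, hE1, one_mul, norm_real, Real.norm_eq_abs, huv]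
      have := hvM z
      gcongr
    have e4 : ‖β z‖ ≤ |t| * M := by
      rw [hβ]
      simp only
      rw [norm_mul, norm_mul, hE1, one_mul, norm_real, Real.norm_eq_abs]
      have := hvM z
      gcongr
    have e5 : ‖α z - 1‖ ≤ |t| * M + |t| * M := by
      rw [e1]; exact (norm_add_le _ _).trans (add_le_add e2 e3)
    push_cast
    linarith
  obtain ⟨T, hT⟩ := exists_homeo_of_lipschitz (by norm_num) hlip
  have hTeq : (T : ℂ → ℂ) = fun z => z * E z := by
    ext z; rw [hT]; ring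
  have hTd : ∀ z, HasFDerivAt T (lin (α z) (β z)) z := by rw [hTeq]; exact hT0
  have hTc : ContDiff ℝ 1 T := by rw [hTeq]; exact contDiff_id.mul hEc
  have hTmem : ∀ z, T z ∈ Ω ↔ z ∈ Ω := by
    intro z
    by_cases hz : l z = 0
    · simp [hTeq, hE, hz]
    · have h1 : ‖T z‖ = ‖z‖ := by rw [hTeq]; simp only; rw [norm_mul, hE1, mul_one]
      rw [hA z (hρ z hz), hA (T z) (h1 ▸ hρ z hz), h1]
  have hSmem : ∀ w, T.symm w ∈ Ω ↔ w ∈ Ω := by
    intro w
    rw [← hTmem, T.apply_symm_apply]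
  have hJeq : ∀ z, ‖α z‖ ^ 2 - ‖β z‖ ^ 2 = J z := fun z => inner_J (hE1 z) (huv z) t
  have htM : |t| * M ≤ 1 / 4 := by linarith
  have hJpos : ∀ z, 0 < J z := by
    intro z
    have hure : |(u z).re| ≤ M := (abs_re_le_norm _).trans (huv z ▸ hvM z)
    have : |t * (u z).re| ≤ 1 / 4 := by
      rw [abs_mul]
      exact le_trans (by gcongr) htM
    have := (abs_le.1 this).1
    rw [hJ]; simp only; linarith
  have hJc : ∀ z, (J z : ℂ) = α z * conj (α z) - β z * conj (β z) := by
    intro z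
    rw [← hJeq, Complex.mul_conj, Complex.mul_conj, Complex.normSq_eq_norm_sq,
      Complex.normSq_eq_norm_sq]
    push_cast; ring
  have hJne : ∀ z, (J z : ℂ) ≠ 0 := fun z => by exact_mod_cast (hJpos z).ne'
  let e : ℂ → ℂ ≃L[ℝ] ℂ := fun z =>
    ContinuousLinearEquiv.equivOfInverse (lin (α z) (β z))
      (lin (conj (α z) / J z) (-β z / J z))
      (fun w => by
        have := hJc z
        have := hJne z
        simp only [lin_apply, map_add, map_mul, conj_conj]
        field_simp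
        linear_combination (-w) * hJc z)
      (fun w => by
        have := hJc z
        have := hJne z
        simp only [lin_apply, map_add, map_mul, conj_conj, map_div₀, map_neg, conj_ofReal]
        field_simp
        linear_combination (-w) * hJc z)
  have hSc : ContDiff ℝ 1 T.symm := T.contDiff_symm (f₀' := e) (fun z => hTd z) hTc
  have hSd : ∀ z, HasFDerivAt T.symm (lin (conj (α z) / J z) (-β z / J z)) (T z) := by
    intro z
    have h1 : HasFDerivAt T (e z : ℂ →L[ℝ] ℂ) (T.symm (T z)) := by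
      rw [T.symm_apply_apply]; exact hTd z
    exact HasFDerivAt.of_local_left_inverse T.symm.continuous.continuousAt h1
      (Eventually.of_forall T.apply_symm_apply)
  set h' : ℂ → ℂ := fun w => h (T.symm w) with hh'
  have hho : IsHomeoOnto Ω Ω' h' := by
    refine isHomeoOnto_of (k := fun w => T (k w)) ?_ ?_ ?_ ?_ ⟨?_, ?_⟩
    · exact H.cd.continuousOn.comp T.symm.continuous.continuousOn fun w hw => (hSmem w).2 hw
    · exact T.continuous.comp_continuousOn H.cd'.continuousOn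
    · exact fun w hw => H.maps ((hSmem w).2 hw)
    · exact fun w hw => (hTmem _).2 (H.maps' hw)
    · intro w hw
      simp only [hh']
      rw [H.inv.1 ((hSmem w).2 hw), T.apply_symm_apply]
    · intro w hw
      simp only [hh']
      rw [T.symm_apply_apply, H.inv.2 hw]
  have hcd' : ContDiffOn ℝ 1 h' Ω := H.cd.comp hSc.contDiffOn fun w hw => (hSmem w).2 hw
  have himg : T '' Ω = Ω := by
    ext w
    constructor
    · rintro ⟨z, hz, rfl⟩; exact (hTmem z).2 hz
    · intro hw; exact ⟨T.symm w, (hSmem w).2 hw, T.apply_symm_apply w⟩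
  set G : ℂ → ℝ := fun z => |(lin (α z) (β z)).det| • dens h' (T z) with hG
  set B : ℂ → ℝ := fun z => dens h z + (-8 * (f z * conj (m z) * v z).re) * t +
    16 * M ^ 2 * dens h z * t ^ 2 with hB
  have hGB : ∀ z ∈ Ω, G z ≤ B z := by
    intro z hz
    have h1 : HasFDerivAt h (lin (f z) (m z)) (T.symm (T z)) := by
      rw [T.symm_apply_apply, hf, hm, lin_dz_dzb]
      exact (differentiableAt_of hΩ H.cd hz).hasFDerivAt
    have h2 : HasFDerivAt h' _ (T z) := h1.comp (T z) (hSd z)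
    rw [lin_comp] at h2
    simp only [hG, hB, det_lin, hJeq, abs_of_pos (hJpos z), smul_eq_mul, hdens]
    rw [dens, h2.fderiv, hs_lin]
    exact inner_alg (hE1 z) (huv z) (hvM z) htM rfl rfl rfl
  have hB1 : IntegrableOn (fun z => (-8 * (f z * conj (m z) * v z).re) * t) Ω :=
    (hPi.re.const_mul (-8)).mul_const t
  have hB2 : IntegrableOn (fun z => 16 * M ^ 2 * dens h z * t ^ 2) Ω :=
    (H.int.const_mul _).mul_const _
  have hB0 : IntegrableOn (fun z => dens h z + (-8 * (f z * conj (m z) * v z).re) * t) Ω :=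
    H.int.add hB1
  have hBi : IntegrableOn B Ω := hB0.add hB2
  have hGc : ContinuousOn G Ω := by
    have h1 : ContinuousOn (fun z => dens h' (T z)) Ω :=
      (continuousOn_dens hΩ hcd').comp T.continuous.continuousOn fun z hz => (hTmem z).2 hz
    have h2 : Continuous J := by rw [hJ]; fun_prop
    have : G = fun z => |J z| * dens h' (T z) := by
      ext z; simp only [hG, det_lin, hJeq, smul_eq_mul]
    rw [this]
    exact h2.abs.continuousOn.mul h1
  have hGi : IntegrableOn G Ω := by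
    refine Integrable.mono' hBi (hGc.aestronglyMeasurable hΩ.measurableSet) ?_
    refine (ae_restrict_iff' hΩ.measurableSet).2 (Eventually.of_forall fun z hz => ?_)
    have hG0 : 0 ≤ G z := mul_nonneg (abs_nonneg _) (dens_nonneg _ _)
    rw [Real.norm_of_nonneg hG0]
    exact hGB z hz
  have hinj : InjOn T Ω := T.injective.injOn
  have hi' : IntegrableOn (dens h') Ω := by
    have := (integrableOn_image_iff_integrableOn_abs_det_fderiv_smul volume hΩ.measurableSet
      (fun z _ => (hTd z).hasFDerivWithinAt) hinj (dens h')).2 hGi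
    rwa [himg] at this
  have hint : ∫ z in Ω, dens h' z = ∫ z in Ω, G z := by
    have := integral_image_eq_integral_abs_det_fderiv_smul volume hΩ.measurableSet
      (fun z _ => (hTd z).hasFDerivWithinAt) hinj (dens h')
    rwa [himg] at this
  have hle := H.le h' hho hcd' hi' (by
    have m : ∀ q : ℝ × ℂ, q.2 ∈ Ω →
        T.symm q.2 * cexp (I * (((1 - q.1) * (t * l (T.symm q.2)) : ℝ) : ℂ)) ∈ Ω := by
      intro q hq
      have h0 := (hSmem _).2 hq
      by_cases hz : l (T.symm q.2) = 0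
      · simpa [hz] using h0
      · have h1 := hρ _ hz
        rw [hA _ (by rwa [norm_mul, norm_exp_I_mul_ofReal, mul_one]), norm_mul,
          norm_exp_I_mul_ofReal, mul_one]
        exact (hA _ h1).1 h0
    have c := hl.continuous
    refine ⟨fun q => h (T.symm q.2 * cexp (I * (((1 - q.1) * (t * l (T.symm q.2)) : ℝ) : ℂ))),
      H.cd.continuousOn.comp (Continuous.continuousOn (by fun_prop)) fun q hq => m q hq.2,
      fun q hq => H.maps (m q hq.2), fun z _ => congrArg h ?_, fun z _ => by simp [hh']⟩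
    rw [sub_zero, one_mul]
    exact (congrFun hTeq _).symm.trans (T.apply_symm_apply z))
  have hle2 : ∫ z in Ω, G z ≤ ∫ z in Ω, B z := setIntegral_mono_on hGi hBi hΩ.measurableSet hGB
  have hBval : ∫ z in Ω, B z = (∫ z in Ω, dens h z) +
      (-8 * (∫ z in Ω, f z * conj (m z) * v z).re) * t +
      16 * M ^ 2 * (∫ z in Ω, dens h z) * t ^ 2 := by
    rw [hB, integral_add hB0 hB2, integral_add H.int hB1, integral_mul_const, integral_mul_const,
      integral_const_mul, integral_const_mul]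
    have := integral_re hPi
    simp only [RCLike.re_to_complex] at this
    rw [this]
  linarith

end Pool.Agent.Lib.MP_e277cf_an
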