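import Pool.Agent.Lib.MP_e277cf_an.Polar

/-!
A minimum principle for `log |h|^2` when the Hopf differential is small.
-/

open Set Metric Complex Filter Topology
open scoped ComplexConjugate

noncomputable section

namespace Pool.Agent.Lib.MP_e277cf_an

theorem second_deriv_nonneg {φ φ₁ : ℝ → ℝ} {a : ℝ} (hmin : IsLocalMin φ 0)
    (h1 : ∀ᶠ t in 𝓝 0, HasDerivAt φ (φ₁ t) t) (h2 : HasDerivAt φ₁ a 0) : 0 ≤ a := by
  by_contra ha
  push Not at ha
  have e1 : deriv φ =ᶠ[𝓝 0] φ₁ := h1.mono fun t ht => ht.deriv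
  have e2 : deriv (deriv φ) 0 = a := by rw [e1.deriv_eq, h2.deriv]
  have hmax : IsLocalMax φ 0 := isLocalMax_of_deriv_deriv_neg (e2 ▸ ha) hmin.deriv_eq_zero
    h1.self_of_nhds.continuousAt
  have e3 : φ =ᶠ[𝓝 0] fun _ => φ 0 := by
    filter_upwards [hmin, hmax] with t h3 h4 using le_antisymm h4 h3
  have e4 : deriv φ =ᶠ[𝓝 0] fun _ => 0 := by
    filter_upwards [e3.deriv] with t ht
    rw [ht, deriv_const]
  rw [e4.deriv_eq, deriv_const] at e2
  exact ha.ne' e2

theorem hasDerivAt_normSq_comp {H : ℝ → ℂ} {H1 : ℂ} {t : ℝ} (h : HasDerivAt H H1 t) :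
    HasDerivAt (fun t => normSq (H t)) (2 * (H1 * conj (H t)).re) t := by
  have hre : HasDerivAt (fun t => (H t).re) H1.re t := reCLM.hasFDerivAt.comp_hasDerivAt t h
  have him : HasDerivAt (fun t => (H t).im) H1.im t := imCLM.hasFDerivAt.comp_hasDerivAt t h
  have : (fun t => normSq (H t)) = fun t => (H t).re * (H t).re + (H t).im * (H t).im := by
    ext t; rw [normSq_apply]
  rw [this]
  refine ((hre.mul hre).add (him.mul him)).congr_deriv ?_
  simp
  ring

theorem hasDerivAt_log_normSq {H : ℝ → ℂ} {H1 : ℂ} {t : ℝ} (h : HasDerivAt H H1 t)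
    (h0 : H t ≠ 0) : HasDerivAt (fun t => Real.log (normSq (H t))) (2 * (H1 / H t).re) t := by
  have hn : normSq (H t) ≠ 0 := by simpa using h0
  refine ((hasDerivAt_normSq_comp h).log hn).congr_deriv ?_
  rw [div_re]
  simp
  field_simp

theorem hasDerivAt_log_normSq_two {H H1 : ℝ → ℂ} {H2 : ℂ} (h : HasDerivAt H (H1 0) 0)
    (h2 : HasDerivAt H1 H2 0) (h0 : H 0 ≠ 0) :
    HasDerivAt (fun t => 2 * (H1 t / H t).re) (2 * (H2 / H 0 - (H1 0 / H 0) ^ 2).re) 0 := by
  have h3 := reCLM.hasFDerivAt.comp_hasDerivAt 0 (h2.div h h0)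
  refine (h3.const_mul 2).congr_deriv ?_
  simp only [reCLM_apply]
  congr 2
  field_simp

theorem line_hasDerivAt (z e : ℂ) (t : ℝ) : HasDerivAt (fun t : ℝ => z + t * e) e t := by
  simpa using ((hasDerivAt_id t).ofReal_comp.mul_const e).const_add z

theorem min_principle {h f g : ℂ → ℂ} {δ κ κ' M : ℝ} (hδ : 0 < δ)
    (hf : DifferentiableOn ℂ f ann) (hg : DifferentiableOn ℂ g ann)
    (hd : ∀ z ∈ ann, HasFDerivAt h (lin (f z) (conj (g z))) z)
    (hlow : ∀ z, 3 / 4 ≤ ‖z‖ → ‖z‖ < 1 → δ ≤ ‖h z‖)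
    (hκ : ∀ z, 3 / 4 ≤ ‖z‖ → ‖z‖ < 1 → ‖f z * g z‖ ≤ κ) (hκ' : 2 * κ < κ' * δ ^ 2)
    (hout : ∀ η > 0, ∃ s > 0, ∀ z, 1 - s < ‖z‖ → ‖z‖ < 1 → 2 - η < ‖h z‖)
    (hM0 : 0 ≤ M) (hM : Real.log 4 + M * Real.log (9 / 16) ≤ Real.log (δ ^ 2))
    {z₀ : ℂ} (hz1 : 3 / 4 ≤ ‖z₀‖) (hz2 : ‖z₀‖ < 1) :
    Real.log 4 + M * Real.log (normSq z₀) - κ' ≤ Real.log (normSq (h z₀)) := by
  set w : ℂ → ℝ := fun z => Real.log (normSq (h z)) - Real.log 4 - M * Real.log (normSq z) +
    κ' * (1 - normSq z) with hw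
  have hκ0 : 0 ≤ κ := (norm_nonneg _).trans (hκ z₀ hz1 hz2)
  have hκ'0 : 0 < κ' := by
    by_contra h
    push Not at h
    nlinarith [sq_nonneg δ]
  suffices key : 0 ≤ w z₀ by
    have : κ' * (1 - normSq z₀) ≤ κ' := by nlinarith [normSq_nonneg z₀]
    simp only [hw] at key
    linarith
  by_contra hneg
  push Not at hneg
  have hmem : ∀ z, 3 / 4 ≤ ‖z‖ → ‖z‖ < 1 → z ∈ ann := fun z h1 h2 => ⟨by linarith, h2⟩
  have hne : ∀ z, 3 / 4 ≤ ‖z‖ → ‖z‖ < 1 → h z ≠ 0 := fun z h1 h2 =>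
    norm_pos_iff.1 (hδ.trans_le (hlow z h1 h2))
  have hterm : ∀ z, 3 / 4 ≤ ‖z‖ → ‖z‖ < 1 → 0 ≤ -M * Real.log (normSq z) ∧
      0 ≤ κ' * (1 - normSq z) := by
    intro z h1 h2
    have h3 : normSq z ≤ 1 := by rw [Complex.normSq_eq_norm_sq]; nlinarith [norm_nonneg z]
    have h4 := Real.log_nonpos (normSq_nonneg z) h3
    constructor
    · nlinarith
    · exact mul_nonneg hκ'0.le (by linarith)
  set a := Real.exp (w z₀ / 2) with ha
  have ha1 : a < 1 := by rw [ha, Real.exp_lt_one_iff]; linarith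
  have ha0 : 0 < a := Real.exp_pos _
  obtain ⟨s, hs, hsout⟩ := hout (2 - 2 * a) (by linarith)
  obtain ⟨R, hR1, hR2⟩ := exists_between (max_lt hz2 (show 1 - s < 1 by linarith))
  have hRz : ‖z₀‖ < R := (le_max_left _ _).trans_lt hR1
  have hRs : 1 - s < R := (le_max_right _ _).trans_lt hR1
  set S : Set ℂ := closedBall 0 R \ ball 0 (3 / 4) with hS
  have hSc : IsCompact S := (isCompact_closedBall _ _).diff isOpen_ball
  have hSm : ∀ z, z ∈ S ↔ 3 / 4 ≤ ‖z‖ ∧ ‖z‖ ≤ R := by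
    intro z
    simp only [hS, Set.mem_sdiff, mem_closedBall_zero_iff, mem_ball_zero_iff, not_lt]
    tauto
  have hwc : ContinuousOn w S := by
    intro z hz
    obtain ⟨h1, h2⟩ := (hSm z).1 hz
    have h3 : ‖z‖ < 1 := by linarith
    have hc : ContinuousAt h z := (hd z (hmem z h1 h3)).continuousAt
    have hn1 : normSq (h z) ≠ 0 := by simpa using hne z h1 h3
    have hn2 : normSq z ≠ 0 := by simpa using ne_zero_of_mem_ann (hmem z h1 h3)
    refine ContinuousAt.continuousWithinAt ?_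
    have c1 : ContinuousAt (fun z => Real.log (normSq (h z))) z :=
      (continuous_normSq.continuousAt.comp hc).log hn1
    have c2 : ContinuousAt (fun z : ℂ => Real.log (normSq z)) z :=
      continuous_normSq.continuousAt.log hn2
    exact ((c1.sub continuousAt_const).sub (c2.const_mul M)).add
      ((continuousAt_const.sub continuous_normSq.continuousAt).const_mul κ')
  obtain ⟨z₁, hz₁S, hmin⟩ := hSc.exists_isMinOn ⟨z₀, (hSm z₀).2 ⟨hz1, hRz.le⟩⟩ hwc
  have hw1 : w z₁ ≤ w z₀ := hmin ((hSm z₀).2 ⟨hz1, hRz.le⟩)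
  obtain ⟨h1, h2⟩ := (hSm z₁).1 hz₁S
  have h3 : ‖z₁‖ < 1 := by linarith
  have hin1 : 3 / 4 < ‖z₁‖ := by
    refine lt_of_le_of_ne h1 fun he => ?_
    have e1 : normSq z₁ = 9 / 16 := by rw [Complex.normSq_eq_norm_sq, ← he]; norm_num
    have e2 : Real.log (δ ^ 2) ≤ Real.log (normSq (h z₁)) := by
      refine Real.log_le_log (by positivity) ?_
      rw [Complex.normSq_eq_norm_sq]
      have := hlow z₁ h1 h3
      gcongr
    have := (hterm z₁ h1 h3).2
    have : 0 ≤ w z₁ := by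
      simp only [hw]
      rw [e1] at this ⊢
      linarith
    linarith
  have hin2 : ‖z₁‖ < R := by
    refine lt_of_le_of_ne h2 fun he => ?_
    have e1 := hsout z₁ (he ▸ hRs) h3
    have e2 : Real.log 4 + w z₀ < Real.log (normSq (h z₁)) := by
      have e3 : Real.log 4 + w z₀ = Real.log ((2 * a) ^ 2) := by
        rw [mul_pow, Real.log_mul (by norm_num) (by positivity), Real.log_pow a, ha, Real.log_exp]
        norm_num
        ring
      rw [e3]
      refine Real.log_lt_log (by positivity) ?_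
      rw [Complex.normSq_eq_norm_sq]
      gcongr
      linarith
    obtain ⟨t1, t2⟩ := hterm z₁ h1 h3
    have : w z₀ < w z₁ := by
      simp only [hw] at e2 ⊢
      linarith
    linarith
  have hSn : S ∈ 𝓝 z₁ := by
    have : {z : ℂ | 3 / 4 < ‖z‖ ∧ ‖z‖ < R} ∈ 𝓝 z₁ :=
      ((isOpen_lt continuous_const continuous_norm).inter
        (isOpen_lt continuous_norm continuous_const)).mem_nhds ⟨hin1, hin2⟩
    exact mem_of_superset this fun z hz => (hSm z).2 ⟨hz.1.le, hz.2.le⟩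
  have hlmin : IsLocalMin w z₁ := hmin.isLocalMin hSn
  have hz₁a : z₁ ∈ ann := hmem z₁ h1 h3
  have hz₁0 : z₁ ≠ 0 := ne_zero_of_mem_ann hz₁a
  have hh0 : h z₁ ≠ 0 := hne z₁ h1 h3
  have hf' := (hf.differentiableAt (isOpen_ann.mem_nhds hz₁a)).hasDerivAt
  have hg' := (hg.differentiableAt (isOpen_ann.mem_nhds hz₁a)).hasDerivAt
  have dir : ∀ e : ℂ, 0 ≤ 2 * ((deriv f z₁ * e * e + conj (deriv g z₁ * e) * conj e) / h z₁ -
      ((f z₁ * e + conj (g z₁) * conj e) / h z₁) ^ 2).re - M * (2 * (0 / z₁ - (e / z₁) ^ 2).re) +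
      κ' * (-(2 * normSq e)) := by
    intro e
    set γ : ℝ → ℂ := fun t => z₁ + t * e with hγ
    have hγ0 : γ 0 = z₁ := by simp [hγ]
    have hγd : ∀ t, HasDerivAt γ e t := line_hasDerivAt z₁ e
    have hγt : Tendsto γ (𝓝 0) (𝓝 z₁) := hγ0 ▸ (hγd 0).continuousAt
    have hlm : IsLocalMin (fun t => w (γ t)) 0 := by
      have : IsLocalMin w (γ 0) := hγ0 ▸ hlmin
      exact this.comp_continuous (hγd 0).continuousAt
    set H1 : ℝ → ℂ := fun t => f (γ t) * e + conj (g (γ t)) * conj e with hH1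
    have hHd : ∀ t, γ t ∈ ann → HasDerivAt (fun t => h (γ t)) (H1 t) t := by
      intro t ht
      refine ((hd _ ht).comp_hasDerivAt t (hγd t)).congr_deriv ?_
      simp [hH1]
    have hH2 : HasDerivAt H1 (deriv f z₁ * e * e + conj (deriv g z₁ * e) * conj e) 0 := by
      have a1 : HasDerivAt (fun t => f (γ t)) (deriv f z₁ * e) 0 := by
        have : HasFDerivAt f (lin (deriv f z₁) 0) (γ 0) := by
          rw [hγ0]; exact hasFDerivAt_lin_of_hasDerivAt hf'
        refine (this.comp_hasDerivAt 0 (hγd 0)).congr_deriv ?_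
        simp
      have a2 : HasDerivAt (fun t => g (γ t)) (deriv g z₁ * e) 0 := by
        have : HasFDerivAt g (lin (deriv g z₁) 0) (γ 0) := by
          rw [hγ0]; exact hasFDerivAt_lin_of_hasDerivAt hg'
        refine (this.comp_hasDerivAt 0 (hγd 0)).congr_deriv ?_
        simp
      have a3 : HasDerivAt (fun t => conj (g (γ t))) (conj (deriv g z₁ * e)) 0 :=
        (conjCLE : ℂ →L[ℝ] ℂ).hasFDerivAt.comp_hasDerivAt 0 a2
      exact (a1.mul_const e).add (a3.mul_const (conj e))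
    refine second_deriv_nonneg (φ₁ := fun t => 2 * (H1 t / h (γ t)).re -
      M * (2 * (e / γ t).re) + κ' * (-(2 * (e * conj (γ t)).re))) hlm ?_ ?_
    · filter_upwards [hγt.eventually hSn] with t ht
      obtain ⟨b1, b2⟩ := (hSm _).1 ht
      have b3 : ‖γ t‖ < 1 := by linarith
      have c1 := hasDerivAt_log_normSq (hHd t (hmem _ b1 b3)) (hne _ b1 b3)
      have c2 := hasDerivAt_log_normSq (hγd t) (ne_zero_of_mem_ann (hmem _ b1 b3))
      have c3 := hasDerivAt_normSq_comp (hγd t)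
      exact ((c1.sub_const (Real.log 4)).sub (c2.const_mul M)).add ((c3.const_sub 1).const_mul κ')
    · have c1 := hasDerivAt_log_normSq_two (H := fun t => h (γ t)) (hHd 0 (hγ0 ▸ hz₁a)) hH2
        (by simpa [hγ0] using hh0)
      have c2 := hasDerivAt_log_normSq_two (H := γ) (H1 := fun _ => e) (hγd 0)
        (hasDerivAt_const 0 e) (by simpa [hγ0] using hz₁0)
      have c3 : HasDerivAt (fun t => (e * conj (γ t)).re) (normSq e) 0 := by
        have a3 : HasDerivAt (fun t => conj (γ t)) (conj e) 0 :=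
          (conjCLE : ℂ →L[ℝ] ℂ).hasFDerivAt.comp_hasDerivAt 0 (hγd 0)
        refine (reCLM.hasFDerivAt.comp_hasDerivAt 0 (a3.const_mul e)).congr_deriv ?_
        simp [Complex.mul_conj]
      refine ((c1.sub (c2.const_mul M)).add ((c3.const_mul 2).neg.const_mul κ')).congr_deriv ?_
      simp only [hH1, hγ0]
  have d1 := dir 1
  have d2 := dir I
  have esum : ((deriv f z₁ * 1 * 1 + conj (deriv g z₁ * 1) * conj 1) / h z₁ -
      ((f z₁ * 1 + conj (g z₁) * conj 1) / h z₁) ^ 2) +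
      ((deriv f z₁ * I * I + conj (deriv g z₁ * I) * conj I) / h z₁ -
      ((f z₁ * I + conj (g z₁) * conj I) / h z₁) ^ 2) = -4 * (f z₁ * conj (g z₁) / h z₁ ^ 2) := by
    simp only [map_mul, map_one, conj_I]
    field_simp
    linear_combination (h z₁ * deriv f z₁ + h z₁ * conj (deriv g z₁) - f z₁ ^ 2 +
      2 * f z₁ * conj (g z₁) - conj (g z₁) ^ 2) * I_mul_I
  have esum2 : (0 / z₁ - (1 / z₁) ^ 2) + (0 / z₁ - (I / z₁) ^ 2) = 0 := by
    field_simp
    linear_combination (-1) * I_mul_I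
  have r1 := congrArg Complex.re esum
  have r2 := congrArg Complex.re esum2
  rw [add_re] at r1 r2
  have r3 : |(f z₁ * conj (g z₁) / h z₁ ^ 2).re| ≤ κ / δ ^ 2 := by
    refine (abs_re_le_norm _).trans ?_
    rw [norm_div, norm_pow, norm_mul, Complex.norm_conj, ← norm_mul]
    have := hκ z₁ h1 h3
    have := hlow z₁ h1 h3
    gcongr
  have r4 : (-4 * (f z₁ * conj (g z₁) / h z₁ ^ 2)).re =
      -4 * (f z₁ * conj (g z₁) / h z₁ ^ 2).re := by simp
  have r5 : 2 * (κ / δ ^ 2) < κ' := by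
    rw [← mul_div_assoc, div_lt_iff₀ (by positivity)]; exact hκ'
  have r6 := (abs_le.1 r3).1
  rw [zero_re] at r2
  simp only [normSq_one, normSq_I] at d1 d2
  have r7 : M * (2 * (0 / z₁ - (1 / z₁) ^ 2).re) + M * (2 * (0 / z₁ - (I / z₁) ^ 2).re) = 0 := by
    linear_combination (2 * M) * r2
  linarith

end Pool.Agent.Lib.MP_e277cf_an
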