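import Pool.Agent.Lib.MP_e277cf_an.Good
import Pool.Agent.Lib.MP_e277cf_an.Harm
import Pool.Agent.Lib.MP_e277cf_an.MinPrin

/-!
The limit argument as the holes shrink to points.
-/

open Set Metric Complex Filter Topology Real
open scoped ComplexConjugate

noncomputable section

namespace Pool.Agent.Lib.MP_e277cf_an

/-- The twice punctured disc. -/
def punct : Set ℂ := ball 0 1 \ {0, 1 / 4}

theorem mem_punct {z : ℂ} : z ∈ punct ↔ ‖z‖ < 1 ∧ z ≠ 0 ∧ z ≠ 1 / 4 := by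
  simp only [punct, Set.mem_sdiff, mem_ball_zero_iff, mem_insert_iff, mem_singleton_iff, not_or]

theorem Pair.mem_punct {p p' : ℂ} (hp : Pair p p') {z : ℂ} :
    z ∈ punct ↔ ‖z‖ < 1 ∧ z ≠ p ∧ z ≠ p' := by
  rw [MP_e277cf_an.mem_punct]
  rcases hp with ⟨rfl, rfl⟩ | ⟨rfl, rfl⟩ <;> tauto

theorem isOpen_punct : IsOpen punct :=
  isOpen_ball.sdiff (Set.toFinite _).isClosed

theorem Pair.punctured_ball_subset {p p' : ℂ} (hp : Pair p p') :
    ball p (1 / 4) \ {p} ⊆ punct := by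
  intro z hz
  have h1 : ‖z - p‖ < 1 / 4 := by have := hz.1; rwa [mem_ball, dist_eq_norm] at this
  have := hp.tri' z
  refine hp.mem_punct.2 ⟨by linarith, hz.2, ?_⟩
  rintro rfl
  rw [hp.symm.norm_sub] at h1
  exact lt_irrefl _ h1

theorem Pair.sphere_subset {p p' : ℂ} (hp : Pair p p') {r : ℝ} (h0 : 0 < r) (h1 : r ≤ 1 / 16) :
    sphere p r ⊆ punct := by
  intro z hz
  rw [mem_sphere, dist_eq_norm] at hz
  refine hp.punctured_ball_subset ⟨by rw [mem_ball, dist_eq_norm]; linarith, ?_⟩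
  rintro rfl
  simp at hz
  linarith

theorem local_ball {ι : Type*} {l : Filter ι} {ε : ι → ℝ} (hεt : Tendsto ε l (𝓝 0)) {z : ℂ}
    (hz : z ∈ punct) : ∃ r > 0, ball z (2 * r) ⊆ punct ∧
      ∀ᶠ n in l, ball z (2 * r) ⊆ circleDomain 1 (ε n) := by
  obtain ⟨h1, h2, h3⟩ := mem_punct.1 hz
  have a2 : 0 < ‖z‖ := norm_pos_iff.2 h2
  have a3 : 0 < ‖z - 1 / 4‖ := norm_pos_iff.2 (sub_ne_zero.2 h3)
  set d := min (1 - ‖z‖) (min ‖z‖ ‖z - 1 / 4‖) with hd
  have hd0 : 0 < d := lt_min (by linarith) (lt_min a2 a3)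
  have d1 : d ≤ 1 - ‖z‖ := min_le_left _ _
  have d2 : d ≤ ‖z‖ := (min_le_right _ _).trans (min_le_left _ _)
  have d3 : d ≤ ‖z - 1 / 4‖ := (min_le_right _ _).trans (min_le_right _ _)
  have key : ∀ w ∈ ball z (2 * (d / 4)), ‖w‖ < 1 ∧ d / 2 < ‖w‖ ∧ d / 2 < ‖w - 1 / 4‖ := by
    intro w hw
    rw [mem_ball, dist_eq_norm] at hw
    have b1 := norm_add_le (w - z) z
    have b2 := norm_sub_le w (w - z)
    have b3 := norm_sub_le (w - 1 / 4) (w - z)
    rw [sub_add_cancel] at b1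
    rw [sub_sub_cancel] at b2
    rw [sub_sub_sub_cancel_left] at b3
    exact ⟨by linarith, by linarith, by linarith⟩
  refine ⟨d / 4, by positivity, fun w hw => ?_, ?_⟩
  · obtain ⟨c1, c2, c3⟩ := key w hw
    exact mem_punct.2 ⟨c1, norm_pos_iff.1 (by linarith),
      sub_ne_zero.1 (norm_pos_iff.1 (by linarith))⟩
  · filter_upwards [hεt.eventually (gt_mem_nhds (show 0 < d / 2 by positivity))] with n hn w hw
    obtain ⟨c1, c2, c3⟩ := key w hw
    exact mem_circleDomain.2 ⟨c1, by linarith, by linarith⟩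

theorem Good.norm_le {ε : ℝ} {h k f g : ℂ → ℂ} (G : Good ε h k f g) {z : ℂ}
    (hz : z ∈ circleDomain 1 ε) : ‖h z‖ ≤ 2 :=
  (mem_circleDomain.1 (G.hom.choose_spec.2.2.maps hz)).1.le

theorem Good.grad {ε : ℝ} {h k f g : ℂ → ℂ} (G : Good ε h k f g) {z : ℂ} {r : ℝ} (hr : 0 < r)
    (hs : ball z (2 * r) ⊆ circleDomain 1 ε) {w : ℂ} (hw : w ∈ ball z r) :
    ‖f w‖ ≤ cG / r ∧ ‖g w‖ ≤ cG / r := by
  have hsub : ball w r ⊆ circleDomain 1 ε :=
    (ball_subset_ball' (by rw [mem_ball] at hw; linarith)).trans hs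
  exact grad_bound hr (G.hf.mono hsub) (G.hg.mono hsub) (fun y hy => G.hd y (hsub hy))
    fun y hy => G.norm_le (hsub hy)

/-- The holomorphic limit map and the smallness of the Hopf differentials. -/
theorem exists_limit (𝓤 : Ultrafilter ℕ) {ε : ℕ → ℝ} (hεt : Tendsto ε 𝓤 (𝓝 0))
    {h k f g : ℕ → ℂ → ℂ} (G : ∀ n, Good (ε n) (h n) (k n) (f n) (g n)) :
    ∃ F : ℂ → ℂ, DifferentiableOn ℂ F (ball 0 1) ∧ TendstoLocallyUniformlyOn h F 𝓤 punct ∧
      ∀ κ > 0, ∀ᶠ n in 𝓤, ∀ w, 3 / 4 ≤ ‖w‖ → ‖w‖ < 1 → ‖f n w * g n w‖ ≤ κ := by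
  have P01 : Pair 0 (1 / 4) := Or.inl ⟨rfl, rfl⟩
  have hloc : ∀ z ∈ punct, ∃ r > 0, ball z r ⊆ punct ∧ ∀ᶠ n in 𝓤,
      ball z r ⊆ circleDomain 1 (ε n) ∧ ∀ w ∈ ball z r, ‖f n w‖ ≤ cG / r ∧ ‖g n w‖ ≤ cG / r := by
    intro z hz
    obtain ⟨r, hr, h1, h2⟩ := local_ball hεt hz
    have hsub : ball z r ⊆ ball z (2 * r) := ball_subset_ball (by linarith)
    exact ⟨r, hr, hsub.trans h1, h2.mono fun n hn =>
      ⟨hsub.trans hn, fun w hw => (G n).grad hr hn hw⟩⟩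
  obtain ⟨f₀, hf₀, hf₀d⟩ := montel 𝓤 (F := f) (U := punct) fun z hz => by
    obtain ⟨r, hr, h1, h2⟩ := hloc z hz
    exact ⟨r, hr, cG / r, h1, h2.mono fun n hn =>
      ⟨(G n).hf.mono hn.1, fun w hw => (hn.2 w hw).1⟩⟩
  obtain ⟨g₀, hg₀, hg₀d⟩ := montel 𝓤 (F := g) (U := punct) fun z hz => by
    obtain ⟨r, hr, h1, h2⟩ := hloc z hz
    exact ⟨r, hr, cG / r, h1, h2.mono fun n hn =>
      ⟨(G n).hg.mono hn.1, fun w hw => (hn.2 w hw).2⟩⟩
  obtain ⟨Φ₀, hΦ₀, -⟩ := montel 𝓤 (F := fun n z => z ^ 2 * (f n z * g n z)) (U := punct)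
    fun z hz => by
      obtain ⟨r, hr, h1, h2⟩ := hloc z hz
      refine ⟨r, hr, 1 ^ 2 * (cG / r * (cG / r)), h1, h2.mono fun n hn => ⟨?_, fun w hw => ?_⟩⟩
      · exact (differentiableOn_pow 2).mul (((G n).hf.mul (G n).hg).mono hn.1)
      · obtain ⟨a1, a2⟩ := hn.2 w hw
        have a3 := (mem_punct.1 (h1 hw)).1.le
        have := cG_pos
        rw [norm_mul, norm_mul, norm_pow]
        gcongr
  have hev : ∀ z ∈ punct, ∀ᶠ n in 𝓤, z ∈ circleDomain 1 (ε n) := fun z hz => by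
    obtain ⟨r, hr, _, h2⟩ := hloc z hz
    exact h2.mono fun n hn => hn.1 (mem_ball_self hr)
  obtain ⟨h₀, hh₀⟩ := exists_ultra_lim 𝓤 (F := h) (U := punct) fun z hz =>
    ⟨2, (hev z hz).mono fun n hn => (G n).norm_le hn⟩
  have hh₀u : TendstoLocallyUniformlyOn h h₀ 𝓤 punct := by
    refine locUnif_of_lipschitz hh₀ fun z hz => ?_
    obtain ⟨r, hr, h1, h2⟩ := hloc z hz
    refine ⟨r, hr, cG / r + cG / r, h1, h2.mono fun n hn w hw => ?_⟩
    refine (convex_ball z r).norm_image_sub_le_of_norm_hasFDerivWithin_le (𝕜 := ℝ)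
      (fun y hy => ((G n).hd y (hn.1 hy)).hasFDerivWithinAt) (fun y hy => ?_) (mem_ball_self hr) hw
    refine (norm_lin_le _ _).trans ?_
    rw [Complex.norm_conj]
    exact add_le_add (hn.2 y hy).1 (hn.2 y hy).2
  have hh₀b : ∀ z ∈ punct, ‖h₀ z‖ ≤ 2 := fun z hz =>
    le_of_tendsto (hh₀ z hz).norm ((hev z hz).mono fun n hn => (G n).norm_le hn)
  have hh₀d : ∀ z ∈ punct, HasFDerivAt h₀ (lin (f₀ z) (conj (g₀ z))) z := by
    intro z hz
    have hn : punct ∈ 𝓝 z := isOpen_punct.mem_nhds hz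
    refine hasFDerivAt_of_tendstoUniformlyOnFilter (l := 𝓤) (f := h)
      (f' := fun n z => lin (f n z) (conj (g n z))) (g' := fun z => lin (f₀ z) (conj (g₀ z)))
      ?_ ?_ (eventually_of_mem hn hh₀)
    · have a1 := tendstoLocallyUniformlyOn_iff_filter.1 hf₀ z hz
      have a2 := tendstoLocallyUniformlyOn_iff_filter.1 hg₀ z hz
      rw [isOpen_punct.nhdsWithin_eq hz, Metric.tendstoUniformlyOnFilter_iff] at a1 a2
      rw [Metric.tendstoUniformlyOnFilter_iff]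
      intro τ hτ
      filter_upwards [a1 (τ / 2) (by positivity), a2 (τ / 2) (by positivity)] with q b1 b2
      rw [dist_eq_norm] at b1 b2 ⊢
      rw [lin_sub]
      refine (norm_lin_le _ _).trans_lt ?_
      rw [← map_sub, Complex.norm_conj]
      linarith
    · obtain ⟨r, hr, _, h2⟩ := hloc z hz
      filter_upwards [prod_mem_prod h2 (ball_mem_nhds z hr)] with q hq
      exact (G q.1).hd _ (hq.1.1 hq.2)
  have hrem : ∀ {p p' : ℂ}, Pair p p' →
      (∃ B, ∀ᶠ z in 𝓝[≠] p, ‖f₀ z‖ ≤ B) ∧ (∃ B, ∀ᶠ z in 𝓝[≠] p, ‖g₀ z‖ ≤ B) := by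
    intro p p' hp
    have hs := hp.punctured_ball_subset
    exact removable (h := h₀) (by norm_num) (hf₀d.mono hs) (hg₀d.mono hs)
      (fun z hz => hh₀d z (hs hz)) fun z hz => hh₀b z (hs hz)
  have m0 : (0 : ℂ) ∈ ball (0 : ℂ) 1 := mem_ball_self one_pos
  have m1 : (1 / 4 : ℂ) ∈ ball (0 : ℂ) 1 := by rw [mem_ball_zero_iff, norm_quarter]; norm_num
  have n01 : (0 : ℂ) ≠ 1 / 4 := by norm_num
  obtain ⟨f₁, hf₁, ef₁⟩ := extend_two isOpen_ball m0 m1 n01 hf₀d (hrem P01).1 (hrem P01.symm).1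
  obtain ⟨g₁, hg₁, eg₁⟩ := extend_two isOpen_ball m0 m1 n01 hg₀d (hrem P01).2 (hrem P01.symm).2
  have hΦe : ∀ z ∈ punct, Φ₀ z = z ^ 2 * (f₁ z * g₁ z) := by
    intro z hz
    obtain ⟨_, a1, a2⟩ := mem_punct.1 hz
    rw [ef₁ z a1 a2, eg₁ z a1 a2]
    exact tendsto_nhds_unique (hΦ₀.tendsto_at hz)
      (((hf₀.tendsto_at hz).mul (hg₀.tendsto_at hz)).const_mul _)
  have hsph : sphere (0 : ℂ) (5 / 8) ⊆ punct := by
    intro z hz
    rw [mem_sphere_zero_iff_norm] at hz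
    refine mem_punct.2 ⟨by linarith, norm_pos_iff.1 (by linarith), ?_⟩
    rintro rfl
    rw [norm_quarter] at hz
    linarith
  have hsmall : ∀ κ > 0, ∀ᶠ n in 𝓤, ∀ w, 3 / 4 ≤ ‖w‖ → ‖w‖ < 1 → ‖f n w * g n w‖ ≤ κ := by
    intro κ hκ
    have hu := (tendstoLocallyUniformlyOn_iff_forall_isCompact isOpen_punct).1 hΦ₀ _ hsph
      (isCompact_sphere _ _)
    rw [Metric.tendstoUniformlyOn_iff] at hu
    filter_upwards [hu (κ / 16) (by positivity),
      hεt.eventually (ge_mem_nhds (show (0 : ℝ) < 1 / 32 by norm_num))] with n hn hε w hw1 hw2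
    have key := hopf_small (Φ := fun z => z ^ 2 * (f n z * g n z))
      (Φ₀ := fun z => z ^ 2 * (f₁ z * g₁ z)) (η := κ / 16)
      ((differentiableOn_pow 2).mul (((G n).hf.mul (G n).hg).mono (ann_subset hε)))
      ((differentiableOn_pow 2).mul (hf₁.mul hg₁)) (by simp) (G n).sym
      (fun z hz => by
        have := hn z hz
        rw [dist_comm, dist_eq_norm, hΦe z (hsph hz)] at this
        exact this.le) hw1 hw2
    rw [norm_mul, norm_pow] at key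
    have a1 : (3 / 4 : ℝ) ^ 2 ≤ ‖w‖ ^ 2 := by gcongr
    have := norm_nonneg (f n w * g n w)
    nlinarith
  have hg0 : ∀ z ∈ punct, g₀ z = 0 := by
    have hz1 : ∀ w, 3 / 4 ≤ ‖w‖ → ‖w‖ < 1 → g₁ w = 0 := by
      intro w hw1 hw2
      have hwp : w ∈ punct := by
        refine mem_punct.2 ⟨hw2, norm_pos_iff.1 (by linarith), ?_⟩
        rintro rfl
        rw [norm_quarter] at hw1
        linarith
      obtain ⟨_, a1, a2⟩ := mem_punct.1 hwp
      rw [eg₁ w a1 a2]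
      have : ‖g₀ w‖ ^ 2 ≤ 0 := by
        refine le_of_forall_pos_le_add fun κ hκ => ?_
        rw [zero_add]
        refine le_of_tendsto ((hg₀.tendsto_at hwp).norm.pow 2) ?_
        filter_upwards [hsmall κ hκ] with n hn
        have b1 := hn w hw1 hw2
        have b2 := (G n).orient w ⟨by linarith, hw2⟩
        rw [norm_mul] at b1
        have := norm_nonneg (g n w)
        nlinarith
      exact norm_eq_zero.1 (by nlinarith [norm_nonneg (g₀ w)])
    have han : AnalyticOnNhd ℂ g₁ (ball 0 1) := hg₁.analyticOnNhd isOpen_ball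
    have hn78 : ‖((7 / 8 : ℝ) : ℂ)‖ = 7 / 8 := by rw [norm_real]; norm_num
    have hz2 : EqOn g₁ 0 (ball 0 1) := by
      refine han.eqOn_zero_of_preconnected_of_eventuallyEq_zero (convex_ball _ _).isPreconnected
        (z₀ := ((7 / 8 : ℝ) : ℂ)) (by rw [mem_ball_zero_iff, hn78]; norm_num) ?_
      have : {z : ℂ | 3 / 4 < ‖z‖ ∧ ‖z‖ < 1} ∈ 𝓝 (((7 / 8 : ℝ) : ℂ)) :=
        ((isOpen_lt continuous_const continuous_norm).inter
          (isOpen_lt continuous_norm continuous_const)).mem_nhds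
          ⟨by show 3 / 4 < ‖_‖; rw [hn78]; norm_num, by show ‖_‖ < 1; rw [hn78]; norm_num⟩
      filter_upwards [this] with z hz using hz1 z hz.1.le hz.2
    intro z hz
    obtain ⟨a0, a1, a2⟩ := mem_punct.1 hz
    rw [← eg₁ z a1 a2]
    exact hz2 (mem_ball_zero_iff.2 a0)
  have hh₀c : DifferentiableOn ℂ h₀ punct := by
    intro z hz
    have := hh₀d z hz
    rw [hg0 z hz, map_zero] at this
    exact (hasDerivAt_of_lin_zero this).differentiableAt.differentiableWithinAt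
  have hbd : ∀ {p p' : ℂ}, Pair p p' → ∃ B, ∀ᶠ z in 𝓝[≠] p, ‖h₀ z‖ ≤ B := by
    intro p p' hp
    refine ⟨2, ?_⟩
    filter_upwards [sdiff_mem_nhdsWithin_compl (ball_mem_nhds p (show (0 : ℝ) < 1 / 4 by norm_num))
      {p}] with z hz using hh₀b z (hp.punctured_ball_subset hz)
  obtain ⟨F, hF, eF⟩ := extend_two isOpen_ball m0 m1 n01 hh₀c (hbd P01) (hbd P01.symm)
  refine ⟨F, hF, hh₀u.congr_right fun z hz => ?_, hsmall⟩
  obtain ⟨_, a1, a2⟩ := mem_punct.1 hz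
  exact (eF z a1 a2).symm

theorem no_sequence {ε : ℕ → ℝ} (hε0 : ∀ n, 0 ≤ ε n) (hεt' : Tendsto ε atTop (𝓝 0))
    {h k f g : ℕ → ℂ → ℂ} (G : ∀ n, Good (ε n) (h n) (k n) (f n) (g n)) : False := by
  set 𝓤 := hyperfilter ℕ
  have hεt : Tendsto ε 𝓤 (𝓝 0) := hεt'.mono_left Nat.hyperfilter_le_atTop
  obtain ⟨F, hF, hconv, hsmall⟩ := exists_limit 𝓤 hεt G
  have hlt : ∀ {a : ℝ}, 0 < a → ∀ᶠ n in 𝓤, ε n < a := fun ha => hεt.eventually (gt_mem_nhds ha)
  have h32 : ∀ᶠ n in 𝓤, ε n ≤ 1 / 32 := (hlt (by norm_num)).mono fun n hn => hn.le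
  have hev : ∀ z ∈ punct, ∀ᶠ n in 𝓤, z ∈ circleDomain 1 (ε n) := fun z hz => by
    obtain ⟨r, hr, _, h2⟩ := local_ball hεt hz
    exact h2.mono fun n hn => hn (mem_ball_self (by positivity))
  have hball : ∀ {p p' : ℂ}, Pair p p' → ball (0 : ℂ) 1 ∈ 𝓝 p := fun hp =>
    isOpen_ball.mem_nhds (mem_ball_zero_iff.2 (hp.norm_le.trans_lt (by norm_num)))
  have hunif : ∀ {p p' : ℂ}, Pair p p' → ∀ {r τ : ℝ}, 0 < r → r ≤ 1 / 16 → 0 < τ →
      ∀ᶠ n in 𝓤, ∀ z, ‖z - p‖ = r → ‖h n z - F z‖ < τ := by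
    intro p p' hp r τ hr hr' hτ
    have hu := (tendstoLocallyUniformlyOn_iff_forall_isCompact isOpen_punct).1 hconv _
      (hp.sphere_subset hr hr') (isCompact_sphere _ _)
    rw [Metric.tendstoUniformlyOn_iff] at hu
    filter_upwards [hu τ hτ] with n hn z hz
    have := hn z (by rwa [mem_sphere, dist_eq_norm])
    rwa [dist_comm, dist_eq_norm] at this
  have hcirc : ∀ {p p' : ℂ}, Pair p p' → ∀ {L : ℝ}, 0 < L → ∃ r₀ > 0, r₀ ≤ 1 / 16 ∧
      ∀ r, 0 < r → r ≤ r₀ → ∀ᶠ n in 𝓤, ∀ z, ‖z - p‖ = r → ‖h n z - F p‖ < L := by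
    intro p p' hp L hL
    have hc : ContinuousAt F p := (hF.differentiableAt (hball hp)).continuousAt
    obtain ⟨δ, hδ, hδ'⟩ := Metric.continuousAt_iff.1 hc (L / 2) (by positivity)
    refine ⟨min (δ / 2) (1 / 16), by positivity, min_le_right _ _, fun r hr hr' => ?_⟩
    filter_upwards [hunif hp hr (hr'.trans (min_le_right _ _)) (half_pos hL)] with n hn z hz
    have a1 := hn z hz
    have a2 := hδ' (x := z) (by
      rw [dist_eq_norm, hz]
      have := hr'.trans (min_le_left _ _)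
      linarith)
    rw [dist_eq_norm] at a2
    have := norm_add_le (h n z - F z) (F z - F p)
    rw [sub_add_sub_cancel] at this
    linarith
  have P01 : Pair 0 (1 / 4) := Or.inl ⟨rfl, rfl⟩
  have hclass : ∀ᶠ n in 𝓤, OO (ε n) (h n) ∧
      ((HH (ε n) (h n) 0 0 ∧ HH (ε n) (h n) (1 / 4) (1 / 4)) ∨
        (HH (ε n) (h n) (1 / 4) 0 ∧ HH (ε n) (h n) 0 (1 / 4))) := by
    obtain ⟨r₀, hr₀, hr₀', H₀⟩ := hcirc P01 (L := 1 / 24) (by norm_num)
    obtain ⟨r₁, hr₁, _, H₁⟩ := hcirc P01.symm (L := 1 / 24) (by norm_num)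
    have hr : 0 < min r₀ r₁ := lt_min hr₀ hr₁
    filter_upwards [H₀ _ hr (min_le_left _ _), H₁ _ hr (min_le_right _ _), hlt hr, h32]
      with n a1 a2 a3 a4
    obtain ⟨_, b0, b1, b2⟩ := (G n).hom
    exact ends_classify b2 b0 b1 a4 a3 ((min_le_left _ _).trans hr₀') a1 a2
  have hOO : ∀ᶠ n in 𝓤, OO (ε n) (h n) := hclass.mono fun n hn => hn.1
  obtain ⟨p, p', hp, hHH⟩ : ∃ p p', Pair p p' ∧
      ∀ᶠ n in 𝓤, HH (ε n) (h n) p 0 ∧ HH (ε n) (h n) p' (1 / 4) := by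
    rcases Ultrafilter.eventually_or.1 (hclass.mono fun n hn => hn.2) with h1 | h1
    · exact ⟨0, 1 / 4, P01, h1⟩
    · exact ⟨1 / 4, 0, P01.symm, h1⟩
  have hcen : ∀ {p p' q : ℂ}, Pair p p' → (∀ᶠ n in 𝓤, HH (ε n) (h n) p q) → F p = q := by
    intro p p' q hp H
    by_contra hne
    have hd : 0 < ‖F p - q‖ / 2 := half_pos (norm_pos_iff.2 (sub_ne_zero.2 hne))
    obtain ⟨r₀, hr₀, hr₀', H₀⟩ := hcirc hp hd
    obtain ⟨n, ⟨⟨a1, a2⟩, a3⟩, a4⟩ := ((((H₀ r₀ hr₀ le_rfl).and H).and (hlt hr₀)).and (hlt hd)).exists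
    exact hole_center (G n).hom.choose_spec.2.2 (hε0 n) hp a2 a3 hr₀' a4 a1
  have hFp : F p = 0 := hcen hp (hHH.mono fun n hn => hn.1)
  have hFp' : F p' = 1 / 4 := hcen hp.symm (hHH.mono fun n hn => hn.2)
  have han : AnalyticOnNhd ℂ F (ball 0 1) := hF.analyticOnNhd isOpen_ball
  obtain ⟨r₁, hr₁, hr₁', hiso⟩ : ∃ r₁ > 0, r₁ ≤ 1 / 16 ∧
      ∀ z, z ≠ p → ‖z - p‖ ≤ r₁ → F z ≠ 0 := by
    rcases (han p (mem_of_mem_nhds (hball hp))).eventually_eq_zero_or_eventually_ne_zero with h1 | h1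
    · have := han.eqOn_zero_of_preconnected_of_eventuallyEq_zero (convex_ball _ _).isPreconnected
        (mem_of_mem_nhds (hball hp)) h1 (mem_of_mem_nhds (hball hp.symm))
      rw [hFp'] at this
      norm_num at this
    · rw [eventually_nhdsWithin_iff, Metric.eventually_nhds_iff] at h1
      obtain ⟨δ, hδ, hδ'⟩ := h1
      refine ⟨min (δ / 2) (1 / 16), by positivity, min_le_right _ _, fun z hz hz' => ?_⟩
      refine hδ' ?_ hz
      rw [dist_eq_norm]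
      have := hz'.trans (min_le_left _ _)
      linarith
  have hlow : ∀ r, 0 < r → r ≤ r₁ → ∃ δ > 0, δ ≤ 1 / 8 ∧
      ∀ᶠ n in 𝓤, ∀ z ∈ circleDomain 1 (ε n), r ≤ ‖z - p‖ → δ ≤ ‖h n z‖ := by
    intro r hr hr'
    have hs := hp.sphere_subset hr (hr'.trans hr₁')
    obtain ⟨a, ha, ha'⟩ := (isCompact_sphere p r).exists_forall_le' (a := (0 : ℝ))
      (f := fun z => ‖F z‖) (hF.continuousOn.norm.mono (hs.trans sdiff_subset)) (fun z hz => by
        refine norm_pos_iff.2 (hiso z (hp.mem_punct.1 (hs hz)).2.1 ?_)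
        rw [mem_sphere, dist_eq_norm] at hz
        linarith)
    refine ⟨min (a / 2) (1 / 8), by positivity, min_le_right _ _, ?_⟩
    filter_upwards [hunif hp hr (hr'.trans hr₁') (half_pos ha), hHH, hOO, hlt hr, h32]
      with n a1 a2 a3 a4 a5 z hz hz'
    obtain ⟨_, c0, -, c2⟩ := (G n).hom
    refine lower_bound c2 c0 a5 hp a2.2 a3 a4 (min_le_right _ _) (fun w hw => ?_) hz hz'
    have b1 := a1 w hw
    have b2 := ha' w (by rwa [mem_sphere, dist_eq_norm])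
    have b3 := norm_sub_le (h n w) (h n w - F w)
    rw [sub_sub_cancel] at b3
    have := min_le_left (a / 2) (1 / 8)
    linarith
  have hcases : ∀ z ∈ ball (0 : ℂ) 1, z = p ∨ z = p' ∨ z ∈ punct := by
    intro z hz
    rw [hp.mem_punct]
    have := mem_ball_zero_iff.1 hz
    tauto
  have hne : ∀ z ∈ ball (0 : ℂ) 1, z ≠ p → F z ≠ 0 := by
    intro z hz hzp
    rcases hcases z hz with e | e | e
    · exact absurd e hzp
    · rw [e, hFp']; norm_num
    · have hr : 0 < min r₁ ‖z - p‖ := lt_min hr₁ (norm_pos_iff.2 (sub_ne_zero.2 hzp))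
      obtain ⟨δ, hδ, _, H⟩ := hlow _ hr (min_le_left _ _)
      have : δ ≤ ‖F z‖ := by
        refine ge_of_tendsto (hconv.tendsto_at e).norm ?_
        filter_upwards [H, hev z e] with n a1 a2 using a1 z a2 (min_le_right _ _)
      exact norm_pos_iff.1 (hδ.trans_le this)
  have hb : ∀ z ∈ ball (0 : ℂ) 1, ‖F z‖ ≤ 2 := by
    intro z hz
    rcases hcases z hz with e | e | e
    · rw [e, hFp]; norm_num
    · rw [e, hFp', norm_quarter]; norm_num
    · exact le_of_tendsto (hconv.tendsto_at e).norm ((hev z e).mono fun n hn => (G n).norm_le hn)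
  obtain ⟨δ, hδ, hδ8, Hδ⟩ := hlow r₁ hr₁ le_rfl
  have hl916 : Real.log (9 / 16) < 0 := Real.log_neg (by norm_num) (by norm_num)
  have hl4 : Real.log (δ ^ 2) ≤ Real.log 4 := Real.log_le_log (by positivity) (by nlinarith)
  set M := (Real.log 4 - Real.log (δ ^ 2)) / (-Real.log (9 / 16)) with hM
  have hM0 : 0 ≤ M := div_nonneg (by linarith) (by linarith)
  have hM1 : Real.log 4 + M * Real.log (9 / 16) ≤ Real.log (δ ^ 2) := by
    have : M * Real.log (9 / 16) = -(Real.log 4 - Real.log (δ ^ 2)) := by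
      rw [hM]; field_simp [hl916.ne]
    linarith
  refine final_contradiction hF hp hFp (by rw [hFp', norm_quarter]) hb hne (M := M)
    fun z hz1 hz2 => ?_
  have hzp : z ∈ punct := by
    refine mem_punct.2 ⟨hz2, norm_pos_iff.1 (by linarith), ?_⟩
    rintro rfl
    rw [norm_quarter] at hz1
    linarith
  have hFz : normSq (F z) ≠ 0 := by
    simpa using hne z (mem_ball_zero_iff.2 hz2) (hp.mem_punct.1 hzp).2.1
  have hlim : Tendsto (fun n => Real.log (normSq (h n z))) 𝓤 (𝓝 (Real.log (normSq (F z)))) :=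
    ((continuous_normSq.tendsto _).comp (hconv.tendsto_at hzp)).log hFz
  refine le_of_forall_pos_le_add fun κ' hκ' => ?_
  rw [← sub_le_iff_le_add]
  refine ge_of_tendsto hlim ?_
  filter_upwards [hsmall (κ' * δ ^ 2 / 4) (by positivity), Hδ, hOO, h32] with n a1 a2 a3 a4
  have hs := ann_subset a4
  have hm : ∀ w, 3 / 4 ≤ ‖w‖ → ‖w‖ < 1 → w ∈ circleDomain 1 (ε n) := fun w b1 b2 =>
    hs ⟨by linarith, b2⟩
  refine min_principle hδ ((G n).hf.mono hs) ((G n).hg.mono hs) (fun w hw => (G n).hd w (hs hw))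
    (fun w b1 b2 => a2 w (hm w b1 b2) ?_) a1 (by have : 0 < κ' * δ ^ 2 := by positivity
                                                 linarith) ?_ hM0 hM1 hz1 hz2
  · have := hp.tri' w
    linarith
  · intro η hη
    obtain ⟨s, hs0, Hs⟩ := a3 η hη
    refine ⟨min s (1 / 4), by positivity, fun w b1 b2 => Hs w (hm w ?_ b2) ?_⟩
    · have := min_le_right s (1 / 4); linarith
    · have := min_le_left s (1 / 4); linarith

theorem exists_eps : ∃ ε₀ > 0, ε₀ ≤ 1 / 32 ∧ ∀ ε δ, 0 ≤ δ → δ ≤ ε → ε < ε₀ →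
    ∀ h k, ¬IsMinimal (circleDomain 1 ε) (circleDomain 2 δ) h k := by
  by_contra hcon
  push Not at hcon
  have : ∀ n : ℕ, ∃ ε, 0 ≤ ε ∧ ε < 1 / ((n : ℝ) + 1) ∧ ∃ h k f g, Good ε h k f g := by
    intro n
    obtain ⟨ε, δ, h0, h2, h1, h, k, Hk⟩ := hcon (min (1 / ((n : ℝ) + 1)) (1 / 32)) (by positivity)
      (min_le_right _ _)
    exact ⟨ε, h0.trans h2, h1.trans_le (min_le_left _ _),
      good_of_isMinimal h0 h2 (h1.le.trans (min_le_right _ _)) Hk⟩
  choose ε h0 h1 h k f g G using this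
  refine no_sequence h0 ?_ G
  exact squeeze_zero h0 (fun n => (h1 n).le) tendsto_one_div_add_atTop_nhds_zero_nat

end Pool.Agent.Lib.MP_e277cf_an
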