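import Pool.Agent.Lib.MP_e277cf_an.Domain
import Pool.Agent.Lib.MP_e277cf_an.Ends

/-!
A `C^1` map that restricts to a homeomorphism between the nested circle domains and is homotopic
to the inclusion.
-/

open MeasureTheory Set Metric Complex Filter Topology

noncomputable section

namespace Pool.Agent.Lib.MP_e277cf_an

variable {ε δ : ℝ}

/-- The factor by which a hole is shrunk. -/
def shrFac (ε δ s : ℝ) : ℝ := δ / ε + (1 - δ / ε) * Real.smoothTransition ((s - ε ^ 2) * 512)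

/-- The radial map about `p` that shrinks the hole of radius `ε` to the hole of radius `δ`. -/
def shr (ε δ : ℝ) (p z : ℂ) : ℂ := p + (shrFac ε δ (‖z - p‖ ^ 2) : ℂ) * (z - p)

theorem contDiff_shrFac : ContDiff ℝ 1 (shrFac ε δ) := by
  unfold shrFac
  exact contDiff_const.add (contDiff_const.mul
    ((Real.smoothTransition.contDiff (n := 1)).comp (by fun_prop)))

theorem contDiff_shr (p : ℂ) : ContDiff ℝ 1 (shr ε δ p) := by
  have h : ContDiff ℝ 1 fun z : ℂ => z - p := contDiff_id.sub contDiff_const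
  exact contDiff_const.add
    ((ofRealCLM.contDiff.comp (contDiff_shrFac.comp ((contDiff_norm_sq ℝ).comp h))).mul h)

theorem shrFac_of_ge (h : 0 ≤ ε) (hε : ε ≤ 1 / 32) {r : ℝ} (hr : 1 / 16 ≤ r) :
    shrFac ε δ (r ^ 2) = 1 := by
  rw [shrFac, Real.smoothTransition.one_of_one_le (by nlinarith)]
  ring

theorem shr_of_ge (h : 0 ≤ ε) (hε : ε ≤ 1 / 32) {p z : ℂ} (hz : 1 / 16 ≤ ‖z - p‖) :
    shr ε δ p z = z := by
  rw [shr, shrFac_of_ge h hε hz]
  simp

section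
variable (h0 : 0 ≤ δ) (h1 : δ ≤ ε)
include h0 h1

theorem shr_ratio : 0 ≤ δ / ε ∧ δ / ε ≤ 1 ∧ δ / ε * ε = δ := by
  refine ⟨div_nonneg h0 (h0.trans h1), div_le_one_of_le₀ h1 (h0.trans h1), ?_⟩
  rcases eq_or_ne ε 0 with rfl | e
  · simp [le_antisymm h1 h0]
  · exact div_mul_cancel₀ _ e

theorem shrFac_mem (s : ℝ) : 0 ≤ shrFac ε δ s ∧ shrFac ε δ s ≤ 1 := by
  obtain ⟨a, b, -⟩ := shr_ratio h0 h1
  have c := Real.smoothTransition.nonneg ((s - ε ^ 2) * 512)
  have d := Real.smoothTransition.le_one ((s - ε ^ 2) * 512)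
  unfold shrFac
  constructor <;> nlinarith

theorem shrFac_lt {a b : ℝ} (ha : ε ≤ a) (hab : a < b) :
    shrFac ε δ (a ^ 2) * a < shrFac ε δ (b ^ 2) * b := by
  obtain ⟨a0, a1, -⟩ := shr_ratio h0 h1
  have e0 := h0.trans h1
  have c : Real.smoothTransition ((a ^ 2 - ε ^ 2) * 512) ≤
      Real.smoothTransition ((b ^ 2 - ε ^ 2) * 512) :=
    Real.smoothTransition.monotone (by nlinarith)
  have d : 0 < Real.smoothTransition ((b ^ 2 - ε ^ 2) * 512) :=
    Real.smoothTransition.pos_of_pos (by nlinarith)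
  have d1 := Real.smoothTransition.le_one ((b ^ 2 - ε ^ 2) * 512)
  have m : shrFac ε δ (a ^ 2) ≤ shrFac ε δ (b ^ 2) := by
    unfold shrFac
    nlinarith
  have q : 0 < shrFac ε δ (b ^ 2) := by
    unfold shrFac
    nlinarith
  exact (mul_le_mul_of_nonneg_right m (e0.trans ha)).trans_lt (mul_lt_mul_of_pos_left hab q)

theorem shrFac_le {r : ℝ} (hr0 : 0 ≤ r) (hr : r ≤ ε) : shrFac ε δ (r ^ 2) = δ / ε := by
  rw [shrFac, Real.smoothTransition.zero_of_nonpos (by nlinarith), mul_zero, add_zero]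

theorem shrFac_iff {r : ℝ} (hr0 : 0 ≤ r) : δ < shrFac ε δ (r ^ 2) * r ↔ ε < r := by
  obtain ⟨a0, -, a2⟩ := shr_ratio h0 h1
  refine ⟨fun h => lt_of_not_ge fun hr => ?_, fun h => ?_⟩
  · rw [shrFac_le h0 h1 hr0 hr] at h
    nlinarith
  · have := shrFac_lt h0 h1 le_rfl h
    rwa [shrFac_le h0 h1 (h0.trans h1) le_rfl, a2] at this

theorem norm_shr (p z : ℂ) : ‖shr ε δ p z - p‖ = shrFac ε δ (‖z - p‖ ^ 2) * ‖z - p‖ := by
  rw [shr, add_sub_cancel_left, norm_mul, norm_real, Real.norm_of_nonneg (shrFac_mem h0 h1 _).1]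

theorem norm_shr_le (p z : ℂ) : ‖shr ε δ p z - p‖ ≤ ‖z - p‖ := by
  rw [norm_shr h0 h1]
  exact mul_le_of_le_one_left (norm_nonneg _) (shrFac_mem h0 h1 _).2

theorem shr_inj {p z w : ℂ} (hz : ε < ‖z - p‖) (hw : ε < ‖w - p‖)
    (h : shr ε δ p z = shr ε δ p w) : z = w := by
  have e := norm_shr h0 h1 p z
  rw [h, norm_shr h0 h1] at e
  have e1 : ‖z - p‖ = ‖w - p‖ := le_antisymm
    (le_of_not_gt fun c => (shrFac_lt h0 h1 hw.le c).ne e)
    (le_of_not_gt fun c => (shrFac_lt h0 h1 hz.le c).ne' e)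
  have q : shrFac ε δ (‖w - p‖ ^ 2) ≠ 0 := fun c => by
    have := (shrFac_iff h0 h1 (norm_nonneg _)).2 hw
    rw [c, zero_mul] at this
    exact this.not_ge h0
  rw [shr, shr, e1, add_right_inj] at h
  exact sub_left_inj.1 (mul_left_cancel₀ (by exact_mod_cast q) h)

theorem shr_surj (hε : ε ≤ 1 / 32) {p w : ℂ} (hw : δ < ‖w - p‖) : ∃ z, shr ε δ p z = w := by
  have e0 := h0.trans h1
  rcases le_total (1 / 16) ‖w - p‖ with c | c
  · exact ⟨w, shr_of_ge e0 hε c⟩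
  have hc : ContinuousOn (fun r : ℝ => shrFac ε δ (r ^ 2) * r) (Icc ε (1 / 16)) :=
    ((contDiff_shrFac.continuous.comp (continuous_pow 2)).mul continuous_id).continuousOn
  obtain ⟨r, hr, e⟩ := intermediate_value_Icc (by linarith) hc (show ‖w - p‖ ∈ Icc _ _ from
    ⟨by rw [shrFac_le h0 h1 e0 le_rfl, (shr_ratio h0 h1).2.2]; exact hw.le,
      by rwa [shrFac_of_ge e0 hε le_rfl, one_mul]⟩)
  have hw0 := h0.trans_lt hw
  have hn : ‖((r / ‖w - p‖ : ℝ) : ℂ) * (w - p)‖ = r := by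
    rw [norm_mul, norm_real, Real.norm_of_nonneg (div_nonneg (e0.trans hr.1) hw0.le)]
    field_simp
  refine ⟨p + ((r / ‖w - p‖ : ℝ) : ℂ) * (w - p), ?_⟩
  rw [shr, add_sub_cancel_left, hn, ← mul_assoc, ← ofReal_mul, ← mul_div_assoc]
  simp only at e
  rw [e, div_self hw0.ne']
  simp

theorem shr_mem (hε : ε ≤ 1 / 32) {p p' : ℂ} (hp : Pair p p') {b : ℝ} (hb : b ≤ 1 / 32) (z : ℂ) :
    ‖shr ε δ p z‖ < 1 ∧ δ < ‖shr ε δ p z - p‖ ∧ b < ‖shr ε δ p z - p'‖ ↔
      ‖z‖ < 1 ∧ ε < ‖z - p‖ ∧ b < ‖z - p'‖ := by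
  have e : δ < ‖shr ε δ p z - p‖ ↔ ε < ‖z - p‖ := by
    rw [norm_shr h0 h1, shrFac_iff h0 h1 (norm_nonneg _)]
  rw [e]
  rcases le_total (1 / 16) ‖z - p‖ with c | c
  · rw [shr_of_ge (h0.trans h1) hε c]
  have := norm_shr_le h0 h1 p z
  have := hp.tri z
  have := hp.tri' z
  have := hp.tri (shr ε δ p z)
  have := hp.tri' (shr ε δ p z)
  exact ⟨fun h => ⟨by linarith, h.2.1, by linarith⟩, fun h => ⟨by linarith, h.2.1, by linarith⟩⟩

end

/-- The homeomorphism between the nested domains. -/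
def nest (ε δ : ℝ) (z : ℂ) : ℂ := stretch (shr ε δ (1 / 4) (shr ε δ 0 z))

theorem contDiff_nest : ContDiff ℝ 1 (nest ε δ) :=
  contDiff_stretch.comp ((contDiff_shr _).comp (contDiff_shr _))

theorem pair01 : Pair 0 (1 / 4) := Or.inl ⟨rfl, rfl⟩

section
variable (h0 : 0 ≤ δ) (h1 : δ ≤ ε) (hε : ε ≤ 1 / 32)
include h0 h1 hε

theorem nest_mem (z : ℂ) : nest ε δ z ∈ circleDomain 2 δ ↔ z ∈ circleDomain 1 ε := by
  rw [nest, stretch_mem_iff (h1.trans hε), pair01.symm.mem_iff,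
    shr_mem h0 h1 hε pair01.symm (h1.trans hε), pair01.mem_iff, ← shr_mem h0 h1 hε pair01 hε]
  tauto

theorem nest_inj : InjOn (nest ε δ) (circleDomain 1 ε) := fun z hz w hw h => by
  rw [pair01.mem_iff] at hz hw
  exact shr_inj h0 h1 hz.2.1 hw.2.1 (shr_inj h0 h1 ((shr_mem h0 h1 hε pair01 hε z).2 hz).2.2
    ((shr_mem h0 h1 hε pair01 hε w).2 hw).2.2 (stretch_injective h))

theorem nest_surj : SurjOn (nest ε δ) (circleDomain 1 ε) (circleDomain 2 δ) := fun w hw => by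
  suffices h : ∃ z, nest ε δ z = w by
    obtain ⟨z, rfl⟩ := h
    exact ⟨z, (nest_mem h0 h1 hε z).1 hw, rfl⟩
  obtain ⟨a, -, rfl⟩ := stretch_surj (mem_circleDomain.1 hw).1
  rw [stretch_mem_iff (h1.trans hε), pair01.symm.mem_iff] at hw
  obtain ⟨b, rfl⟩ := shr_surj h0 h1 hε hw.2.1
  obtain ⟨c, rfl⟩ := shr_surj h0 h1 hε ((shr_mem h0 h1 hε pair01.symm (h1.trans hε) b).1 hw).2.2
  exact ⟨c, rfl⟩

theorem nest_inv : ∃ k, Hom 1 2 ε δ (nest ε δ) k := by
  have hm : MapsTo (nest ε δ) _ _ := fun z hz => (nest_mem h0 h1 hε z).2 hz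
  have hb : BijOn (nest ε δ) _ _ := ⟨hm, nest_inj h0 h1 hε, nest_surj h0 h1 hε⟩
  have hi := hb.invOn_invFunOn
  have hk := hb.surjOn.mapsTo_invFunOn
  refine ⟨_, contDiff_nest.continuous.continuousOn, ?_, hm, hk, hi⟩
  rw [continuousOn_iff_isClosed]
  intro t ht
  refine ⟨nest ε δ '' (closedBall 0 1 ∩ t), (((isCompact_closedBall _ _).inter_right ht).image
    contDiff_nest.continuous).isClosed, ?_⟩
  ext w
  constructor
  · rintro ⟨a, b⟩
    exact ⟨⟨_, ⟨mem_closedBall_zero_iff.2 (mem_circleDomain.1 (hk b)).1.le, a⟩, hi.2 b⟩, b⟩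
  · rintro ⟨⟨z, hz, rfl⟩, b⟩
    exact ⟨by rw [mem_preimage, hi.1 ((nest_mem h0 h1 hε z).1 b)]; exact hz.2, b⟩

omit h0 hε in
theorem nest_subset : circleDomain 1 ε ⊆ circleDomain 2 δ := fun z hz => by
  rw [mem_circleDomain] at hz ⊢
  exact ⟨by linarith [hz.1], h1.trans_lt hz.2.1, h1.trans_lt hz.2.2⟩

omit hε in
theorem nest_near {p p' : ℂ} (hp : Pair p p') {t : ℝ} (t0 : 0 ≤ t) (t1 : t ≤ 1) {z : ℂ}
    (a : ε < ‖z - p‖) (b : ‖z - p‖ ≤ 1 / 16) :
    z + t * (shr ε δ p z - z) ∈ circleDomain 2 δ := by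
  obtain ⟨c0, c1⟩ := shrFac_mem h0 h1 (‖z - p‖ ^ 2)
  have c2 := (shrFac_iff h0 h1 (norm_nonneg _)).2 a
  have n := norm_nonneg (z - p)
  have e : z + t * (shr ε δ p z - z) - p =
      ((1 - t + t * shrFac ε δ (‖z - p‖ ^ 2) : ℝ) : ℂ) * (z - p) := by
    rw [shr]
    push_cast
    ring
  have e1 := congrArg norm e
  rw [norm_mul, norm_real, Real.norm_of_nonneg (by nlinarith)] at e1
  have := hp.tri (z + t * (shr ε δ p z - z))
  have := hp.tri' (z + t * (shr ε δ p z - z))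
  have d1 := mul_nonneg (mul_nonneg t0 (sub_nonneg.2 c1)) n
  have d2 := mul_nonneg (mul_nonneg (sub_nonneg.2 t1) (sub_nonneg.2 c1)) n
  exact hp.mem_iff.2 ⟨by nlinarith, by nlinarith, by nlinarith⟩

theorem nest_segment {t : ℝ} (t0 : 0 ≤ t) (t1 : t ≤ 1) {z : ℂ} (hz : z ∈ circleDomain 1 ε) :
    z + t * (nest ε δ z - z) ∈ circleDomain 2 δ := by
  have e0 := h0.trans h1
  have hz' := pair01.mem_iff.1 hz
  rcases le_total ‖z - 0‖ (1 / 16) with a | a
  · have b := norm_shr_le h0 h1 0 z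
    have c := pair01.tri (shr ε δ 0 z)
    rw [nest, shr_of_ge (p := 1 / 4) e0 hε (by linarith),
      stretch_of_le (by rw [sub_zero] at b; linarith)]
    exact nest_near h0 h1 pair01 t0 t1 hz'.2.1 a
  rw [nest, shr_of_ge e0 hε a]
  rcases le_total ‖z - 1 / 4‖ (1 / 16) with b | b
  · have c := norm_shr_le h0 h1 (1 / 4) z
    rw [stretch_of_le (by linarith [tri2 (shr ε δ (1 / 4) z)])]
    exact nest_near h0 h1 pair01.symm t0 t1 hz'.2.2 b
  rw [shr_of_ge e0 hε b]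
  rcases le_or_gt ‖z‖ (1 / 2) with c | c
  · simpa [stretch_of_le c] using nest_subset h1 hz
  have c0 := one_le_stretchFac (‖z‖ ^ 2)
  have c1 := stretchFac_le (‖z‖ ^ 2)
  have e : z + t * (stretch z - z) = ((1 + t * (stretchFac (‖z‖ ^ 2) - 1) : ℝ) : ℂ) * z := by
    rw [stretch]
    push_cast
    ring
  have d0 := mul_nonneg t0 (sub_nonneg.2 c0)
  have d1 : t * (stretchFac (‖z‖ ^ 2) - 1) ≤ 1 := mul_le_one₀ t1 (by linarith) (by linarith)
  have e1 := congrArg norm e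
  rw [norm_mul, norm_real, Real.norm_of_nonneg (by linarith)] at e1
  exact mem_of_half (h1.trans hε) (by nlinarith) (by nlinarith [hz'.1])

theorem nest_homotopic :
    IsHomotopicIn (circleDomain 1 ε) (circleDomain 2 δ) (fun z => z) (nest ε δ) := by
  have := (contDiff_nest (ε := ε) (δ := δ)).continuous
  exact ⟨fun q => q.2 + q.1 * (nest ε δ q.2 - q.2), Continuous.continuousOn (by fun_prop),
    fun q hq => nest_segment h0 h1 hε hq.1.1 hq.1.2 hq.2, by simp, by simp⟩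

theorem classEnergy_lt_top :
    classEnergy (circleDomain 1 ε) (circleDomain 2 δ) (fun z => z) < ⊤ := by
  obtain ⟨k, H⟩ := nest_inv h0 h1 hε
  have hi : IntegrableOn (dens (nest ε δ)) (circleDomain 1 ε) := by
    have := (continuousOn_dens isOpen_univ (contDiff_nest (ε := ε) (δ := δ)).contDiffOn).mono
      (subset_univ (closedBall (0 : ℂ) 1))
    exact (this.integrableOn_compact (isCompact_closedBall _ _)).mono_set
      (sdiff_subset.trans ball_subset_closedBall)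
  exact (classEnergy_le (isOpen_circleDomain _ _) (isBounded_circleDomain _ _)
    (isBounded_circleDomain _ _) (isHomeoOnto_of H.cont H.cont' H.maps H.maps' H.inv)
    contDiff_nest.contDiffOn hi (nest_homotopic h0 h1 hε)).trans_lt ENNReal.ofReal_lt_top

theorem inclusion_homotopyEquiv :
    InclusionIsHomotopyEquiv (circleDomain 1 ε) (circleDomain 2 δ) := by
  obtain ⟨k, H⟩ := nest_inv h0 h1 hε
  obtain ⟨F, c, m, f0, f1⟩ := nest_homotopic h0 h1 hε
  let K : C(circleDomain 2 δ, circleDomain 1 ε) := ⟨_, H.cont'.mapsToRestrict H.maps'⟩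
  let G : C(unitInterval × circleDomain 1 ε, circleDomain 2 δ) :=
    ⟨fun q => ⟨F (q.1, q.2), m ⟨q.1.2, q.2.2⟩⟩,
      (c.comp_continuous (by fun_prop) fun q => ⟨q.1.2, q.2.2⟩).subtype_mk _⟩
  refine ⟨{ toFun := ⟨inclusion (nest_subset h1), continuous_inclusion _⟩
            invFun := K
            left_inv := ⟨⟨K.comp G, fun z => congrArg K (Subtype.ext (f0 z z.2)),
              fun z => Subtype.ext ((congrArg k (f1 z z.2)).trans (H.inv.1 z.2))⟩⟩
            right_inv := ⟨⟨G.comp ((ContinuousMap.id _).prodMap K),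
              fun w => Subtype.ext (f0 _ (K w).2),
              fun w => Subtype.ext ((f1 _ (K w).2).trans (H.inv.2 w.2))⟩⟩ }, fun z => rfl⟩

end

theorem closure_subset_nest (h : δ < ε) : closure (circleDomain 1 ε) ⊆ circleDomain 2 δ := by
  have c : IsClosed {z : ℂ | ‖z‖ ≤ 1 ∧ ε ≤ ‖z‖ ∧ ε ≤ ‖z - 1 / 4‖} :=
    (isClosed_le continuous_norm continuous_const).inter
      ((isClosed_le continuous_const continuous_norm).inter
        (isClosed_le continuous_const (cont_ns _)))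
  refine (closure_minimal (fun z hz => ?_) c).trans fun z hz =>
    mem_circleDomain.2 ⟨by linarith [hz.1], h.trans_le hz.2.1, h.trans_le hz.2.2⟩
  rw [mem_circleDomain] at hz
  exact ⟨hz.1.le, hz.2.1.le, hz.2.2.le⟩

end Pool.Agent.Lib.MP_e277cf_an
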