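import Pool.Agent.Lib.MP_e277cf_an.Compet

/-!
Outer variations: an energy-minimal diffeomorphism is weakly harmonic.
-/

open MeasureTheory Set Metric Complex Filter Topology
open scoped ENNReal ContDiff NNReal ComplexConjugate

noncomputable section

namespace Pool.Agent.Lib.MP_e277cf_an

theorem norm_add_mul_sq (a b : ℂ) (t : ℝ) :
    ‖a + t • b‖ ^ 2 = ‖a‖ ^ 2 + 2 * (a * conj b).re * t + ‖b‖ ^ 2 * t ^ 2 := by
  simp only [Complex.sq_norm, normSq_apply, real_smul]
  simp
  ring

/-- A homeomorphism of the plane fixing the complement of `S` maps `S` to itself. -/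
theorem mapsTo_of_fix {S : Set ℂ} (T : ℂ ≃ₜ ℂ) (hT : ∀ w, w ∉ S → T w = w) :
    MapsTo T S S ∧ MapsTo T.symm S S := by
  constructor
  · intro w hw
    by_contra h
    have := T.injective (hT _ h)
    exact h (this.symm ▸ hw)
  · intro w hw
    by_contra h
    have := hT _ h
    rw [T.apply_symm_apply] at this
    exact h (this ▸ hw)

theorem outer_perturb {Ω Ω' : Set ℂ} (hΩ' : IsOpen Ω') {h k : ℂ → ℂ}
    (H : IsMinimal Ω Ω' h k) {φ : ℂ → ℂ} (hφ : ContDiff ℝ 1 φ) (hc : HasCompactSupport φ)
    (hs : tsupport φ ⊆ Ω) :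
    ∃ δ > 0, ∀ t : ℝ, |t| < δ → IsHomeoOnto Ω Ω' (fun z => h z + t • φ z) := by
  classical
  set ψ : ℂ → ℂ := Ω'.indicator (fun w => φ (k w)) with hψ
  set K : Set ℂ := h '' tsupport φ with hK
  have hKc : IsCompact K := hc.image_of_continuousOn (H.cd.continuousOn.mono hs)
  have hKs : K ⊆ Ω' := by
    rintro _ ⟨z, hz, rfl⟩
    exact H.maps (hs hz)
  have hψ0 : ∀ w, w ∉ K → ψ w = 0 := by
    intro w hw
    by_cases hw' : w ∈ Ω'
    · rw [hψ, indicator_of_mem hw']
      by_contra hne
      exact hw ⟨k w, subset_tsupport _ hne, H.inv.2 hw'⟩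
    · rw [hψ, indicator_of_notMem hw']
  have hψc : HasCompactSupport ψ := HasCompactSupport.intro hKc hψ0
  have hψd : ContDiff ℝ 1 ψ := by
    rw [contDiff_iff_contDiffAt]
    intro w
    by_cases hw : w ∈ Ω'
    · have h1 : ContDiffAt ℝ 1 (fun w => φ (k w)) w :=
        hφ.contDiffAt.comp w (H.cd'.contDiffAt (hΩ'.mem_nhds hw))
      refine h1.congr_of_eventuallyEq ?_
      filter_upwards [hΩ'.mem_nhds hw] with y hy
      rw [hψ, indicator_of_mem hy]
    · have hwK : w ∉ K := fun h => hw (hKs h)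
      refine (contDiffAt_const (c := (0 : ℂ))).congr_of_eventuallyEq ?_
      filter_upwards [hKc.isClosed.isOpen_compl.mem_nhds hwK] with y hy
      exact hψ0 y hy
  obtain ⟨M, hM, hMb⟩ := exists_fderiv_bound hψd hψc
  refine ⟨1 / (2 * M), by positivity, fun t ht => ?_⟩
  have hd : Differentiable ℝ ψ := hψd.differentiable one_ne_zero
  have hlip : LipschitzWith (1 / 2 : ℝ≥0) (fun w => t • ψ w) := by
    refine lipschitz_of_fderiv_bound (ψ := fun w => t • ψ w) (hd.const_smul t) fun z => ?_
    have e : fderiv ℝ (fun w => t • ψ w) z = t • fderiv ℝ ψ z :=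
      ((hd z).hasFDerivAt.const_smul t).fderiv
    rw [e, norm_smul, Real.norm_eq_abs]
    rw [lt_div_iff₀ (by positivity)] at ht
    have := hMb z
    have h2 : |t| * ‖fderiv ℝ ψ z‖ ≤ |t| * M := by gcongr
    push_cast
    nlinarith
  obtain ⟨T, hT⟩ := exists_homeo_of_lipschitz (by norm_num) hlip
  have hfix : ∀ w, w ∉ Ω' → T w = w := by
    intro w hw
    rw [hT, hψ0 w (fun h => hw (hKs h))]
    simp
  obtain ⟨m1, m2⟩ := mapsTo_of_fix T hfix
  have heq : ∀ z ∈ Ω, h z + t • φ z = T (h z) := by
    intro z hz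
    rw [hT, hψ, indicator_of_mem (H.maps hz), H.inv.1 hz]
  refine isHomeoOnto_of (k := fun w => k (T.symm w)) ?_ ?_ ?_ ?_ ⟨?_, ?_⟩
  · exact H.cd.continuousOn.add (hφ.continuous.const_smul t).continuousOn
  · exact H.cd'.continuousOn.comp T.symm.continuous.continuousOn m2
  · intro z hz
    simp only
    rw [heq z hz]
    exact m1 (H.maps hz)
  · intro w hw
    exact H.maps' (m2 hw)
  · intro z hz
    simp only
    rw [heq z hz, T.symm_apply_apply, H.inv.1 hz]
  · intro w hw
    simp only
    rw [heq _ (H.maps' (m2 hw)), H.inv.2 (m2 hw), T.apply_symm_apply]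

/-- Weak harmonicity. -/
theorem outer_variation {Ω Ω' : Set ℂ} (hΩ : IsOpen Ω) (hΩ' : IsOpen Ω') {h k : ℂ → ℂ}
    (H : IsMinimal Ω Ω' h k) {η : ℂ → ℝ} (hη : ContDiff ℝ 1 η) (hc : HasCompactSupport η)
    (hs : tsupport η ⊆ Ω) :
    (∫ z, fderiv ℝ η z 1 • fderiv ℝ h z 1) + (∫ z, fderiv ℝ η z I • fderiv ℝ h z I) = 0 := by
  set X := (∫ z, fderiv ℝ η z 1 • fderiv ℝ h z 1) + (∫ z, fderiv ℝ η z I • fderiv ℝ h z I)
    with hX
  set φ : ℂ → ℂ := fun z => η z • X with hφdef
  have hφ : ContDiff ℝ 1 φ := hη.smul contDiff_const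
  have hsupp : tsupport φ ⊆ tsupport η := by
    refine closure_mono fun z hz => ?_
    intro h0
    exact hz (by simp [hφdef, h0])
  have hφc : HasCompactSupport φ := IsCompact.of_isClosed_subset hc (isClosed_tsupport _) hsupp
  obtain ⟨δ, hδ, hho⟩ := outer_perturb hΩ' H hφ hφc (hsupp.trans hs)
  have hηd : Differentiable ℝ η := hη.differentiable one_ne_zero
  have hη' : ∀ v, Continuous (fun z => fderiv ℝ η z v) := fun v =>
    (hη.continuous_fderiv one_ne_zero).clm_apply continuous_const
  have hd := continuousOn_fderiv_of hΩ H.cd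
  have hint : ∀ v, Integrable (fun z => fderiv ℝ η z v • fderiv ℝ h z v) := fun v =>
    integrable_smul_of_tsupport (hη' v) (hasCompactSupport_fderiv_apply hc v)
      ((tsupport_fderiv_apply_subset' η v).trans hs) (hd.clm_apply continuousOn_const)
  have hint2 : ∀ v, Integrable (fun z => ‖fderiv ℝ η z v • X‖ ^ 2) := by
    intro v
    refine Continuous.integrable_of_hasCompactSupport (((hη' v).smul continuous_const).norm.pow 2) ?_
    refine HasCompactSupport.intro (hasCompactSupport_fderiv_apply hc v) fun z hz => ?_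
    simp [image_eq_zero_of_notMem_tsupport hz]
  set A : ℂ → ℝ := fun z => 2 * ((fderiv ℝ η z 1 • fderiv ℝ h z 1 +
    fderiv ℝ η z I • fderiv ℝ h z I) * conj X).re with hA
  set B : ℂ → ℝ := fun z => ‖fderiv ℝ η z 1 • X‖ ^ 2 + ‖fderiv ℝ η z I • X‖ ^ 2 with hB
  have hAi0 : Integrable (fun z => (fderiv ℝ η z 1 • fderiv ℝ h z 1 +
    fderiv ℝ η z I • fderiv ℝ h z I) * conj X) := ((hint 1).add (hint I)).mul_const _
  have hAi : Integrable A := (hAi0.re).const_mul 2
  have hBi : Integrable B := (hint2 1).add (hint2 I)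
  have hAval : ∫ z in Ω, A z = 2 * ‖X‖ ^ 2 := by
    have e1 : ∫ z in Ω, A z = ∫ z, A z := by
      refine setIntegral_eq_integral_of_forall_compl_eq_zero fun z hz => ?_
      have h1 : ∀ v, fderiv ℝ η z v = 0 := fun v => image_eq_zero_of_notMem_tsupport
        (f := fun z => fderiv ℝ η z v) (fun h => hz (hs (tsupport_fderiv_apply_subset' η v h)))
      simp [hA, h1]
    rw [e1, hA, integral_const_mul]
    congr 1
    have := integral_re hAi0
    simp only [RCLike.re_to_complex] at this
    rw [this, integral_mul_const, integral_add (hint 1) (hint I), ← hX, Complex.mul_conj,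
      Complex.sq_norm]
    simp
  have key : 2 * ‖X‖ ^ 2 = 0 := by
    refine eq_zero_of_quadratic (b := ∫ z in Ω, B z) hδ fun t ht => ?_
    have hdens : ∀ z ∈ Ω, dens (fun z => h z + t • φ z) z = dens h z + A z * t + B z * t ^ 2 := by
      intro z hz
      have h1 : HasFDerivAt (fun z => h z + t • φ z)
          (fderiv ℝ h z + t • (fderiv ℝ η z).smulRight X) z :=
        (differentiableAt_of hΩ H.cd hz).hasFDerivAt.add
          (((hηd z).hasFDerivAt.smul_const X).const_smul t)
      simp only [dens, h1.fderiv, add_apply, smul_apply, ContinuousLinearMap.smulRight_apply,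
        norm_add_mul_sq, hA, hB]
      simp only [real_smul, map_mul, conj_ofReal, add_mul, add_re, mul_re, ofReal_re, ofReal_im,
        mul_im, conj_re, conj_im]
      ring
    have hi : IntegrableOn (fun z => dens h z + A z * t + B z * t ^ 2) Ω :=
      (H.int.add (hAi.mul_const t).integrableOn).add (hBi.mul_const _).integrableOn
    have hi' : IntegrableOn (dens (fun z => h z + t • φ z)) Ω :=
      hi.congr_fun (fun z hz => (hdens z hz).symm) hΩ.measurableSet
    have hle := H.le _ (hho t ht) (H.cd.add ((hφ.const_smul t).contDiffOn)) hi' (by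
      refine ⟨fun q => h q.2 + (q.1 * t) • φ q.2, (H.cd.continuousOn.comp continuousOn_snd
        fun q hq => hq.2).add (Continuous.continuousOn ?_), fun q hq => ?_, by simp, by simp⟩
      · exact (continuous_fst.mul continuous_const).smul (hφ.continuous.comp continuous_snd)
      · obtain ⟨e, he⟩ := hho (q.1 * t) (by
          rw [abs_mul, abs_of_nonneg hq.1.1]
          exact (mul_le_of_le_one_left (abs_nonneg t) hq.1.2).trans_lt ht)
        have := (e ⟨q.2, hq.2⟩).2
        rwa [he] at this)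
    have hi1 : IntegrableOn (fun z => dens h z + A z * t) Ω :=
      H.int.add (hAi.mul_const t).integrableOn
    rw [setIntegral_congr_fun hΩ.measurableSet hdens, integral_add
      hi1 (hBi.mul_const _).integrableOn,
      integral_add H.int (hAi.mul_const t).integrableOn, integral_mul_const, integral_mul_const,
      hAval] at hle
    linarith
  have : ‖X‖ = 0 := by nlinarith [norm_nonneg X]
  exact norm_eq_zero.1 this

/-- Symmetry of mixed derivatives in weak form. -/
theorem weak_symm {Ω : Set ℂ} (hΩ : IsOpen Ω) {h : ℂ → ℂ} (hh : ContDiffOn ℝ 1 h Ω)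
    {η : ℂ → ℝ} (hη : ContDiff ℝ 2 η) (hc : HasCompactSupport η) (hs : tsupport η ⊆ Ω) :
    (∫ z, fderiv ℝ η z 1 • fderiv ℝ h z I) = (∫ z, fderiv ℝ η z I • fderiv ℝ h z 1) := by
  have h1 : ∀ v, ContDiff ℝ 1 (fun z => fderiv ℝ η z v) := fun v =>
    (hη.fderiv_right (m := 1) (by norm_num)).clm_apply contDiff_const
  have e1 := integral_by_parts hΩ hh (h1 1) (hasCompactSupport_fderiv_apply hc 1)
    ((tsupport_fderiv_apply_subset' η 1).trans hs) I
  have e2 := integral_by_parts hΩ hh (h1 I) (hasCompactSupport_fderiv_apply hc I)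
    ((tsupport_fderiv_apply_subset' η I).trans hs) 1
  have e3 : ∀ z, fderiv ℝ (fun z => fderiv ℝ η z 1) z I = fderiv ℝ (fun z => fderiv ℝ η z I) z 1 := by
    intro z
    have hd : DifferentiableAt ℝ (fderiv ℝ η) z :=
      ((hη.fderiv_right (m := 1) (by norm_num)).differentiable one_ne_zero) z
    have hsy := (hη.contDiffAt (x := z)).isSymmSndFDerivAt (by simp)
    rw [fderiv_clm_apply hd (differentiableAt_const _),
      fderiv_clm_apply hd (differentiableAt_const _)]
    simp
    exact hsy.eq I 1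
  simp only [e3] at e1
  rw [e1] at e2
  exact neg_injective e2

end Pool.Agent.Lib.MP_e277cf_an
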