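import Pool.Agent.Lib.MP_e277cf_an.Inner

/-!
Polar coordinates and the symmetry of the Laurent coefficients of the Hopf differential.
-/

open MeasureTheory Set Metric Complex Filter Topology Real
open scoped ENNReal ContDiff NNReal ComplexConjugate

noncomputable section

namespace Pool.Agent.Lib.MP_e277cf_an

/-- The outer annulus. -/
def ann : Set ℂ := {z | 1 / 2 < ‖z‖ ∧ ‖z‖ < 1}

theorem isOpen_ann : IsOpen ann :=
  (isOpen_lt continuous_const continuous_norm).inter (isOpen_lt continuous_norm continuous_const)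

theorem integral_polar {F : ℂ → ℂ} (hF : Integrable F) :
    ∫ z, F z = ∫ r in Ioi (0 : ℝ), ((r * (2 * π) : ℝ) : ℂ) * circleAverage F 0 r := by
  rw [← Complex.integral_comp_polarCoord_symm]
  have hint : IntegrableOn (fun p : ℝ × ℝ => p.1 • F (Complex.polarCoord.symm p))
      _root_.polarCoord.target := by
    have h1 : Integrable (F ∘ measurableEquivRealProd.symm) :=
      (volume_preserving_equiv_real_prod.symm.integrable_comp_emb
        measurableEquivRealProd.symm.measurableEmbedding).2 hF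
    have h2 := (integrableOn_image_iff_integrableOn_abs_det_fderiv_smul volume
      _root_.polarCoord.open_target.measurableSet
      (fun p _ => (hasFDerivAt_polarCoord_symm p).hasFDerivWithinAt)
      _root_.polarCoord.symm.injOn (F ∘ measurableEquivRealProd.symm)).1 h1.integrableOn
    refine h2.congr_fun (fun p hp => ?_) _root_.polarCoord.open_target.measurableSet
    simp only [det_fderivPolarCoordSymm, Function.comp_apply,
      measurableEquivRealProd_symm_polarCoord_symm_apply]
    rw [abs_of_pos hp.1]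
  have ht : _root_.polarCoord.target = Ioi (0 : ℝ) ×ˢ Ioo (-π) π := rfl
  rw [ht] at hint ⊢
  rw [Measure.volume_eq_prod, setIntegral_prod _ hint]
  refine setIntegral_congr_fun measurableSet_Ioi fun r _ => ?_
  simp only
  rw [integral_smul, circleAverage_eq_integral_add (-π),
    intervalIntegral.integral_comp_add_right (fun θ => F (circleMap 0 r θ)),
    intervalIntegral.integral_of_le (by linarith [pi_pos]), integral_Ioc_eq_integral_Ioo]
  have e1 : (0 : ℝ) + -π = -π := by ring
  have e2 : 2 * π + -π = π := by ring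
  rw [e1, e2]
  have e3 : ∀ θ : ℝ, Complex.polarCoord.symm (r, θ) = circleMap 0 r θ := by
    intro θ
    simp [circleMap, exp_mul_I]
  simp only [e3, real_smul]
  have : (π : ℂ) ≠ 0 := by exact_mod_cast pi_ne_zero
  push_cast
  field_simp

theorem continuousOn_sphere_of_ann {G : ℂ → ℂ} (hG : DifferentiableOn ℂ G ann) {r : ℝ}
    (h1 : 1 / 2 < r) (h2 : r < 1) : ContinuousOn G (sphere 0 r) :=
  hG.continuousOn.mono fun z hz => by
    rw [mem_sphere_zero_iff_norm] at hz
    exact ⟨hz ▸ h1, hz ▸ h2⟩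

theorem circleIntegrable_of_ann {G : ℂ → ℂ} (hG : DifferentiableOn ℂ G ann) {r : ℝ}
    (h1 : 1 / 2 < r) (h2 : r < 1) : CircleIntegrable G 0 r :=
  (continuousOn_sphere_of_ann hG h1 h2).circleIntegrable (by linarith)

theorem avg_indep_le {G : ℂ → ℂ} (hG : DifferentiableOn ℂ G ann) {r R : ℝ}
    (h1 : 1 / 2 < r) (hle : r ≤ R) (h2 : R < 1) : circleAverage G 0 R = circleAverage G 0 r := by
  rw [circleAverage_eq_circleIntegral (by linarith), circleAverage_eq_circleIntegral (by linarith)]
  congr 1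
  have hsub : closedBall (0 : ℂ) R \ ball 0 r ⊆ ann := by
    intro z hz
    simp only [Set.mem_sdiff, mem_closedBall_zero_iff, mem_ball_zero_iff, not_lt] at hz
    exact ⟨by linarith [hz.2], by linarith [hz.1]⟩
  refine circleIntegral_sub_center_inv_smul_eq_of_differentiable_on_annulus_off_countable
    (s := ∅) (by linarith) hle countable_empty (hG.continuousOn.mono hsub) fun z hz => ?_
  refine hG.differentiableAt (isOpen_ann.mem_nhds (hsub ⟨ball_subset_closedBall hz.1.1, ?_⟩))
  exact fun h => hz.1.2 (ball_subset_closedBall h)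

theorem avg_indep {G : ℂ → ℂ} (hG : DifferentiableOn ℂ G ann) {r R : ℝ}
    (h1 : 1 / 2 < r) (h2 : r < 1) (h3 : 1 / 2 < R) (h4 : R < 1) :
    circleAverage G 0 R = circleAverage G 0 r := by
  rcases le_total r R with h | h
  · exact avg_indep_le hG h1 h h4
  · exact (avg_indep_le hG h3 h h2).symm

theorem ne_zero_of_mem_ann {z : ℂ} (hz : z ∈ ann) : z ≠ 0 := by
  rintro rfl
  have := hz.1
  norm_num at this

/-- The radial cut-off. -/
def chi : ContDiffBump (1 : ℝ) := ⟨1 / 4, 1 / 2, by norm_num, by norm_num⟩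

theorem chi_one : chi 1 = 1 := chi.one_of_mem_closedBall (mem_closedBall_self chi.rIn_pos.le)

theorem chi_ne_zero {s : ℝ} (hs : chi s ≠ 0) : 1 / 2 < s ∧ s < 3 / 2 := by
  have : s ∈ Function.support chi := hs
  rw [chi.support_eq, mem_ball, Real.dist_eq, abs_lt] at this
  have e : chi.rOut = 1 / 2 := rfl
  rw [e] at this
  constructor <;> linarith [this.1, this.2]

theorem chi_quarter : chi (1 / 4) = 0 := by
  by_contra h
  have := (chi_ne_zero h).1
  norm_num at this

theorem deriv_chi_eq_zero {s : ℝ} (hs : s < 1 / 2) : deriv chi s = 0 := by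
  have : (chi : ℝ → ℝ) =ᶠ[𝓝 s] fun _ => 0 := by
    filter_upwards [Iio_mem_nhds hs] with y hy
    by_contra h
    have := (chi_ne_zero h).1
    exact absurd hy (not_lt.2 this.le)
  rw [this.deriv_eq, deriv_const]

theorem chi_hasDerivAt (s : ℝ) : HasDerivAt chi (deriv chi s) s :=
  ((chi.contDiff (n := 1)).differentiable one_ne_zero s).hasDerivAt

theorem continuous_deriv_chi : Continuous (deriv chi) :=
  (chi.contDiff (n := 1)).continuous_deriv le_rfl

/-- The angular test function. -/
def testFn (c : ℂ) (n : ℕ) (z : ℂ) : ℝ := chi (normSq z) * (c * z ^ (n + 1)).re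

theorem contDiff_normSq : ContDiff ℝ 1 (fun z : ℂ => normSq z) := by
  have : (fun z : ℂ => normSq z) = fun z => reCLM z * reCLM z + imCLM z * imCLM z := by
    ext z; simp [normSq_apply]
  rw [this]
  fun_prop

theorem contDiff_testFn (c : ℂ) (n : ℕ) : ContDiff ℝ 1 (testFn c n) := by
  unfold testFn
  refine ((chi.contDiff (n := 1)).comp contDiff_normSq).mul ?_
  exact reCLM.contDiff.comp (contDiff_const.mul (contDiff_id.pow _))

theorem testFn_ne_zero {c : ℂ} {n : ℕ} {z : ℂ} (h : testFn c n z ≠ 0) :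
    1 / 2 < ‖z‖ ∧ ‖z‖ ≤ 2 := by
  have h1 := chi_ne_zero (left_ne_zero_of_mul h)
  rw [Complex.normSq_eq_norm_sq] at h1
  constructor
  · by_contra h2
    have := norm_nonneg z
    nlinarith [h1.1]
  · by_contra h2
    nlinarith [h1.2]

theorem hasCompactSupport_testFn (c : ℂ) (n : ℕ) : HasCompactSupport (testFn c n) := by
  refine HasCompactSupport.intro (isCompact_closedBall (0 : ℂ) 2) fun z hz => ?_
  by_contra h
  exact hz (mem_closedBall_zero_iff.2 (testFn_ne_zero h).2)

theorem dzb_testFn (c : ℂ) (n : ℕ) (z : ℂ) :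
    ((fderiv ℝ (testFn c n) z 1 : ℂ) + I * fderiv ℝ (testFn c n) z I) / 2 =
      deriv chi (normSq z) * z * (c * z ^ (n + 1) + conj c * conj z ^ (n + 1)) / 2 +
        chi (normSq z) * (conj c * (n + 1) * conj z ^ n) / 2 := by
  have h1 : HasFDerivAt (fun z : ℂ => normSq z) ((2 * z.re) • reCLM + (2 * z.im) • imCLM) z := by
    have : (fun z : ℂ => normSq z) = fun z => reCLM z * reCLM z + imCLM z * imCLM z := by
      ext z; simp [normSq_apply]
    rw [this]
    refine ((reCLM.hasFDerivAt.mul reCLM.hasFDerivAt).add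
      (imCLM.hasFDerivAt.mul imCLM.hasFDerivAt)).congr_fderiv ?_
    ext w
    simp
    ring
  have h2 := (chi_hasDerivAt (normSq z)).comp_hasFDerivAt z h1
  have h3 : HasFDerivAt (fun z : ℂ => (c * z ^ (n + 1)).re)
      (reCLM.comp (lin (c * ((n + 1 : ℕ) * z ^ n)) 0)) z := by
    have := (hasDerivAt_pow (n + 1) z).const_mul c
    exact reCLM.hasFDerivAt.comp z (hasFDerivAt_lin_of_hasDerivAt this)
  have h4 : HasFDerivAt (testFn c n) _ z := h2.mul h3
  rw [h4.fderiv]
  have e1 : c * z ^ (n + 1) + conj c * conj z ^ (n + 1) = 2 * ((c * z ^ (n + 1)).re : ℂ) := by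
    rw [← map_pow, ← map_mul, add_conj]; push_cast; ring
  have e2 : conj c * (n + 1) * conj z ^ n = conj (c * ((n + 1 : ℕ) * z ^ n)) := by
    simp only [map_mul, map_pow, map_natCast]; push_cast; ring
  rw [e1, e2]
  set q := c * ((n + 1 : ℕ) * z ^ n)
  set R := (c * z ^ (n + 1)).re
  simp only [add_apply, smul_apply, ContinuousLinearMap.comp_apply, lin_apply, reCLM_apply,
    imCLM_apply, smul_eq_mul, Function.comp_apply]
  apply Complex.ext <;> simp <;> ring

theorem laurent_symm {Ω : Set ℂ} (hΩ : IsOpen Ω) (hA : ∀ z, 1 / 2 < ‖z‖ → (z ∈ Ω ↔ ‖z‖ < 1))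
    {φ : ℂ → ℂ} (hφ : DifferentiableOn ℂ φ ann)
    (H : ∀ l : ℂ → ℝ, ContDiff ℝ 1 l → HasCompactSupport l → (∀ z, l z ≠ 0 → 1 / 2 < ‖z‖) →
      IntegrableOn (fun z => φ z * (I * z * ((fderiv ℝ l z 1 + I * fderiv ℝ l z I) / 2))) Ω ∧
      (∫ z in Ω, φ z * (I * z * ((fderiv ℝ l z 1 + I * fderiv ℝ l z I) / 2))).re = 0) (n : ℕ) :
    circleAverage (fun z => z ^ 2 * φ z * z ^ (n + 1)) 0 (3 / 4) =
      conj (circleAverage (fun z => z ^ 2 * φ z / z ^ (n + 1)) 0 (3 / 4)) := by
  classical
  set P := circleAverage (fun z => z ^ 2 * φ z * z ^ (n + 1)) 0 (3 / 4) with hP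
  set Q := circleAverage (fun z => z ^ 2 * φ z / z ^ (n + 1)) 0 (3 / 4) with hQ
  have hd1 : DifferentiableOn ℂ (fun z => z ^ 2 * φ z * z ^ (n + 1)) ann := by fun_prop
  have hd2 : DifferentiableOn ℂ (fun z => z ^ 2 * φ z / z ^ (n + 1)) ann := by
    refine DifferentiableOn.div (by fun_prop) (by fun_prop) fun z hz => ?_
    exact pow_ne_zero _ (ne_zero_of_mem_ann hz)
  have key : ∀ c : ℂ, (c * P + conj c * Q).im = 0 := by
    intro c
    obtain ⟨hi, hre⟩ := H (testFn c n) (contDiff_testFn c n) (hasCompactSupport_testFn c n)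
      (fun z hz => (testFn_ne_zero hz).1)
    simp only [dzb_testFn] at hi hre
    set W : ℂ → ℂ := fun z => φ z * (I * z *
      (deriv chi (normSq z) * z * (c * z ^ (n + 1) + conj c * conj z ^ (n + 1)) / 2 +
        chi (normSq z) * (conj c * (n + 1) * conj z ^ n) / 2)) with hW
    have hFi : Integrable (Ω.indicator W) := (integrable_indicator_iff hΩ.measurableSet).2 hi
    set g : ℝ → ℂ := fun r => (π * I) * ((r * deriv chi (r ^ 2) : ℝ) * (c * P) +
      ((r * deriv chi (r ^ 2) * r ^ (2 * n + 2) + (n + 1) * chi (r ^ 2) * r ^ (2 * n + 1) : ℝ) : ℂ) *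
        (conj c * Q)) with hg
    have hin : ∀ r ∈ Ioo (1 / 2 : ℝ) 1,
        ((r * (2 * π) : ℝ) : ℂ) * circleAverage (Ω.indicator W) 0 r = g r := by
      intro r hr
      have hr0 : 0 < r := by linarith [hr.1]
      have hrc : (r : ℂ) ≠ 0 := by exact_mod_cast hr0.ne'
      have e1 : circleAverage (Ω.indicator W) 0 r = circleAverage (fun z =>
          (I / 2 * deriv chi (r ^ 2) * c) • (z ^ 2 * φ z * z ^ (n + 1)) +
          (I / 2 * conj c * (deriv chi (r ^ 2) * r ^ (2 * n + 2) +
            (n + 1) * chi (r ^ 2) * r ^ (2 * n))) • (z ^ 2 * φ z / z ^ (n + 1))) 0 r := by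
        refine circleAverage_congr_sphere fun z hz => ?_
        rw [mem_sphere_zero_iff_norm, abs_of_pos hr0] at hz
        have hzΩ : z ∈ Ω := (hA z (hz ▸ hr.1)).2 (hz ▸ hr.2)
        have hz0 : z ≠ 0 := by
          rintro rfl
          rw [norm_zero] at hz
          exact hr0.ne hz
        have hn : normSq z = r ^ 2 := by rw [Complex.normSq_eq_norm_sq, hz]
        have hc : conj z = r ^ 2 / z := by
          rw [eq_div_iff hz0, mul_comm, Complex.mul_conj, hn]; push_cast; ring
        rw [indicator_of_mem hzΩ, hW]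
        simp only [hn, hc, smul_eq_mul, div_pow]
        field_simp
        ring
      rw [e1, circleAverage_fun_add, circleAverage_fun_smul, circleAverage_fun_smul,
        avg_indep hd1 (r := 3 / 4) (by norm_num) (by norm_num) hr.1 hr.2,
        avg_indep hd2 (r := 3 / 4) (by norm_num) (by norm_num) hr.1 hr.2, ← hP, ← hQ, hg]
      · simp only [smul_eq_mul]
        push_cast
        ring
      · exact circleIntegrable_of_ann (hd1.const_mul _) hr.1 hr.2
      · exact circleIntegrable_of_ann (hd2.const_mul _) hr.1 hr.2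
    have hout : ∀ r ∈ Ioi (0 : ℝ) \ Ioo (1 / 2 : ℝ) 1,
        ((r * (2 * π) : ℝ) : ℂ) * circleAverage (Ω.indicator W) 0 r = 0 := by
      intro r hr
      have hr0 : 0 < r := hr.1
      rw [circleAverage_const_on_circle (a := 0), mul_zero]
      intro z hz
      rw [mem_sphere_zero_iff_norm, abs_of_pos hr0] at hz
      by_cases hzΩ : z ∈ Ω
      · have hr2 : r ≤ 1 / 2 := by
          by_contra h
          push Not at h
          exact hr.2 ⟨h, hz ▸ (hA z (hz ▸ h)).1 hzΩ⟩
        have hn : normSq z < 1 / 2 := by rw [Complex.normSq_eq_norm_sq, hz]; nlinarith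
        have h0 : chi (normSq z) = 0 := by
          by_contra h
          exact absurd (chi_ne_zero h).1 (not_lt.2 hn.le)
        rw [indicator_of_mem hzΩ, hW]
        simp [h0, deriv_chi_eq_zero hn]
      · exact indicator_of_notMem hzΩ _
    have hsub : Ioo (1 / 2 : ℝ) 1 ⊆ Ioi 0 := fun r hr => by
      have := hr.1
      rw [mem_Ioi]; linarith
    have hval : ∫ z in Ω, W z = ∫ r in (1 / 2 : ℝ)..1, g r := by
      rw [← integral_indicator hΩ.measurableSet, integral_polar hFi,
        setIntegral_eq_of_subset_of_forall_sdiff_eq_zero measurableSet_Ioi hsub hout,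
        setIntegral_congr_fun measurableSet_Ioo hin,
        intervalIntegral.integral_of_le (by norm_num), integral_Ioc_eq_integral_Ioo]
    set Ψ : ℝ → ℂ := fun r => (π * I) * (((chi (r ^ 2) / 2 : ℝ) : ℂ) * (c * P) +
      ((chi (r ^ 2) * r ^ (2 * n + 2) / 2 : ℝ) : ℂ) * (conj c * Q)) with hΨ
    have hder : ∀ r, HasDerivAt Ψ (g r) r := by
      intro r
      have a1 : HasDerivAt (fun r : ℝ => chi (r ^ 2)) (deriv chi (r ^ 2) * (2 * r)) r := by
        refine ((chi_hasDerivAt (r ^ 2)).comp r (hasDerivAt_pow 2 r)).congr_deriv ?_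
        simp
      have a2 := (a1.div_const 2).ofReal_comp
      have a3 := ((a1.mul (hasDerivAt_pow (2 * n + 2) r)).div_const 2).ofReal_comp
      have a4 := ((a2.mul_const (c * P)).add (a3.mul_const (conj c * Q))).const_mul (π * I)
      refine a4.congr_deriv ?_
      rw [hg]
      simp only [Nat.add_succ_sub_one]
      push_cast
      ring
    have hgc : Continuous g := by
      have := continuous_deriv_chi
      have := chi.continuous
      rw [hg]
      fun_prop
    rw [hval, intervalIntegral.integral_eq_sub_of_hasDerivAt (fun r _ => hder r)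
      (hgc.intervalIntegrable _ _)] at hre
    have e4 : ((1 / 2 : ℝ)) ^ 2 = 1 / 4 := by norm_num
    simp only [hΨ, one_pow, chi_one, e4, chi_quarter] at hre
    have e5 : (π * I : ℂ) * ((((1 : ℝ) / 2 : ℝ) : ℂ) * (c * P) + (((1 : ℝ) * 1 / 2 : ℝ) : ℂ) *
        (conj c * Q)) - (π * I) * ((((0 : ℝ) / 2 : ℝ) : ℂ) * (c * P) +
        (((0 : ℝ) * (1 / 2) ^ (2 * n + 2) / 2 : ℝ) : ℂ) * (conj c * Q)) =
        ((π / 2 : ℝ) : ℂ) * (I * (c * P + conj c * Q)) := by
      push_cast; ring
    rw [e5, re_ofReal_mul, I_mul_re] at hre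
    have := pi_pos
    rcases mul_eq_zero.1 hre with h | h
    · linarith
    · linarith
  have k1 := key 1
  have k2 := key I
  simp at k1 k2
  apply Complex.ext <;> simp <;> linarith

end Pool.Agent.Lib.MP_e277cf_an
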