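import Pool.Agent.Lib.MP_e277cf_an.Defs

/-!
Elementary topology of homeomorphisms between circle domains: the correspondence of ends.
-/

open Set Metric Complex Filter Topology
open scoped ComplexConjugate

noncomputable section

namespace Pool.Agent.Lib.MP_e277cf_an

theorem mem_circleDomain {R ε : ℝ} {z : ℂ} :
    z ∈ circleDomain R ε ↔ ‖z‖ < R ∧ ε < ‖z‖ ∧ ε < ‖z - 1 / 4‖ := by
  simp only [circleDomain, Set.mem_sdiff, mem_ball_zero_iff, mem_union,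
    mem_closedBall, dist_eq_norm, not_or, not_le, sub_zero]

theorem isOpen_circleDomain (R ε : ℝ) : IsOpen (circleDomain R ε) :=
  isOpen_ball.sdiff (isClosed_closedBall.union isClosed_closedBall)

theorem isBounded_circleDomain (R ε : ℝ) : Bornology.IsBounded (circleDomain R ε) :=
  isBounded_ball.subset sdiff_subset

theorem norm_quarter : ‖(1 / 4 : ℂ)‖ = 1 / 4 := by simp

/-- Distance to the three boundary circles. -/
def dEnd (R ε : ℝ) : Fin 3 → ℂ → ℝ :=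
  ![fun z => ‖z‖ - ε, fun z => ‖z - 1 / 4‖ - ε, fun z => R - ‖z‖]

@[simp] theorem dEnd_zero (R ε : ℝ) (z : ℂ) : dEnd R ε 0 z = ‖z‖ - ε := rfl
@[simp] theorem dEnd_one (R ε : ℝ) (z : ℂ) : dEnd R ε 1 z = ‖z - 1 / 4‖ - ε := rfl
@[simp] theorem dEnd_two (R ε : ℝ) (z : ℂ) : dEnd R ε 2 z = R - ‖z‖ := rfl

theorem continuous_dEnd (R ε : ℝ) (i : Fin 3) : Continuous (dEnd R ε i) := by
  fin_cases i
  · exact continuous_norm.sub continuous_const
  · exact (continuous_id.sub continuous_const).norm.sub continuous_const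
  · exact continuous_const.sub continuous_norm

theorem mem_iff_dEnd {R ε : ℝ} {z : ℂ} : z ∈ circleDomain R ε ↔ ∀ i, 0 < dEnd R ε i z := by
  rw [mem_circleDomain, Fin.forall_fin_succ, Fin.forall_fin_two]
  change _ ↔ 0 < ‖z‖ - ε ∧ 0 < ‖z - 1 / 4‖ - ε ∧ 0 < R - ‖z‖
  simp only [sub_pos]
  tauto

theorem tri1 (z : ℂ) : 1 / 4 ≤ ‖z‖ + ‖z - 1 / 4‖ := by
  have := norm_sub_le z (z - 1 / 4)
  rwa [sub_sub_cancel, norm_quarter] at this

theorem tri2 (z : ℂ) : ‖z‖ ≤ ‖z - 1 / 4‖ + 1 / 4 := by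
  have := norm_add_le (z - 1 / 4) (1 / 4)
  rwa [sub_add_cancel, norm_quarter] at this

theorem tri3 (z : ℂ) : ‖z - 1 / 4‖ ≤ ‖z‖ + 1 / 4 := by
  have := norm_sub_le z (1 / 4)
  rwa [norm_quarter] at this

theorem dEnd_sep {R ε : ℝ} (hR : 1 ≤ R) (hε : ε ≤ 1 / 32) {w : ℂ} {i j : Fin 3}
    (hi : dEnd R ε i w < 1 / 16) (hj : dEnd R ε j w < 1 / 16) : i = j := by
  have := tri1 w
  have := tri2 w
  fin_cases i <;> fin_cases j <;> simp at hi hj ⊢ <;> linarith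

theorem isPreconnected_annulus (c : ℂ) {r₁ r₂ : ℝ} (h : 0 ≤ r₁) :
    IsPreconnected {z : ℂ | r₁ < ‖z - c‖ ∧ ‖z - c‖ < r₂} := by
  have : {z : ℂ | r₁ < ‖z - c‖ ∧ ‖z - c‖ < r₂} =
      (fun p : ℝ × ℝ => circleMap c p.1 p.2) '' (Ioo r₁ r₂ ×ˢ univ) := by
    ext z
    constructor
    · intro hz
      refine ⟨(‖z - c‖, arg (z - c)), ⟨hz, mem_univ _⟩, ?_⟩
      simp only [circleMap]
      rw [norm_mul_exp_arg_mul_I]; ring
    · rintro ⟨p, ⟨hp, _⟩, rfl⟩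
      have h0 : 0 ≤ p.1 := h.trans hp.1.le
      simp only [mem_ofPred_eq, circleMap_sub_center, norm_circleMap_zero, abs_of_nonneg h0]
      exact hp
  rw [this]
  exact (isPreconnected_Ioo.prod isPreconnected_univ).image _ (by fun_prop)

theorem endNbhd_eq {R ε s : ℝ} (hR : 1 ≤ R) (hε0 : 0 ≤ ε) (hε : ε ≤ 1 / 32) (hs : s ≤ 1 / 16)
    (i : Fin 3) : ∃ c r₁, 0 ≤ r₁ ∧ {z ∈ circleDomain R ε | dEnd R ε i z < s} =
      {z : ℂ | r₁ < ‖z - c‖ ∧ ‖z - c‖ < r₁ + s} := by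
  fin_cases i
  · refine ⟨0, ε, hε0, ?_⟩
    ext z
    have := tri1 z
    simp only [mem_ofPred_eq, mem_circleDomain, Fin.zero_eta, dEnd_zero, sub_zero]
    constructor
    · rintro ⟨⟨_, h2, _⟩, h4⟩; exact ⟨h2, by linarith⟩
    · rintro ⟨h1, h2⟩; exact ⟨⟨by linarith, h1, by linarith⟩, by linarith⟩
  · refine ⟨1 / 4, ε, hε0, ?_⟩
    ext z
    have := tri1 z
    have := tri2 z
    simp only [mem_ofPred_eq, mem_circleDomain, Fin.mk_one, dEnd_one]
    constructor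
    · rintro ⟨⟨_, _, h2⟩, h4⟩; exact ⟨h2, by linarith⟩
    · rintro ⟨h1, h2⟩; exact ⟨⟨by linarith, by linarith, h1⟩, by linarith⟩
  · refine ⟨0, R - s, by linarith, ?_⟩
    ext z
    have := tri2 z
    simp only [mem_ofPred_eq, mem_circleDomain, Fin.reduceFinMk, dEnd_two, sub_zero]
    constructor
    · rintro ⟨⟨h1, _, _⟩, h4⟩; exact ⟨by linarith, by linarith⟩
    · rintro ⟨h1, h2⟩; exact ⟨⟨by linarith, by linarith, by linarith⟩, by linarith⟩

theorem endNbhd_preconnected {R ε s : ℝ} (hR : 1 ≤ R) (hε0 : 0 ≤ ε) (hε : ε ≤ 1 / 32)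
    (hs : s ≤ 1 / 16) (i : Fin 3) :
    IsPreconnected {z ∈ circleDomain R ε | dEnd R ε i z < s} := by
  obtain ⟨c, r₁, h0, e⟩ := endNbhd_eq hR hε0 hε hs i
  rw [e]
  exact isPreconnected_annulus c h0

theorem endNbhd_nonempty {R ε s : ℝ} (hR : 1 ≤ R) (hε0 : 0 ≤ ε) (hε : ε ≤ 1 / 32)
    (hs0 : 0 < s) (i : Fin 3) : ∃ z ∈ circleDomain R ε, dEnd R ε i z < s := by
  obtain ⟨c, r₁, h0, e⟩ := endNbhd_eq (s := min s (1 / 16)) hR hε0 hε (min_le_right _ _) i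
  have hm : 0 < min s (1 / 16) := by positivity
  have : c + ((r₁ + min s (1 / 16) / 2 : ℝ) : ℂ) ∈
      {z : ℂ | r₁ < ‖z - c‖ ∧ ‖z - c‖ < r₁ + min s (1 / 16)} := by
    simp only [mem_ofPred_eq, add_sub_cancel_left, norm_real, Real.norm_eq_abs]
    rw [abs_of_pos (by linarith)]
    constructor <;> linarith
  rw [← e] at this
  exact ⟨_, this.1, this.2.trans_le (min_le_left _ _)⟩

/-- Homeomorphism data between two circle domains. -/
structure Hom (R R' ε δ : ℝ) (h k : ℂ → ℂ) : Prop where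
  cont : ContinuousOn h (circleDomain R ε)
  cont' : ContinuousOn k (circleDomain R' δ)
  maps : MapsTo h (circleDomain R ε) (circleDomain R' δ)
  maps' : MapsTo k (circleDomain R' δ) (circleDomain R ε)
  inv : InvOn k h (circleDomain R ε) (circleDomain R' δ)

theorem Hom.symm {R R' ε δ : ℝ} {h k : ℂ → ℂ} (H : Hom R R' ε δ h k) : Hom R' R δ ε k h :=
  ⟨H.cont', H.cont, H.maps', H.maps, H.inv.symm⟩

theorem Hom.image_mem_nhds {R R' ε δ : ℝ} {h k : ℂ → ℂ} (H : Hom R R' ε δ h k) {z : ℂ}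
    (hz : z ∈ circleDomain R ε) {S : Set ℂ} (hS : S ∈ 𝓝 z) : h '' S ∈ 𝓝 (h z) := by
  have h1 : circleDomain R' δ ∈ 𝓝 (h z) := (isOpen_circleDomain _ _).mem_nhds (H.maps hz)
  have h2 : ContinuousAt k (h z) := H.cont'.continuousAt h1
  have h3 : k ⁻¹' S ∈ 𝓝 (h z) := h2 (by rwa [H.inv.1 hz])
  filter_upwards [h1, h3] with w hw hw'
  exact ⟨k w, hw', H.inv.2 hw⟩

/-- The end `i` of the source is mapped to the end `j` of the target. -/
def Ends (R R' ε δ : ℝ) (h : ℂ → ℂ) (i j : Fin 3) : Prop :=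
  ∀ η > 0, ∃ s > 0, ∀ z ∈ circleDomain R ε, dEnd R ε i z < s → dEnd R' δ j (h z) < η

theorem Hom.proper {R R' ε δ : ℝ} {h k : ℂ → ℂ} (H : Hom R R' ε δ h k) {η : ℝ} (hη : 0 < η) :
    ∃ s > 0, ∀ z ∈ circleDomain R ε, ∀ i, dEnd R ε i z < s → ∃ j, dEnd R' δ j (h z) < η := by
  set C : Set ℂ := {w | ∀ j, η ≤ dEnd R' δ j w} with hC
  have hCc : IsCompact C := by
    refine isCompact_of_isClosed_isBounded ?_ ?_
    · rw [hC, ofPred_forall]
      exact isClosed_iInter fun j => isClosed_le continuous_const (continuous_dEnd _ _ j)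
    · refine (isBounded_closedBall (x := (0 : ℂ)) (r := R')).subset fun w hw => ?_
      have := hw 2
      rw [dEnd_two] at this
      rw [mem_closedBall_zero_iff]; linarith
  have hCs : C ⊆ circleDomain R' δ := fun w hw => mem_iff_dEnd.2 fun j => hη.trans_le (hw j)
  have hK : IsCompact (k '' C) := hCc.image_of_continuousOn (H.cont'.mono hCs)
  have hb : ∀ i, ∃ s, 0 < s ∧ ∀ z ∈ k '' C, s ≤ dEnd R ε i z := fun i =>
    hK.exists_forall_le' (continuous_dEnd R ε i).continuousOn (by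
      rintro _ ⟨w, hw, rfl⟩
      exact mem_iff_dEnd.1 (H.maps' (hCs hw)) i)
  choose s hs0 hs using hb
  refine ⟨min (s 0) (min (s 1) (s 2)), lt_min (hs0 0) (lt_min (hs0 1) (hs0 2)),
    fun z hz i hi => ?_⟩
  by_contra hne
  push Not at hne
  have := hs i z ⟨h z, hne, H.inv.1 hz⟩
  have h2 : min (s 0) (min (s 1) (s 2)) ≤ s i := by
    fin_cases i
    · exact min_le_left _ _
    · exact (min_le_right _ _).trans (min_le_left _ _)
    · exact (min_le_right _ _).trans (min_le_right _ _)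
  linarith

theorem Hom.exists_ends {R R' ε δ : ℝ} {h k : ℂ → ℂ} (H : Hom R R' ε δ h k) (hR : 1 ≤ R)
    (hR' : 1 ≤ R') (hε0 : 0 ≤ ε) (hε : ε ≤ 1 / 32) (hδ : δ ≤ 1 / 32) (i : Fin 3) :
    ∃ j, Ends R R' ε δ h i j := by
  obtain ⟨s₀, hs₀, H₀⟩ := H.proper (η := 1 / 16) (by norm_num)
  set s₁ := min s₀ (1 / 16) with hs₁
  have hs₁0 : 0 < s₁ := by positivity
  obtain ⟨z₀, hz₀, hz₀'⟩ := endNbhd_nonempty hR hε0 hε hs₁0 i
  obtain ⟨j, hj⟩ := H₀ z₀ hz₀ i (hz₀'.trans_le (min_le_left _ _))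
  have hpc := (endNbhd_preconnected hR hε0 hε (min_le_right s₀ _) i).image h
    (H.cont.mono fun z hz => hz.1)
  have hsub := hpc.subset_left_of_subset_union (u := {w | dEnd R' δ j w < 1 / 16})
    (v := ⋃ j' ∈ {j' | j' ≠ j}, {w | dEnd R' δ j' w < 1 / 16})
    (isOpen_lt (continuous_dEnd _ _ _) continuous_const)
    (isOpen_biUnion fun j' _ => isOpen_lt (continuous_dEnd _ _ _) continuous_const)
    (by
      rw [Set.disjoint_left]
      intro w hw hw'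
      simp only [mem_iUnion] at hw'
      obtain ⟨j', hj', hw'⟩ := hw'
      exact hj' (dEnd_sep hR' hδ hw' hw))
    (by
      rintro _ ⟨z, hz, rfl⟩
      obtain ⟨j', hj'⟩ := H₀ z hz.1 i (hz.2.trans_le (min_le_left _ _))
      by_cases e : j' = j
      · left; rw [← e]; exact hj'
      · right; exact mem_biUnion (show j' ∈ {j' | j' ≠ j} from e) hj')
    ⟨h z₀, mem_image_of_mem h (show z₀ ∈ {z ∈ circleDomain R ε | dEnd R ε i z < s₁} from
      ⟨hz₀, hz₀'⟩), hj⟩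
  refine ⟨j, fun η hη => ?_⟩
  obtain ⟨s, hs, Hs⟩ := H.proper (η := min η (1 / 16)) (by positivity)
  refine ⟨min s s₁, by positivity, fun z hz hi => ?_⟩
  obtain ⟨j', hj'⟩ := Hs z hz i (hi.trans_le (min_le_left _ _))
  have h1 : dEnd R' δ j (h z) < 1 / 16 := hsub ⟨z, ⟨hz, hi.trans_le (min_le_right _ _)⟩, rfl⟩
  have e := dEnd_sep hR' hδ (hj'.trans_le (min_le_right _ _)) h1
  rw [← e]
  exact hj'.trans_le (min_le_left _ _)

theorem Hom.exists_endMap {R R' ε δ : ℝ} {h k : ℂ → ℂ} (H : Hom R R' ε δ h k) (hR : 1 ≤ R)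
    (hR' : 1 ≤ R') (hε0 : 0 ≤ ε) (hε : ε ≤ 1 / 32) (hδ0 : 0 ≤ δ) (hδ : δ ≤ 1 / 32) :
    ∃ e : Fin 3 → Fin 3, Function.Injective e ∧ ∀ i, Ends R R' ε δ h i (e i) := by
  choose e he using H.exists_ends hR hR' hε0 hε hδ
  refine ⟨e, Finite.injective_iff_surjective.2 fun j => ?_, he⟩
  obtain ⟨i, hi⟩ := H.symm.exists_ends hR' hR hδ0 hδ hε j
  refine ⟨i, ?_⟩
  obtain ⟨s₁, hs₁, H₁⟩ := he i (1 / 16) (by norm_num)
  obtain ⟨s₂, hs₂, H₂⟩ := hi s₁ hs₁
  obtain ⟨w, hw, hw'⟩ := endNbhd_nonempty (s := min s₂ (1 / 16)) hR' hδ0 hδ (by positivity) j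
  have := H₁ (k w) (H.maps' hw) (H₂ w hw (hw'.trans_le (min_le_left _ _)))
  rw [H.inv.2 hw] at this
  exact dEnd_sep hR' hδ this (hw'.trans_le (min_le_right _ _))

/-- An open map cannot cross a line inside a compact set whose boundary avoids the line. -/
theorem no_cross {h : ℂ → ℂ} {S : Set ℂ} (hS : IsCompact S) (hc : ContinuousOn h S)
    (ho : ∀ z ∈ S, S ∈ 𝓝 z → h '' S ∈ 𝓝 (h z)) {ω : ℂ} (hω : ω ≠ 0) {t : ℝ}
    (hb : ∀ z ∈ S, (conj ω * h z).re = t → S ∈ 𝓝 z) {z₁ z₂ : ℂ} (hseg : segment ℝ z₁ z₂ ⊆ S)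
    (h₁ : (conj ω * h z₁).re < t) (h₂ : t < (conj ω * h z₂).re) : False := by
  have hc1 : ContinuousOn (fun z => (conj ω * h z).re) S :=
    continuous_re.comp_continuousOn (continuousOn_const.mul hc)
  have hc2 : ContinuousOn (fun z => (conj ω * h z).im) S :=
    continuous_im.comp_continuousOn (continuousOn_const.mul hc)
  obtain ⟨z₀, hz₀, hz₀t⟩ := (convex_segment z₁ z₂).isPreconnected.intermediate_value
    (left_mem_segment ℝ z₁ z₂) (right_mem_segment ℝ z₁ z₂) (hc1.mono hseg) ⟨h₁.le, h₂.le⟩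
  set K := S ∩ (fun z => (conj ω * h z).re) ⁻¹' {t} with hK
  have hKc : IsCompact K :=
    hS.of_isClosed_subset (hc1.preimage_isClosed_of_isClosed hS.isClosed isClosed_singleton)
      inter_subset_left
  obtain ⟨z, hzK, hmax⟩ := hKc.exists_isMaxOn ⟨z₀, hseg hz₀, hz₀t⟩ (hc2.mono inter_subset_left)
  have hn := ho z hzK.1 (hb z hzK.1 hzK.2)
  have ht : Tendsto (fun τ : ℝ => h z + τ * (I * ω)) (𝓝[>] 0) (𝓝 (h z)) := by
    have : Continuous (fun τ : ℝ => h z + τ * (I * ω)) := by fun_prop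
    have := this.tendsto 0
    simp only [ofReal_zero, zero_mul, add_zero] at this
    exact this.mono_left nhdsWithin_le_nhds
  obtain ⟨τ, ⟨z', hz', e⟩, hτ⟩ := ((ht.eventually hn).and self_mem_nhdsWithin).exists
  have hτ' : (0 : ℝ) < τ := hτ
  have e2 : conj ω * h z' = conj ω * h z + ((τ * normSq ω : ℝ) : ℂ) * I := by
    rw [e]; push_cast; rw [normSq_eq_conj_mul_self]; ring
  have hz'K : z' ∈ K := by
    refine ⟨hz', ?_⟩
    have := hzK.2
    simp only [mem_preimage, mem_singleton_iff] at this ⊢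
    rw [e2, add_re, this]; simp
  have := hmax hz'K
  simp only [mem_ofPred_eq] at this
  rw [e2, add_im] at this
  have h3 : 0 < τ * normSq ω := mul_pos hτ' (normSq_pos.2 hω)
  rw [mul_I_im, ofReal_re] at this
  linarith

/-- Minimum principle for the norm of an open map without zeros. -/
theorem min_norm {h : ℂ → ℂ} {S : Set ℂ} (hS : IsCompact S) (hc : ContinuousOn h S)
    (ho : ∀ z ∈ S, S ∈ 𝓝 z → h '' S ∈ 𝓝 (h z)) (h0 : ∀ z ∈ S, h z ≠ 0) {δ : ℝ}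
    (hb : ∀ z ∈ S, ‖h z‖ < δ → S ∈ 𝓝 z) : ∀ z ∈ S, δ ≤ ‖h z‖ := by
  intro z₀ hz₀
  obtain ⟨z, hz, hmin⟩ := hS.exists_isMinOn ⟨z₀, hz₀⟩ hc.norm
  by_contra hlt
  push Not at hlt
  have hn := ho z hz (hb z hz (lt_of_le_of_lt (hmin hz₀) hlt))
  have ht : Tendsto (fun τ : ℝ => ((1 - τ : ℝ) : ℂ) * h z) (𝓝[>] 0) (𝓝 (h z)) := by
    have : Continuous (fun τ : ℝ => ((1 - τ : ℝ) : ℂ) * h z) := by fun_prop
    have := this.tendsto 0
    simp only [sub_zero, ofReal_one, one_mul] at this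
    exact this.mono_left nhdsWithin_le_nhds
  obtain ⟨τ, ⟨z', hz', e⟩, hτ⟩ := ((ht.eventually hn).and (Ioo_mem_nhdsGT one_pos)).exists
  have := hmin hz'
  simp only [mem_ofPred_eq] at this
  rw [e, norm_mul, norm_real, Real.norm_eq_abs, abs_of_pos (by linarith [hτ.2])] at this
  have := norm_pos_iff.2 (h0 z hz)
  nlinarith [hτ.1]

end Pool.Agent.Lib.MP_e277cf_an
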