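import Pool.Agent.Lib.MP_e277cf_an.Outer

/-!
Weyl's lemma for the Cauchy-Riemann operator, and holomorphy of the Wirtinger derivatives of an
energy-minimal diffeomorphism.
-/

open MeasureTheory Set Metric Complex Filter Topology
open scoped ENNReal ContDiff NNReal ComplexConjugate Convolution

noncomputable section

namespace Pool.Agent.Lib.MP_e277cf_an

theorem weyl {Ω : Set ℂ} (hΩ : IsOpen Ω) {f : ℂ → ℂ} (hf : ContinuousOn f Ω)
    (H : ∀ η : ℂ → ℝ, ContDiff ℝ 2 η → HasCompactSupport η → tsupport η ⊆ Ω →
      (∫ z, fderiv ℝ η z 1 • f z) + I * (∫ z, fderiv ℝ η z I • f z) = 0) :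
    DifferentiableOn ℂ f Ω := by
  classical
  intro z₀ hz₀
  obtain ⟨R, hR, hRΩ⟩ := nhds_basis_closedBall.mem_iff.1 (hΩ.mem_nhds hz₀)
  set r := R / 2 with hr
  have hrpos : 0 < r := by positivity
  set g : ℂ → ℂ := (closedBall z₀ R).indicator f with hg
  have hgi : Integrable g :=
    (integrable_indicator_iff measurableSet_closedBall).2
      ((hf.mono hRΩ).integrableOn_compact (isCompact_closedBall _ _))
  let ρ : ℕ → ContDiffBump (0 : ℂ) := fun n =>
    ⟨r / (n + 1) / 2, r / (n + 1), by positivity, by
      have : 0 < r / (n + 1) := by positivity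
      linarith⟩
  have hρ : ∀ n, (ρ n).rOut = r / (n + 1) := fun n => rfl
  have hρr : ∀ n, (ρ n).rOut ≤ r := by
    intro n
    rw [hρ]
    exact div_le_self hrpos.le (by have : (0 : ℝ) ≤ n := n.cast_nonneg; linarith)
  set F : ℕ → ℂ → ℂ := fun n =>
    ((ρ n).normed volume ⋆[ContinuousLinearMap.lsmul ℝ ℝ, volume] g : ℂ → ℂ) with hF
  have hball : ∀ x ∈ ball z₀ r, ∀ n, closedBall x (ρ n).rOut ⊆ closedBall z₀ R := by
    intro x hx n
    refine closedBall_subset_closedBall' ?_
    have := hρr n
    rw [mem_ball] at hx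
    linarith
  have hFd : ∀ n, DifferentiableOn ℂ (F n) (ball z₀ r) := by
    intro n x hx
    set σ := (ρ n).normed volume with hσ
    have hσc : HasCompactSupport σ := (ρ n).hasCompactSupport_normed
    have hσd : ContDiff ℝ 2 σ := (ρ n).contDiff_normed
    have hσd1 : ContDiff ℝ 1 σ := (ρ n).contDiff_normed
    set L : ℂ →L[ℝ] ℝ →L[ℝ] ℂ := (ContinuousLinearMap.lsmul ℝ ℝ).flip with hL
    have e : F n = g ⋆[L, volume] σ := by
      rw [hF, hL, convolution_flip]
    have hD := hσc.hasFDerivAt_convolution_right L hgi.locallyIntegrable hσd1 x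
    have hDv : ∀ v, (g ⋆[L.precompR ℂ, volume] fderiv ℝ σ) x v =
        ∫ t, fderiv ℝ σ (x - t) v • g t := by
      intro v
      rw [convolution_precompR_apply L hgi.locallyIntegrable (hσc.fderiv ℝ)
        (hσd1.continuous_fderiv one_ne_zero), convolution_def]
      rfl
    set η : ℂ → ℝ := fun t => σ (x - t) with hη
    have hηd : ContDiff ℝ 2 η := hσd.comp (contDiff_const.sub contDiff_id)
    have hηs : tsupport η ⊆ closedBall x (ρ n).rOut := by
      refine closure_minimal ?_ isClosed_closedBall
      intro t ht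
      have : x - t ∈ Function.support σ := ht
      rw [hσ, (ρ n).support_normed_eq, mem_ball_zero_iff] at this
      rw [mem_closedBall, dist_comm, dist_eq_norm]
      exact this.le
    have hηc : HasCompactSupport η :=
      IsCompact.of_isClosed_subset (isCompact_closedBall _ _) (isClosed_tsupport _) hηs
    have hηD : ∀ t v, fderiv ℝ η t v = -fderiv ℝ σ (x - t) v := by
      intro t v
      have h1 : HasFDerivAt (fun t : ℂ => x - t) (-ContinuousLinearMap.id ℝ ℂ) t :=
        (hasFDerivAt_id t).const_sub x
      have h2 := ((hσd1.differentiable one_ne_zero (x - t)).hasFDerivAt.comp t h1).fderiv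
      have h3 : η = σ ∘ fun t : ℂ => x - t := rfl
      rw [h3, h2]
      simp
    have hint : ∀ v, ∫ t, fderiv ℝ σ (x - t) v • g t = -∫ t, fderiv ℝ η t v • f t := by
      intro v
      rw [← integral_neg]
      congr 1
      ext t
      by_cases ht : t ∈ closedBall z₀ R
      · rw [hg, indicator_of_mem ht, hηD, neg_smul, neg_neg]
      · have : fderiv ℝ η t v = 0 := image_eq_zero_of_notMem_tsupport
          (f := fun z => fderiv ℝ η z v)
          (fun h => ht (hball x hx n (hηs (tsupport_fderiv_apply_subset' η v h))))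
        rw [hg, indicator_of_notMem ht, this]
        simp
    have hH := H η hηd hηc (hηs.trans ((hball x hx n).trans hRΩ))
    refine DifferentiableAt.differentiableWithinAt ?_
    rw [differentiableAt_complex_iff_differentiableAt_real, e]
    refine ⟨hD.differentiableAt, ?_⟩
    rw [hD.fderiv, hDv, hDv, hint, hint, smul_eq_mul]
    linear_combination (I) * hH - (∫ t, fderiv ℝ η t I • f t) * I_mul_I
  have hconv : TendstoUniformlyOn F f atTop (ball z₀ r) := by
    rw [Metric.tendstoUniformlyOn_iff]
    intro ε hε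
    have huc := (isCompact_closedBall z₀ R).uniformContinuousOn_of_continuous (hf.mono hRΩ)
    rw [Metric.uniformContinuousOn_iff] at huc
    obtain ⟨δ, hδ, hδ'⟩ := huc (ε / 2) (by positivity)
    have hlim : Tendsto (fun n : ℕ => r / ((n : ℝ) + 1)) atTop (𝓝 0) :=
      tendsto_const_nhds.div_atTop (tendsto_atTop_add_const_right _ _ tendsto_natCast_atTop_atTop)
    filter_upwards [hlim.eventually (gt_mem_nhds hδ)] with n hn x hx
    have hxR : x ∈ closedBall z₀ R := hball x hx n (mem_closedBall_self (ρ n).rOut_pos.le)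
    have key := (ρ n).dist_normed_convolution_le (μ := volume) (g := g) (x₀ := x) (ε := ε / 2)
      hgi.aestronglyMeasurable (fun y hy => by
        have hyR : y ∈ closedBall z₀ R := hball x hx n (ball_subset_closedBall hy)
        rw [hg, indicator_of_mem hyR, indicator_of_mem hxR]
        exact (hδ' y hyR x hxR ((mem_ball.1 hy).trans hn)).le)
    rw [dist_comm]
    have e : g x = f x := by rw [hg, indicator_of_mem hxR]
    rw [e] at key
    exact lt_of_le_of_lt key (by linarith)
  have := hconv.tendstoLocallyUniformlyOn.differentiableOn (Eventually.of_forall hFd) isOpen_ball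
  exact (this.differentiableAt (ball_mem_nhds z₀ hrpos)).differentiableWithinAt

/-- The Wirtinger derivatives of a minimal diffeomorphism are holomorphic. -/
theorem holomorphic_of_isMinimal {Ω Ω' : Set ℂ} (hΩ : IsOpen Ω) (hΩ' : IsOpen Ω') {h k : ℂ → ℂ}
    (H : IsMinimal Ω Ω' h k) :
    DifferentiableOn ℂ (fun z => dz (fderiv ℝ h z)) Ω ∧
      DifferentiableOn ℂ (fun z => conj (dzb (fderiv ℝ h z))) Ω := by
  have hd := continuousOn_fderiv_of hΩ H.cd
  have hint : ∀ η : ℂ → ℝ, ContDiff ℝ 2 η → HasCompactSupport η → tsupport η ⊆ Ω → ∀ v w,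
      Integrable (fun z => fderiv ℝ η z v • fderiv ℝ h z w) := fun η hη hc hs v w =>
    integrable_smul_of_tsupport
      ((hη.continuous_fderiv two_ne_zero).clm_apply continuous_const)
      (hasCompactSupport_fderiv_apply hc v)
      ((tsupport_fderiv_apply_subset' η v).trans hs) (hd.clm_apply continuousOn_const)
  constructor
  · refine weyl hΩ (continuous_dz.comp_continuousOn hd) fun η hη hc hs => ?_
    have e : ∀ v, ∫ z, fderiv ℝ η z v • dz (fderiv ℝ h z) =
        ((∫ z, fderiv ℝ η z v • fderiv ℝ h z 1) - I * ∫ z, fderiv ℝ η z v • fderiv ℝ h z I) / 2 := by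
      intro v
      rw [← integral_const_mul, ← integral_sub (hint η hη hc hs v 1)
        ((hint η hη hc hs v I).const_mul I), ← integral_div]
      congr 1
      ext z
      simp only [dz, real_smul]
      ring
    have h1 := outer_variation hΩ hΩ' H (hη.of_le (by norm_num)) hc hs
    have h2 := weak_symm hΩ H.cd hη hc hs
    rw [e, e]
    linear_combination (1 / 2) * h1 - (I / 2) * h2 -
      (1 / 2) * (∫ z, fderiv ℝ η z I • fderiv ℝ h z I) * I_mul_I
  · refine weyl hΩ (continuous_conj.comp_continuousOn (continuous_dzb.comp_continuousOn hd))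
      fun η hη hc hs => ?_
    have e : ∀ v, ∫ z, fderiv ℝ η z v • conj (dzb (fderiv ℝ h z)) =
        conj (((∫ z, fderiv ℝ η z v • fderiv ℝ h z 1) +
          I * ∫ z, fderiv ℝ η z v • fderiv ℝ h z I) / 2) := by
      intro v
      rw [← integral_const_mul, ← integral_add (hint η hη hc hs v 1)
        ((hint η hη hc hs v I).const_mul I), ← integral_div, ← integral_conj]
      congr 1
      ext z
      simp only [dzb, real_smul, map_div₀, map_add, map_mul, conj_ofReal]
      ring
    have h1 := outer_variation hΩ hΩ' H (hη.of_le (by norm_num)) hc hs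
    have h2 := weak_symm hΩ H.cd hη hc hs
    rw [e, e]
    have h3 : ((∫ z, fderiv ℝ η z 1 • fderiv ℝ h z 1) +
          I * ∫ z, fderiv ℝ η z 1 • fderiv ℝ h z I) / 2 - I *
        (((∫ z, fderiv ℝ η z I • fderiv ℝ h z 1) +
          I * ∫ z, fderiv ℝ η z I • fderiv ℝ h z I) / 2) = 0 := by
      linear_combination (1 / 2) * h1 + (I / 2) * h2 -
        (1 / 2) * (∫ z, fderiv ℝ η z I • fderiv ℝ h z I) * I_mul_I
    have h4 := congrArg conj h3
    rw [map_sub, map_mul, conj_I, map_zero] at h4
    linear_combination h4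

end Pool.Agent.Lib.MP_e277cf_an
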